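import Mathlib

set_option autoImplicit false

/-!
# Shifts of multivariate polynomials, and the multiplicity lemma over a finite field
-/

open MvPolynomial

namespace Pool.Agent.H822

section shift

variable {R : Type*} [CommRing R] {c : ℕ}

/-- The substitution `X i ↦ X i + a i`. -/
noncomputable def sh (a : Fin c → R) : MvPolynomial (Fin c) R →ₐ[R] MvPolynomial (Fin c) R :=
  aeval (fun i => X i + C (a i))

lemma sh_X (a : Fin c → R) (i : Fin c) : sh a (X i) = X i + C (a i) := by
  simp [sh]

lemma sh_C (a : Fin c → R) (r : R) : sh a (C r) = C r := by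
  simp [sh]

lemma sh_sh (a b : Fin c → R) (P : MvPolynomial (Fin c) R) : sh a (sh b P) = sh (a + b) P := by
  have : (sh a).comp (sh b) = sh (a + b) := by
    apply MvPolynomial.algHom_ext
    intro i
    simp [sh_X, sh_C, add_assoc]
  exact DFunLike.congr_fun this P

lemma sh_zero (P : MvPolynomial (Fin c) R) : sh (0 : Fin c → R) P = P := by
  have : sh (0 : Fin c → R) = AlgHom.id R _ := by
    apply MvPolynomial.algHom_ext
    intro i
    simp [sh_X]
  rw [this]; rfl

/-- The coefficient of `Y^γ` in `(Y + a)^β`. -/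
def bc (a : Fin c → R) (β γ : Fin c →₀ ℕ) : R :=
  ∏ i, ((β i).choose (γ i) : R) * (a i) ^ (β i - γ i)

lemma coeff_sh_monomial (a : Fin c → R) (β γ : Fin c →₀ ℕ) (r : R) :
    coeff γ (sh a (monomial β r)) = r * bc a β γ := by
  classical
  have h1 : sh a (monomial β r) =
      C r * ∏ i, (X i + C (a i)) ^ (β i) := by
    rw [sh, aeval_monomial, Finsupp.prod_fintype]
    · rfl
    · intro i; simp
  have h2 : ∏ i, (X i + C (a i) : MvPolynomial (Fin c) R) ^ (β i) =
      ∑ p ∈ Fintype.piFinset (fun i => Finset.range (β i + 1)),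
        ∏ i, ((X i) ^ (p i) * (C (a i)) ^ (β i - p i) * ((β i).choose (p i) : MvPolynomial (Fin c) R)) := by
    simp_rw [add_pow]
    rw [Finset.prod_univ_sum]
  have h3 : ∀ p : Fin c → ℕ, ∏ i, ((X i : MvPolynomial (Fin c) R) ^ (p i) * (C (a i)) ^ (β i - p i) *
      ((β i).choose (p i) : MvPolynomial (Fin c) R)) =
      monomial (Finsupp.equivFunOnFinite.symm p) (∏ i, ((β i).choose (p i) : R) * (a i) ^ (β i - p i)) := by
    intro p
    rw [Finset.prod_mul_distrib, Finset.prod_mul_distrib, MvPolynomial.monomial_eq, Finsupp.prod_fintype _ _ (by simp)]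
    simp only [Finsupp.equivFunOnFinite_symm_apply_apply, map_prod, map_mul, map_pow, map_natCast,
      Finset.prod_mul_distrib]
    ring
  rw [h1, h2, coeff_C_mul]
  simp_rw [h3]
  rw [coeff_sum]
  simp only [coeff_monomial]
  congr 1
  unfold bc
  by_cases hγ : ∀ i, γ i ≤ β i
  · rw [Finset.sum_eq_single (fun i => γ i)]
    · rw [if_pos]
      ext i; simp
    · intro p _ hp
      rw [if_neg]
      intro h
      apply hp
      rw [← h]
      ext i; simp
    · intro h
      exfalso; apply h
      rw [Fintype.mem_piFinset]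
      intro i
      rw [Finset.mem_range]
      exact Nat.lt_succ_of_le (hγ i)
  · push Not at hγ
    obtain ⟨i, hi⟩ := hγ
    rw [Finset.prod_eq_zero (Finset.mem_univ i)]
    · apply Finset.sum_eq_zero
      intro p hp
      rw [Fintype.mem_piFinset] at hp
      rw [if_neg]
      intro h
      have := hp i
      rw [Finset.mem_range] at this
      rw [← h] at hi
      simp at hi
      omega
    · rw [Nat.choose_eq_zero_of_lt hi]; simp

lemma coeff_sh (a : Fin c → R) (P : MvPolynomial (Fin c) R) (γ : Fin c →₀ ℕ) :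
    coeff γ (sh a P) = ∑ β ∈ P.support, coeff β P * bc a β γ := by
  conv_lhs => rw [P.as_sum]
  rw [map_sum, coeff_sum]
  apply Finset.sum_congr rfl
  intro β _
  exact coeff_sh_monomial a β γ _

end shift

end Pool.Agent.H822
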