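import Mathlib
import Pool.Agent.H822.Mult

set_option autoImplicit false

/-!
# The polynomial argument along lines
-/

open MvPolynomial

namespace Pool.Agent.H822

section dual

lemma exists_dual_family {K : Type*} [Field K] {B A : Type*} [Fintype B] [DecidableEq B]
    (Λ : A → Module.Dual K (B → K)) (hinj : ∀ x, (∀ a, Λ a x = 0) → x = 0) :
    ∃ (a : B → A) (g : B → (B → K)), ∀ i j, Λ (a i) (g j) = if i = j then 1 else 0 := by
  classical
  have htop : Submodule.span K (Set.range Λ) = ⊤ := by
    have h1 : (Submodule.span K (Set.range Λ)).dualCoannihilator = ⊥ := by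
      rw [eq_bot_iff]
      intro x hx
      rw [Submodule.mem_dualCoannihilator] at hx
      rw [Submodule.mem_bot]
      apply hinj
      intro a
      exact hx _ (Submodule.subset_span ⟨a, rfl⟩)
    rw [← Subspace.dualCoannihilator_dualAnnihilator_eq (W := Submodule.span K (Set.range Λ)), h1]
    exact Submodule.dualAnnihilator_bot
  obtain ⟨κ, a, ha, hspan, hli⟩ := exists_linearIndependent' K Λ
  let b : Module.Basis κ K (Module.Dual K (B → K)) := Module.Basis.mk hli (by rw [hspan, htop])
  haveI : Finite κ := Module.Finite.finite_basis b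
  haveI : Fintype κ := Fintype.ofFinite κ
  have hcard : Fintype.card κ = Fintype.card B := by
    rw [← Module.finrank_eq_card_basis b, Subspace.dual_finrank_eq, Module.finrank_fintype_fun_eq_card]
  let e : κ ≃ B := Fintype.equivOfCardEq hcard
  let b' := b.reindex e
  refine ⟨fun j => a (e.symm j), fun j => (Module.evalEquiv K (B → K)).symm (b'.dualBasis j), ?_⟩
  intro i j
  have h1 : Λ (a (e.symm i)) = b' i := by
    simp [b', b]
  rw [h1, Module.apply_evalEquiv_symm_apply, Module.Basis.dualBasis_apply_self]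

end dual

section box

variable {F : Type*} [Field F]

/-- exponent vector of a box index -/
noncomputable def toF {c e : ℕ} (β : Fin c → Fin (e+1)) : Fin c →₀ ℕ :=
  Finsupp.equivFunOnFinite.symm (fun i => (β i : ℕ))

lemma toF_injective {c e : ℕ} : Function.Injective (toF : (Fin c → Fin (e+1)) → (Fin c →₀ ℕ)) := by
  intro β β' h
  ext i
  have := DFunLike.congr_fun h i
  simpa [toF] using this

lemma degree_toF {c e : ℕ} (β : Fin c → Fin (e+1)) : (toF β).degree ≤ c * e := by
  rw [Finsupp.degree_eq_sum]
  calc ∑ i, (toF β) i ≤ ∑ _i : Fin c, e := by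
        apply Finset.sum_le_sum
        intro i _
        simp only [toF, Finsupp.equivFunOnFinite_symm_apply_apply]
        exact Nat.le_of_lt_succ (β i).2
    _ = c * e := by simp

/-- box polynomials -/
noncomputable def Psi (F : Type*) [Field F] (c e : ℕ) :
    ((Fin c → Fin (e+1)) → F) →ₗ[F] MvPolynomial (Fin c) F :=
  Fintype.linearCombination F (fun β => monomial (toF β) (1 : F))

lemma Psi_apply (c e : ℕ) (x : (Fin c → Fin (e+1)) → F) :
    Psi F c e x = ∑ β, monomial (toF β) (x β) := by
  unfold Psi
  rw [Fintype.linearCombination_apply]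
  simp [smul_monomial]

lemma Psi_coeff (c e : ℕ) (x : (Fin c → Fin (e+1)) → F) (β : Fin c → Fin (e+1)) :
    coeff (toF β) (Psi F c e x) = x β := by
  classical
  rw [Psi_apply, coeff_sum]
  simp only [coeff_monomial, toF_injective.eq_iff]
  simp

lemma Psi_totalDegree (c e : ℕ) (x : (Fin c → Fin (e+1)) → F) :
    (Psi F c e x).totalDegree ≤ c * e := by
  rw [Psi_apply]
  apply totalDegree_finsetSum_le
  intro β _
  refine (totalDegree_monomial_le _ _).trans ?_
  have := degree_toF β
  rw [Finsupp.degree_eq_sum] at this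
  rw [Finsupp.sum_fintype _ _ (by simp)]
  exact this

variable [Fintype F]

lemma box_family (c e μ : ℕ) (h : c * e < μ * Fintype.card F) :
    ∃ (v : (Fin c → Fin (e+1)) → (Fin c → F)) (γ : (Fin c → Fin (e+1)) → (Fin c →₀ ℕ))
      (G : (Fin c → Fin (e+1)) → MvPolynomial (Fin c) F),
      (∀ j, (γ j).degree < μ) ∧ (∀ j, (G j).totalDegree ≤ c * e) ∧
      (∀ i j, coeff (γ i) (sh (v i) (G j)) = if i = j then 1 else 0) := by
  classical
  let A := {p : (Fin c → F) × (Fin c →₀ ℕ) // p.2.degree < μ}
  let Λ : A → Module.Dual F ((Fin c → Fin (e+1)) → F) := fun a =>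
    (lcoeff F a.1.2) ∘ₗ (sh a.1.1).toLinearMap ∘ₗ (Psi F c e)
  have hΛ : ∀ a x, Λ a x = coeff a.1.2 (sh a.1.1 (Psi F c e x)) := by
    intro a x; rfl
  obtain ⟨a, g, hag⟩ := exists_dual_family Λ (by
    intro x hx
    by_contra hne
    have hP : Psi F c e x ≠ 0 := by
      intro h0
      apply hne
      ext β
      rw [← Psi_coeff c e x β, h0]; simp
    have := mult_lemma c μ (Psi F c e x) (by
      intro v γ hγ
      have := hx ⟨(v, γ), hγ⟩
      rwa [hΛ] at this) hP
    have h2 := Psi_totalDegree c e x
    omega)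
  refine ⟨fun j => (a j).1.1, fun j => (a j).1.2, fun j => Psi F c e (g j), fun j => (a j).2,
    fun j => Psi_totalDegree c e _, ?_⟩
  intro i j
  rw [← hag i j, hΛ]

/-- pigeonhole over translations -/
lemma exists_shift {B V : Type*} [Fintype B] [Fintype V] [AddCommGroup V] [DecidableEq V]
    (v : B → V) (Ω : Finset V) :
    ∃ w : V, Fintype.card B * Ω.card ≤ (Finset.univ.filter (fun j => v j + w ∈ Ω)).card * Fintype.card V := by
  classical
  by_contra hcon
  push Not at hcon
  have h1 : ∑ w : V, (Finset.univ.filter (fun j => v j + w ∈ Ω)).card = Fintype.card B * Ω.card := by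
    simp_rw [Finset.card_filter]
    rw [Finset.sum_comm]
    have : ∀ j : B, ∑ w : V, (if v j + w ∈ Ω then 1 else 0) = Ω.card := by
      intro j
      rw [← Finset.card_filter]
      apply Finset.card_bij (fun w _ => v j + w)
      · intro w hw; simpa using hw
      · intro w _ w' _ h; simpa using h
      · intro y hy
        exact ⟨y - v j, by simpa using hy, by abel⟩
    simp_rw [this]
    simp
  have hne : (Finset.univ : Finset V).Nonempty := ⟨0, Finset.mem_univ _⟩
  have h2 : ∑ w : V, (Finset.univ.filter (fun j => v j + w ∈ Ω)).card * Fintype.card V <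
      ∑ _w : V, Fintype.card B * Ω.card :=
    Finset.sum_lt_sum_of_nonempty hne (fun w _ => hcon w)
  rw [← Finset.sum_mul, h1, Finset.sum_const, Finset.card_univ, smul_eq_mul, mul_comm] at h2
  exact lt_irrefl _ h2

end box

section lines

variable {F : Type*} [Field F] {c : ℕ}

lemma bc_dvd {R : Type*} [CommRing R] (r : R) (b : Fin c → R) (β γ : Fin c →₀ ℕ) :
    r ^ (β.degree - γ.degree) ∣ bc (fun i => r * b i) β γ := by
  by_cases h : ∀ i, γ i ≤ β i
  · have h1 : β.degree - γ.degree = ∑ i, (β i - γ i) := by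
      rw [Finsupp.degree_eq_sum, Finsupp.degree_eq_sum, Finset.sum_tsub_distrib]
      intro i _; exact h i
    rw [h1, ← Finset.prod_pow_eq_pow_sum]
    unfold bc
    apply Finset.prod_dvd_prod_of_dvd
    intro i _
    exact Dvd.dvd.mul_left (pow_dvd_pow_of_dvd (Dvd.intro _ rfl) _) _
  · push Not at h
    obtain ⟨i, hi⟩ := h
    have : bc (fun i => r * b i) β γ = 0 := by
      unfold bc
      apply Finset.prod_eq_zero (Finset.mem_univ i)
      rw [Nat.choose_eq_zero_of_lt hi]; simp
    rw [this]; exact dvd_zero _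

lemma bc_natDegree (a : Fin c → Polynomial F) (ha : ∀ i, (a i).natDegree ≤ 1) (β γ : Fin c →₀ ℕ) :
    bc a β γ = 0 ∨ (γ.degree ≤ β.degree ∧ (bc a β γ).natDegree + γ.degree ≤ β.degree) := by
  by_cases h : ∀ i, γ i ≤ β i
  · right
    have hle : γ.degree ≤ β.degree := by
      rw [Finsupp.degree_eq_sum, Finsupp.degree_eq_sum]
      exact Finset.sum_le_sum (fun i _ => h i)
    refine ⟨hle, ?_⟩
    have h1 : β.degree - γ.degree = ∑ i, (β i - γ i) := by
      rw [Finsupp.degree_eq_sum, Finsupp.degree_eq_sum, Finset.sum_tsub_distrib]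
      intro i _; exact h i
    have h2 : (bc a β γ).natDegree ≤ ∑ i, (β i - γ i) := by
      unfold bc
      refine (Polynomial.natDegree_prod_le _ _).trans (Finset.sum_le_sum ?_)
      intro i _
      refine (Polynomial.natDegree_mul_le).trans ?_
      rw [Polynomial.natDegree_natCast, zero_add]
      refine (Polynomial.natDegree_pow_le).trans ?_
      calc (β i - γ i) * (a i).natDegree ≤ (β i - γ i) * 1 := Nat.mul_le_mul_left _ (ha i)
        _ = _ := mul_one _
    omega
  · left
    push Not at h
    obtain ⟨i, hi⟩ := h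
    unfold bc
    apply Finset.prod_eq_zero (Finset.mem_univ i)
    rw [Nat.choose_eq_zero_of_lt hi]; simp

/-- vanishing to order `m` at a point is inherited along lines through it -/
lemma vanish_line (Q : MvPolynomial (Fin c) (Polynomial F)) (s : F) (b : Fin c → F) (m : ℕ)
    (hQ : ∀ γ : Fin c →₀ ℕ, (Polynomial.X - Polynomial.C s) ^ (m - γ.degree) ∣ coeff γ Q)
    (γ : Fin c →₀ ℕ) :
    (Polynomial.X - Polynomial.C s) ^ (m - γ.degree) ∣
      coeff γ (sh (fun i => (Polynomial.X - Polynomial.C s) * Polynomial.C (b i)) Q) := by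
  rw [coeff_sh]
  apply Finset.dvd_sum
  intro β _
  have h1 := hQ β
  have h2 := bc_dvd (Polynomial.X - Polynomial.C s) (fun i => Polynomial.C (b i)) β γ
  have h3 := mul_dvd_mul h1 h2
  rw [← pow_add] at h3
  refine dvd_trans (pow_dvd_pow _ ?_) h3
  omega

/-- the polynomial `∑ S^{c(E-e)} G_e(Z)` -/
noncomputable def Pl (E : ℕ) (G : ℕ → MvPolynomial (Fin c) F) : MvPolynomial (Fin c) (Polynomial F) :=
  ∑ e ∈ Finset.range (E+1), C (Polynomial.X ^ (c * (E - e))) * map Polynomial.C (G e)

lemma Pl_succ (E : ℕ) (G : ℕ → MvPolynomial (Fin c) F) (h : G (E+1) = 0) :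
    Pl (E+1) G = C (Polynomial.X ^ c) * Pl E G := by
  unfold Pl
  rw [Finset.sum_range_succ, h, map_zero, mul_zero, add_zero, Finset.mul_sum]
  apply Finset.sum_congr rfl
  intro e he
  rw [Finset.mem_range] at he
  have : E + 1 - e = (E - e) + 1 := by omega
  rw [this, mul_add, mul_one, pow_add, C_mul]
  ring

lemma Pl_eq (E e : ℕ) (he : e ≤ E) (G : ℕ → MvPolynomial (Fin c) F)
    (h : ∀ e', e < e' → e' ≤ E → G e' = 0) :
    Pl E G = C (Polynomial.X ^ (c * (E - e))) * Pl e G := by
  induction E with
  | zero =>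
    have : e = 0 := by omega
    subst this
    simp
  | succ E ih =>
    rcases Nat.lt_or_ge E e with h1 | h1
    · have : e = E + 1 := by omega
      subst this
      simp
    · rw [Pl_succ E G (h (E+1) (by omega) le_rfl), ih h1 (fun e' h2 h3 => h e' h2 (by omega))]
      have : E + 1 - e = (E - e) + 1 := by omega
      rw [this, mul_add, mul_one, pow_add, C_mul]
      ring

lemma map_eval_zero_Pl (hc : 1 ≤ c) (e : ℕ) (G : ℕ → MvPolynomial (Fin c) F) :
    map (Polynomial.evalRingHom (0:F)) (Pl e G) = G e := by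
  unfold Pl
  rw [map_sum, Finset.sum_range_succ, Finset.sum_eq_zero, zero_add]
  · rw [map_mul, map_C, Nat.sub_self, mul_zero, pow_zero, map_one, C_1, one_mul, map_map]
    have : (Polynomial.evalRingHom (0:F)).comp Polynomial.C = RingHom.id F := by
      ext x; simp
    rw [this, map_id]
  · intro e' he'
    rw [Finset.mem_range] at he'
    rw [map_mul, map_C, map_pow]
    have : 0 < c * (e - e') := Nat.mul_pos hc (by omega)
    simp [this.ne']

lemma map_sh {R S : Type*} [CommRing R] [CommRing S] (φ : R →+* S) (a : Fin c → R)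
    (P : MvPolynomial (Fin c) R) : map φ (sh a P) = sh (fun i => φ (a i)) (map φ P) := by
  have : (map φ).comp (sh a).toRingHom = ((sh (fun i => φ (a i))).toRingHom).comp (map φ) := by
    apply MvPolynomial.ringHom_ext
    · intro r; simp [sh_C]
    · intro i; simp [sh_X]
  exact RingHom.congr_fun this P

/-- degree bound -/
lemma natDegree_Pl (e : ℕ) (G : ℕ → MvPolynomial (Fin c) F) (hG : ∀ e' ≤ e, (G e').totalDegree ≤ c * e')
    (a : Fin c → Polynomial F) (ha : ∀ i, (a i).natDegree ≤ 1) (γ : Fin c →₀ ℕ)
    (hne : coeff γ (sh a (Pl e G)) ≠ 0) :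
    (coeff γ (sh a (Pl e G))).natDegree + γ.degree ≤ c * e := by
  classical
  have hterm : ∀ e' ∈ Finset.range (e+1), ∀ β ∈ (map Polynomial.C (G e')).support,
      (Polynomial.X ^ (c * (e - e')) * (coeff β (map Polynomial.C (G e')) * bc a β γ) = 0) ∨
      (γ.degree ≤ c * e ∧ (Polynomial.X ^ (c * (e - e')) *
        (coeff β (map Polynomial.C (G e')) * bc a β γ)).natDegree ≤ c * e - γ.degree) := by
    intro e' he' β hβ
    rw [Finset.mem_range] at he'
    rcases bc_natDegree a ha β γ with h | ⟨h1, h2⟩
    · left; rw [h]; simp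
    · right
      have h3 : β.degree ≤ c * e' := by
        have hβ' : β ∈ (G e').support := by
          rw [mem_support_iff] at hβ ⊢
          intro h0; apply hβ; rw [coeff_map, h0]; simp
        have h4 := le_totalDegree hβ'
        rw [Finsupp.degree_eq_sum]
        rw [Finsupp.sum_fintype _ _ (by simp)] at h4
        exact h4.trans (hG e' (by omega))
      have h5 : c * e' + c * (e - e') = c * e := by
        rw [← mul_add]; congr 1; omega
      refine ⟨by omega, ?_⟩
      refine (Polynomial.natDegree_mul_le).trans ?_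
      rw [Polynomial.natDegree_X_pow]
      have h6 : (coeff β (map Polynomial.C (G e')) * bc a β γ).natDegree ≤ (bc a β γ).natDegree := by
        refine (Polynomial.natDegree_mul_le).trans ?_
        rw [coeff_map, Polynomial.natDegree_C, zero_add]
      omega
  have hexp : coeff γ (sh a (Pl e G)) = ∑ e' ∈ Finset.range (e+1), ∑ β ∈ (map Polynomial.C (G e')).support,
      Polynomial.X ^ (c * (e - e')) * (coeff β (map Polynomial.C (G e')) * bc a β γ) := by
    unfold Pl
    rw [map_sum, coeff_sum]
    apply Finset.sum_congr rfl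
    intro e' _
    rw [map_mul, sh_C, coeff_C_mul, coeff_sh, Finset.mul_sum]
  by_cases hγ : γ.degree ≤ c * e
  · have : (coeff γ (sh a (Pl e G))).natDegree ≤ c * e - γ.degree := by
      rw [hexp]
      apply Polynomial.natDegree_sum_le_of_forall_le
      intro e' he'
      apply Polynomial.natDegree_sum_le_of_forall_le
      intro β hβ
      rcases hterm e' he' β hβ with h | ⟨_, h⟩
      · rw [h]; simp
      · exact h
    omega
  · exfalso
    apply hne
    rw [hexp]
    apply Finset.sum_eq_zero
    intro e' he'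
    apply Finset.sum_eq_zero
    intro β hβ
    rcases hterm e' he' β hβ with h | ⟨h, _⟩
    · exact h
    · exact absurd h hγ

omit [Field F] in
lemma _root_.Pool.Agent.H822.card_erase' [Fintype F] [DecidableEq F] (x : F) :
    (Finset.univ.erase x).card = Fintype.card F - 1 := by
  rw [Finset.card_erase_of_mem (Finset.mem_univ _), Finset.card_univ]

lemma line_eq (s : F) (b v : Fin c → F) :
    (fun i => (Polynomial.X - Polynomial.C s) * Polynomial.C (b i)) +
      (fun j => Polynomial.C ((v + s • b) j)) =
    fun i => Polynomial.C (v i) + Polynomial.X * Polynomial.C (b i) := by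
  funext i
  simp only [Pi.add_apply, Pi.smul_apply, smul_eq_mul, map_add, map_mul]
  ring

/-- vanishing passes to the quotient by a power of `X` -/
lemma vanish_factor (P : MvPolynomial (Fin c) (Polynomial F)) (k : ℕ) (s : F) (hs : s ≠ 0)
    (z : Fin c → F) (m : ℕ)
    (hvan : ∀ γ : Fin c →₀ ℕ, (∀ i, γ i < m) → ∀ i < m,
      (Polynomial.taylor s (coeff γ (sh (fun j => Polynomial.C (z j))
        (C (Polynomial.X ^ k) * P)))).coeff i = 0)
    (γ' : Fin c →₀ ℕ) :
    (Polynomial.X - Polynomial.C s) ^ (m - γ'.degree) ∣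
      coeff γ' (sh (fun j => Polynomial.C (z j)) P) := by
  have hcop : IsCoprime (Polynomial.X - Polynomial.C s) (Polynomial.X : Polynomial F) := by
    have := Polynomial.isCoprime_X_sub_C_of_isUnit_sub (R := F) (a := s) (b := 0)
      (by simpa using hs)
    simpa using this
  rcases Nat.lt_or_ge γ'.degree m with h1 | h1
  · have h2 : (Polynomial.X - Polynomial.C s) ^ m ∣
        coeff γ' (sh (fun j => Polynomial.C (z j)) (C (Polynomial.X ^ k) * P)) := by
      rw [Polynomial.X_sub_C_pow_dvd_iff, ← Polynomial.taylor_apply, Polynomial.X_pow_dvd_iff]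
      intro i hi
      apply hvan γ' _ i hi
      intro j
      refine lt_of_le_of_lt ?_ h1
      rw [Finsupp.degree_eq_sum]
      exact Finset.single_le_sum (f := fun i => γ' i) (fun _ _ => Nat.zero_le _) (Finset.mem_univ j)
    rw [map_mul, sh_C, coeff_C_mul] at h2
    have h3 : (Polynomial.X - Polynomial.C s) ^ m ∣
        coeff γ' (sh (fun j => Polynomial.C (z j)) P) := by
      apply IsCoprime.dvd_of_dvd_mul_left _ h2
      exact IsCoprime.pow hcop
    exact dvd_trans (pow_dvd_pow _ (Nat.sub_le _ _)) h3
  · rw [Nat.sub_eq_zero_of_le h1, pow_zero]; exact one_dvd _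

variable [Fintype F] [DecidableEq F]

/-- The core of the argument: if the top part is zero, the part `G e` vanishes to high order in all
rich directions. -/
lemma core (hc : 1 ≤ c) (E e : ℕ) (he : e ≤ E) (G : ℕ → MvPolynomial (Fin c) F)
    (hG : ∀ e' ≤ e, (G e').totalDegree ≤ c * e') (h0 : ∀ e', e < e' → e' ≤ E → G e' = 0)
    (f : F → (Fin c → F) → ℕ)
    (hvan : ∀ s : F, s ≠ 0 → ∀ z : Fin c → F, ∀ γ : Fin c →₀ ℕ, (∀ i, γ i < f s z) → ∀ i < f s z,
      (Polynomial.taylor s (coeff γ (sh (fun j => Polynomial.C (z j)) (Pl E G)))).coeff i = 0)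
    (b v : Fin c → F) (hv : 2 * (c * e) < ∑ s ∈ Finset.univ.erase (0:F), f s (v + s • b))
    (γ : Fin c →₀ ℕ) (hγ : γ.degree < c * e / Fintype.card F + 1) :
    coeff γ (sh v (G e)) = 0 := by
  have hqpos : 0 < Fintype.card F := Fintype.card_pos
  have ha1 : ∀ i, (Polynomial.C (v i) + Polynomial.X * Polynomial.C (b i)).natDegree ≤ 1 := by
    intro i
    refine (Polynomial.natDegree_add_le _ _).trans ?_
    rw [Polynomial.natDegree_C]
    simp only [zero_le, sup_of_le_right]
    refine (Polynomial.natDegree_mul_le).trans ?_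
    rw [Polynomial.natDegree_C, add_zero]
    exact Polynomial.natDegree_X_le
  have hp0 : coeff γ (sh (fun i => Polynomial.C (v i) + Polynomial.X * Polynomial.C (b i)) (Pl e G)) = 0 := by
    by_contra hne
    have hdeg := natDegree_Pl e G hG (fun i => Polynomial.C (v i) + Polynomial.X * Polynomial.C (b i))
      ha1 γ hne
    -- divisibility
    have hdvd : ∀ s ∈ Finset.univ.erase (0:F),
        (Polynomial.X - Polynomial.C s) ^ (f s (v + s • b) - γ.degree) ∣
          coeff γ (sh (fun i => Polynomial.C (v i) + Polynomial.X * Polynomial.C (b i)) (Pl e G)) := by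
      intro s hs
      have hs0 : s ≠ 0 := by simpa using hs
      have hQd := vanish_factor (Pl e G) (c * (E - e)) s hs0 (v + s • b) (f s (v + s • b)) (by
        intro γ' h1 i hi
        rw [← Pl_eq E e he G h0]
        exact hvan s hs0 _ γ' h1 i hi)
      have h4 := vanish_line _ s b _ hQd γ
      rw [sh_sh, line_eq] at h4
      exact h4
    have hprod : ∏ s ∈ Finset.univ.erase (0:F),
        (Polynomial.X - Polynomial.C s) ^ (f s (v + s • b) - γ.degree) ∣
          coeff γ (sh (fun i => Polynomial.C (v i) + Polynomial.X * Polynomial.C (b i)) (Pl e G)) := by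
      apply Finset.prod_dvd_of_coprime _ hdvd
      intro x _ y _ hxy
      apply IsCoprime.pow
      exact Polynomial.isCoprime_X_sub_C_of_isUnit_sub (sub_ne_zero.2 hxy).isUnit
    have hd := Polynomial.natDegree_le_of_dvd hprod hne
    rw [Polynomial.natDegree_prod _ _ (fun a _ => pow_ne_zero _ (Polynomial.X_sub_C_ne_zero a))] at hd
    simp only [Polynomial.natDegree_pow, Polynomial.natDegree_X_sub_C, mul_one] at hd
    have hsum : ∑ s ∈ Finset.univ.erase (0:F), f s (v + s • b) ≤
        ∑ s ∈ Finset.univ.erase (0:F), (f s (v + s • b) - γ.degree) +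
          (Fintype.card F - 1) * γ.degree := by
      rw [← card_erase' (0:F), ← smul_eq_mul, ← Finset.sum_const, ← Finset.sum_add_distrib]
      apply Finset.sum_le_sum
      intro s _
      omega
    have hγ2 : γ.degree * Fintype.card F ≤ c * e := by
      have : γ.degree ≤ c * e / Fintype.card F := by omega
      exact (Nat.mul_le_mul_right _ this).trans (Nat.div_mul_le_self _ _)
    obtain ⟨q', hq'⟩ : ∃ q', Fintype.card F = q' + 1 := ⟨Fintype.card F - 1, by omega⟩
    rw [hq'] at hsum hγ2
    simp only [Nat.add_sub_cancel] at hsum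
    have : q' * γ.degree + γ.degree ≤ c * e := by
      rw [mul_comm] at hγ2; linarith
    omega
  have h1 : (Polynomial.evalRingHom (0:F))
      (coeff γ (sh (fun i => Polynomial.C (v i) + Polynomial.X * Polynomial.C (b i)) (Pl e G))) =
      coeff γ (sh v (G e)) := by
    rw [← coeff_map, map_sh, map_eval_zero_Pl hc]
    congr 2
    congr 1
    funext i
    simp
  rw [← h1, hp0]; simp

end lines

end Pool.Agent.H822
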