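import Mathlib
import Pool.Agent.H822.Core

set_option autoImplicit false

/-!
# The counting inequality for integer weights
-/

open MvPolynomial

namespace Pool.Agent.H822

variable {F : Type*} [Field F] [Fintype F] [DecidableEq F] {c : ℕ}

lemma totalDegree_sh_le (a : Fin c → F) (G : MvPolynomial (Fin c) F) (n : ℕ) (h : G.totalDegree ≤ n) :
    (sh a G).totalDegree ≤ n := by
  unfold totalDegree
  apply Finset.sup_le
  intro γ hγ
  rw [mem_support_iff, coeff_sh] at hγ
  obtain ⟨β, hβ, hne⟩ := Finset.exists_ne_zero_of_sum_ne_zero hγ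
  have h1 : ∀ i, γ i ≤ β i := by
    intro i
    by_contra hi
    push Not at hi
    apply hne
    have : bc a β γ = 0 := by
      unfold bc
      apply Finset.prod_eq_zero (Finset.mem_univ i)
      rw [Nat.choose_eq_zero_of_lt hi]; simp
    rw [this, mul_zero]
  have h2 := (le_totalDegree hβ).trans h
  rw [Finsupp.sum_fintype _ _ (by simp)] at h2 ⊢
  exact (Finset.sum_le_sum (fun i _ => h1 i)).trans h2

lemma Pl_add (E : ℕ) (G H : ℕ → MvPolynomial (Fin c) F) : Pl E (G + H) = Pl E G + Pl E H := by
  unfold Pl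
  rw [← Finset.sum_add_distrib]
  apply Finset.sum_congr rfl
  intro e _
  simp [mul_add]

lemma Pl_smul (E : ℕ) (r : F) (G : ℕ → MvPolynomial (Fin c) F) :
    Pl E (r • G) = C (Polynomial.C r) * Pl E G := by
  unfold Pl
  rw [Finset.mul_sum]
  apply Finset.sum_congr rfl
  intro e _
  rw [Pi.smul_apply, smul_eq_C_mul, map_mul, map_C]
  ring

/-- the condition functional -/
noncomputable def cond (s : F) (z : Fin c → F) (γ : Fin c →₀ ℕ) (i : ℕ)
    (P : MvPolynomial (Fin c) (Polynomial F)) : F :=
  (Polynomial.taylor s (coeff γ (sh (fun j => Polynomial.C (z j)) P))).coeff i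

lemma cond_add (s : F) (z : Fin c → F) (γ : Fin c →₀ ℕ) (i : ℕ)
    (P Q : MvPolynomial (Fin c) (Polynomial F)) :
    cond s z γ i (P + Q) = cond s z γ i P + cond s z γ i Q := by
  simp [cond]

lemma cond_C_mul (s : F) (z : Fin c → F) (γ : Fin c →₀ ℕ) (i : ℕ) (r : F)
    (P : MvPolynomial (Fin c) (Polynomial F)) :
    cond s z γ i (C (Polynomial.C r) * P) = r * cond s z γ i P := by
  unfold cond
  rw [map_mul, sh_C, coeff_C_mul, Polynomial.taylor_mul, Polynomial.taylor_C, Polynomial.coeff_C_mul]

/-- rich directions -/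
noncomputable def rich (f : F → (Fin c → F) → ℕ) (b : (Fin c → F) → (Fin c → F)) (n : ℕ) :
    Finset (Fin c → F) :=
  Finset.univ.filter (fun v => 2 * n < ∑ s ∈ Finset.univ.erase (0:F), f s (v + s • b v))

theorem count_aux (hc : 1 ≤ c) (E : ℕ) (f : F → (Fin c → F) → ℕ) (b : (Fin c → F) → (Fin c → F))
    (v : ∀ e : ℕ, (Fin c → Fin (e+1)) → (Fin c → F)) (γ : ∀ e : ℕ, (Fin c → Fin (e+1)) → (Fin c →₀ ℕ))
    (G : ∀ e : ℕ, (Fin c → Fin (e+1)) → MvPolynomial (Fin c) F)
    (hγ : ∀ e j, (γ e j).degree < c * e / Fintype.card F + 1)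
    (hG : ∀ e j, (G e j).totalDegree ≤ c * e)
    (hdual : ∀ e i j, coeff (γ e i) (sh (v e i) (G e j)) = if i = j then 1 else 0)
    (w : ℕ → (Fin c → F)) :
    ∑ e ∈ Finset.range (E+1), (Finset.univ.filter (fun j => v e j + w e ∈ rich f b (c * e))).card ≤
      ∑ s ∈ Finset.univ.erase (0:F), ∑ z : Fin c → F, f s z ^ (c + 1) := by
  classical
  -- index types
  let Idx := Σ e : Fin (E+1), {j : Fin c → Fin ((e:ℕ)+1) // v e j + w e ∈ rich f b (c * e)}
  let Cond := Σ p : {s : F // s ≠ 0} × (Fin c → F), (Fin c → Fin (f p.1 p.2)) × Fin (f p.1 p.2)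
  have hIdx : Fintype.card Idx = ∑ e ∈ Finset.range (E+1),
      (Finset.univ.filter (fun j => v e j + w e ∈ rich f b (c * e))).card := by
    rw [Fintype.card_sigma, ← Fin.sum_univ_eq_sum_range (fun e =>
      (Finset.univ.filter (fun j => v e j + w e ∈ rich f b (c * e))).card)]
    apply Finset.sum_congr rfl
    intro e _
    rw [Fintype.card_subtype]
  have hCond : Fintype.card Cond = ∑ s ∈ Finset.univ.erase (0:F), ∑ z : Fin c → F, f s z ^ (c + 1) := by
    rw [Fintype.card_sigma, Fintype.sum_prod_type]
    have h1 : ∀ s : {s : F // s ≠ 0}, ∑ z : Fin c → F,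
        Fintype.card ((Fin c → Fin (f s z)) × Fin (f s z)) = ∑ z : Fin c → F, f s z ^ (c+1) := by
      intro s
      apply Finset.sum_congr rfl
      intro z _
      simp [pow_succ]
    simp only [h1]
    rw [← Finset.filter_ne' Finset.univ (0:F), ← Finset.sum_subtype_eq_sum_filter]
    simp
  rw [← hIdx, ← hCond]
  -- the linear map
  let Gx : (Idx → F) → ℕ → MvPolynomial (Fin c) F := fun x e =>
    if h : e < E + 1 then
      ∑ j : {j : Fin c → Fin (e+1) // v e j + w e ∈ rich f b (c * e)},
        x ⟨⟨e, h⟩, j⟩ • sh (-(w e)) (G e j)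
    else 0
  have hGx_add : ∀ x y, Gx (x + y) = Gx x + Gx y := by
    intro x y
    funext e
    simp only [Gx, Pi.add_apply]
    split_ifs with h
    · rw [← Finset.sum_add_distrib]
      apply Finset.sum_congr rfl
      intro j _
      rw [add_smul]
    · simp
  have hGx_smul : ∀ (r : F) x, Gx (r • x) = r • Gx x := by
    intro r x
    funext e
    simp only [Gx, Pi.smul_apply]
    split_ifs with h
    · rw [Finset.smul_sum]
      apply Finset.sum_congr rfl
      intro j _
      rw [smul_assoc]
    · simp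
  let Λ : (Idx → F) →ₗ[F] (Cond → F) :=
    { toFun := fun x p => cond p.1.1 p.1.2 (Finsupp.equivFunOnFinite.symm (fun i => (p.2.1 i : ℕ)))
        (p.2.2 : ℕ) (Pl E (Gx x))
      map_add' := by
        intro x y
        funext p
        simp only [Pi.add_apply]
        rw [hGx_add, Pl_add, cond_add]
      map_smul' := by
        intro r x
        funext p
        simp only [RingHom.id_apply, Pi.smul_apply, smul_eq_mul]
        rw [hGx_smul, Pl_smul, cond_C_mul] }
  have hinj : Function.Injective Λ := by
    rw [injective_iff_map_eq_zero]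
    intro x hx
    have hvan : ∀ s : F, s ≠ 0 → ∀ z : Fin c → F, ∀ γ : Fin c →₀ ℕ, (∀ i, γ i < f s z) →
        ∀ i < f s z,
        (Polynomial.taylor s (coeff γ (sh (fun j => Polynomial.C (z j)) (Pl E (Gx x))))).coeff i = 0 := by
      intro s hs z γ' hγ' i hi
      have h1 := congrFun hx ⟨(⟨s, hs⟩, z), (fun j => ⟨γ' j, hγ' j⟩, ⟨i, hi⟩)⟩
      have h2 : (Finsupp.equivFunOnFinite.symm (fun i => γ' i) : Fin c →₀ ℕ) = γ' := by
        ext i; simp
      have h3 : cond s z (Finsupp.equivFunOnFinite.symm (fun i => γ' i)) i (Pl E (Gx x)) = 0 := h1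
      rw [h2] at h3
      exact h3
    have hdeg : ∀ e, (Gx x e).totalDegree ≤ c * e := by
      intro e
      simp only [Gx]
      split_ifs with h
      · apply totalDegree_finsetSum_le
        intro j _
        refine (totalDegree_smul_le _ _).trans ?_
        exact totalDegree_sh_le _ _ _ (hG e j)
      · simp
    have hstep : ∀ e, ∀ h : e < E + 1, (∀ e', e < e' → e' ≤ E → Gx x e' = 0) →
        ∀ j, x ⟨⟨e, h⟩, j⟩ = 0 := by
      intro e h h0 j
      have hj := j.2
      unfold rich at hj
      rw [Finset.mem_filter] at hj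
      have h1 := core hc E e (by omega) (Gx x) (fun e' _ => hdeg e') h0 f hvan
        (b (v e j + w e)) (v e j + w e) hj.2 (γ e j) (hγ e j)
      have h2 : Gx x e = sh (-(w e)) (∑ i : {j : Fin c → Fin (e+1) // v e j + w e ∈ rich f b (c * e)},
          x ⟨⟨e, h⟩, i⟩ • (G e i)) := by
        simp only [Gx]
        rw [dif_pos h, map_sum]
        apply Finset.sum_congr rfl
        intro i _
        rw [map_smul]
      rw [h2, sh_sh, add_neg_cancel_right, map_sum, coeff_sum] at h1
      rw [Finset.sum_eq_single j] at h1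
      · rw [map_smul, coeff_smul, hdual, if_pos rfl] at h1
        simpa using h1
      · intro i _ hij
        rw [map_smul, coeff_smul, hdual, if_neg]
        · simp
        · intro h3
          apply hij
          exact Subtype.ext h3.symm
      · intro h3
        exact absurd (Finset.mem_univ _) h3
    have hall : ∀ n : ℕ, ∀ e, ∀ h : e < E + 1, E - e < n → ∀ j, x ⟨⟨e, h⟩, j⟩ = 0 := by
      intro n
      induction n with
      | zero => intro e h hn; omega
      | succ n ih =>
        intro e h hn
        apply hstep e h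
        intro e' h1 h2
        simp only [Gx]
        rw [dif_pos (by omega)]
        apply Finset.sum_eq_zero
        intro j _
        rw [ih e' (by omega) (by omega) j, zero_smul]
    funext p
    obtain ⟨⟨e, he⟩, j⟩ := p
    exact hall (E + 1) e he (by omega) j
  have := LinearMap.finrank_le_finrank_of_injective hinj
  rw [Module.finrank_fintype_fun_eq_card, Module.finrank_fintype_fun_eq_card] at this
  exact this

theorem count (hc : 1 ≤ c) (E : ℕ) (f : F → (Fin c → F) → ℕ) (b : (Fin c → F) → (Fin c → F)) :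
    ∑ e ∈ Finset.range (E+1), (e+1) ^ c * (rich f b (c * e)).card ≤
      Fintype.card F ^ c * ∑ s ∈ Finset.univ.erase (0:F), ∑ z : Fin c → F, f s z ^ (c + 1) := by
  classical
  have hq : 0 < Fintype.card F := Fintype.card_pos
  have hbox : ∀ e : ℕ, ∃ (v : (Fin c → Fin (e+1)) → (Fin c → F)) (γ : (Fin c → Fin (e+1)) → (Fin c →₀ ℕ))
      (G : (Fin c → Fin (e+1)) → MvPolynomial (Fin c) F),
      (∀ j, (γ j).degree < c * e / Fintype.card F + 1) ∧ (∀ j, (G j).totalDegree ≤ c * e) ∧
      (∀ i j, coeff (γ i) (sh (v i) (G j)) = if i = j then 1 else 0) := by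
    intro e
    apply box_family
    rw [add_mul, one_mul]
    exact Nat.lt_div_mul_add hq
  choose v γ G hγ hG hdual using hbox
  have hsh : ∀ e : ℕ, ∃ w : Fin c → F, Fintype.card (Fin c → Fin (e+1)) * (rich f b (c * e)).card ≤
      (Finset.univ.filter (fun j => v e j + w ∈ rich f b (c * e))).card * Fintype.card (Fin c → F) :=
    fun e => exists_shift (v e) (rich f b (c * e))
  choose w hw using hsh
  have h1 := count_aux hc E f b v γ G hγ hG hdual w
  calc ∑ e ∈ Finset.range (E+1), (e+1) ^ c * (rich f b (c * e)).card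
      ≤ ∑ e ∈ Finset.range (E+1), Fintype.card F ^ c *
        (Finset.univ.filter (fun j => v e j + w e ∈ rich f b (c * e))).card := by
        apply Finset.sum_le_sum
        intro e _
        have := hw e
        simp only [Fintype.card_pi, Fintype.card_fin, Finset.prod_const, Finset.card_univ] at this
        rw [mul_comm (Fintype.card F ^ c)]
        exact this
    _ = Fintype.card F ^ c * ∑ e ∈ Finset.range (E+1),
        (Finset.univ.filter (fun j => v e j + w e ∈ rich f b (c * e))).card := by
        rw [Finset.mul_sum]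
    _ ≤ _ := Nat.mul_le_mul_left _ h1

end Pool.Agent.H822
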