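import Mathlib
import Pool.Agent.H822.Count

set_option autoImplicit false

/-!
# The Kakeya maximal inequality for lines over a finite field
-/

namespace Pool.Agent.H822

lemma pow_succ_le_aux (c K : ℕ) : (K+1)^(c+1) ≤ K^(c+1) + (c+1) * (K+1)^c := by
  induction c with
  | zero => simp
  | succ c ih =>
    calc (K+1)^(c+1+1) = K * (K+1)^(c+1) + (K+1)^(c+1) := by ring
      _ ≤ K * (K^(c+1) + (c+1) * (K+1)^c) + (K+1)^(c+1) := by gcongr
      _ = K^(c+1+1) + ((c+1) * (K * (K+1)^c) + (K+1)^(c+1)) := by ring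
      _ ≤ K^(c+1+1) + ((c+1) * ((K+1) * (K+1)^c) + (K+1)^(c+1)) := by
          gcongr
          exact Nat.le_succ K
      _ = _ := by ring

lemma pow_succ_le_sum (c K : ℕ) : K^(c+1) ≤ (c+1) * ∑ e ∈ Finset.range K, (e+1)^c := by
  induction K with
  | zero => simp
  | succ K ih =>
    rw [Finset.sum_range_succ, mul_add]
    exact (pow_succ_le_aux c K).trans (Nat.add_le_add_right ih _)

variable {F : Type*} [Field F] [Fintype F] [DecidableEq F] {c : ℕ}

theorem kak_nat (hc : 1 ≤ c) (f : F → (Fin c → F) → ℕ) (b : (Fin c → F) → (Fin c → F)) :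
    ∑ v : Fin c → F, (∑ s ∈ Finset.univ.erase (0:F), f s (v + s • b v)) ^ (c+1) ≤
      ((c+1) * (2*c)^(c+1)) * (Fintype.card F ^ c *
        ∑ s ∈ Finset.univ.erase (0:F), ∑ z : Fin c → F, f s z ^ (c + 1)) := by
  classical
  set Φ : (Fin c → F) → ℕ := fun v => ∑ s ∈ Finset.univ.erase (0:F), f s (v + s • b v) with hΦ
  set E := ∑ v, Φ v with hE
  have h0 := count hc E f b
  refine le_trans ?_ (Nat.mul_le_mul_left _ h0)
  have h1 : ∑ e ∈ Finset.range (E+1), (e+1) ^ c * (rich f b (c * e)).card =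
      ∑ v : Fin c → F, ∑ e ∈ (Finset.range (E+1)).filter (fun e => 2 * (c * e) < Φ v), (e+1)^c := by
    have : ∀ e, (e+1) ^ c * (rich f b (c * e)).card =
        ∑ v : Fin c → F, if 2 * (c * e) < Φ v then (e+1)^c else 0 := by
      intro e
      rw [← Finset.sum_filter, Finset.sum_const, smul_eq_mul, mul_comm]
      rfl
    simp_rw [this]
    rw [Finset.sum_comm]
    apply Finset.sum_congr rfl
    intro v _
    rw [Finset.sum_filter]
  rw [h1, Finset.mul_sum]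
  apply Finset.sum_le_sum
  intro v _
  -- K = ceil (Φ v / 2c)
  set K := (Φ v + (2 * c - 1)) / (2 * c) with hK
  have h2c : 0 < 2 * c := by omega
  have hK1 : Φ v ≤ 2 * c * K := by
    have := Nat.div_add_mod (Φ v + (2*c-1)) (2*c)
    have h3 := Nat.mod_lt (Φ v + (2*c-1)) h2c
    rw [← hK] at this
    omega
  have hK2 : ∀ e < K, 2 * (c * e) < Φ v := by
    intro e he
    have h3 : 2 * c * K ≤ Φ v + (2*c-1) := by
      rw [hK]; exact Nat.mul_div_le _ _
    have h4 : 2 * c * (e + 1) ≤ 2 * c * K := Nat.mul_le_mul_left _ he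
    have h5 : 2 * (c * e) + 2 * c = 2 * c * (e+1) := by ring
    omega
  have hsub : Finset.range K ⊆ (Finset.range (E+1)).filter (fun e => 2 * (c * e) < Φ v) := by
    intro e he
    rw [Finset.mem_range] at he
    rw [Finset.mem_filter, Finset.mem_range]
    have h3 := hK2 e he
    refine ⟨?_, h3⟩
    have h4 : Φ v ≤ E := Finset.single_le_sum (f := Φ) (fun _ _ => Nat.zero_le _) (Finset.mem_univ v)
    have h5 : e ≤ 2 * (c * e) := by nlinarith
    omega
  calc Φ v ^ (c+1) ≤ (2 * c * K)^(c+1) := Nat.pow_le_pow_left hK1 _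
    _ = (2*c)^(c+1) * K^(c+1) := by rw [mul_pow]
    _ ≤ (2*c)^(c+1) * ((c+1) * ∑ e ∈ Finset.range K, (e+1)^c) :=
        Nat.mul_le_mul_left _ (pow_succ_le_sum c K)
    _ = ((c+1) * (2*c)^(c+1)) * ∑ e ∈ Finset.range K, (e+1)^c := by ring
    _ ≤ _ := Nat.mul_le_mul_left _ (Finset.sum_le_sum_of_subset hsub)

theorem kak_real (hc : 1 ≤ c) (f : F → (Fin c → F) → ℝ) (hf : ∀ s z, 0 ≤ f s z)
    (b : (Fin c → F) → (Fin c → F)) :
    ∑ v : Fin c → F, (∑ s ∈ Finset.univ.erase (0:F), f s (v + s • b v)) ^ (c+1) ≤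
      (((c:ℝ)+1) * (2*c)^(c+1)) * ((Fintype.card F : ℝ) ^ c *
        ∑ s ∈ Finset.univ.erase (0:F), ∑ z : Fin c → F, f s z ^ (c + 1)) := by
  have hlim : ∀ s z, Filter.Tendsto (fun M : ℝ => (⌊f s z * M⌋₊ : ℝ) / M) Filter.atTop (nhds (f s z)) :=
    fun s z => tendsto_nat_floor_mul_div_atTop (hf s z)
  have h1 : Filter.Tendsto (fun M : ℝ => ∑ v : Fin c → F,
      (∑ s ∈ Finset.univ.erase (0:F), (⌊f s (v + s • b v) * M⌋₊ : ℝ) / M) ^ (c+1)) Filter.atTop
      (nhds (∑ v : Fin c → F, (∑ s ∈ Finset.univ.erase (0:F), f s (v + s • b v)) ^ (c+1))) := by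
    apply tendsto_finsetSum
    intro v _
    apply Filter.Tendsto.pow
    apply tendsto_finsetSum
    intro s _
    exact hlim _ _
  have h2 : Filter.Tendsto (fun M : ℝ => (((c:ℝ)+1) * (2*c)^(c+1)) * ((Fintype.card F : ℝ) ^ c *
        ∑ s ∈ Finset.univ.erase (0:F), ∑ z : Fin c → F, ((⌊f s z * M⌋₊ : ℝ) / M) ^ (c + 1))) Filter.atTop
      (nhds ((((c:ℝ)+1) * (2*c)^(c+1)) * ((Fintype.card F : ℝ) ^ c *
        ∑ s ∈ Finset.univ.erase (0:F), ∑ z : Fin c → F, f s z ^ (c + 1)))) := by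
    apply Filter.Tendsto.const_mul
    apply Filter.Tendsto.const_mul
    apply tendsto_finsetSum
    intro s _
    apply tendsto_finsetSum
    intro z _
    apply Filter.Tendsto.pow
    exact hlim _ _
  apply le_of_tendsto_of_tendsto h1 h2
  filter_upwards [Filter.eventually_gt_atTop (0:ℝ)] with M hM
  have h3 := kak_nat hc (fun s z => ⌊f s z * M⌋₊) b
  have h4 : (∑ v : Fin c → F, (∑ s ∈ Finset.univ.erase (0:F), (⌊f s (v + s • b v) * M⌋₊ : ℝ)) ^ (c+1)) ≤
      (((c:ℝ)+1) * (2*c)^(c+1)) * ((Fintype.card F : ℝ) ^ c *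
        ∑ s ∈ Finset.univ.erase (0:F), ∑ z : Fin c → F, (⌊f s z * M⌋₊ : ℝ) ^ (c + 1)) := by
    exact_mod_cast h3
  have hMn : (0:ℝ) < M ^ (c+1) := by positivity
  have e1 : ∑ v : Fin c → F, (∑ s ∈ Finset.univ.erase (0:F), (⌊f s (v + s • b v) * M⌋₊ : ℝ) / M) ^ (c+1) =
      (∑ v : Fin c → F, (∑ s ∈ Finset.univ.erase (0:F), (⌊f s (v + s • b v) * M⌋₊ : ℝ)) ^ (c+1)) / M^(c+1) := by
    rw [Finset.sum_div]
    apply Finset.sum_congr rfl
    intro v _
    rw [← Finset.sum_div, div_pow]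
  have e2 : (((c:ℝ)+1) * (2*c)^(c+1)) * ((Fintype.card F : ℝ) ^ c *
        ∑ s ∈ Finset.univ.erase (0:F), ∑ z : Fin c → F, ((⌊f s z * M⌋₊ : ℝ) / M) ^ (c + 1)) =
      ((((c:ℝ)+1) * (2*c)^(c+1)) * ((Fintype.card F : ℝ) ^ c *
        ∑ s ∈ Finset.univ.erase (0:F), ∑ z : Fin c → F, (⌊f s z * M⌋₊ : ℝ) ^ (c + 1))) / M^(c+1) := by
    simp_rw [div_pow, ← Finset.sum_div]
    ring
  rw [e1, e2]
  exact div_le_div_of_nonneg_right h4 hMn.le

/-- constant -/
noncomputable def KC (c : ℕ) : ℝ := 2 ^ c * (1 + ((c:ℝ)+1) * (2*c)^(c+1))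

lemma KC_nonneg (c : ℕ) : 0 ≤ KC c := by unfold KC; positivity

/-- chart form with the lines `(t, b v + t v)` -/
theorem kak_chart (hc : 1 ≤ c) (h : F → (Fin c → F) → ℝ) (hh : ∀ s z, 0 ≤ h s z)
    (b : (Fin c → F) → (Fin c → F)) :
    ∑ v : Fin c → F, (∑ t : F, h t (b v + t • v)) ^ (c+1) ≤
      KC c * ((Fintype.card F : ℝ) ^ c * ∑ t : F, ∑ y : Fin c → F, h t y ^ (c + 1)) := by
  set S := ∑ t : F, ∑ y : Fin c → F, h t y ^ (c + 1) with hS
  have hsplit : ∀ v : Fin c → F, ∑ t : F, h t (b v + t • v) =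
      h 0 (b v) + ∑ t ∈ Finset.univ.erase (0:F), h t (b v + t • v) := by
    intro v
    rw [← Finset.add_sum_erase Finset.univ _ (Finset.mem_univ (0:F))]
    simp
  have hinv : ∀ v : Fin c → F, ∑ t ∈ Finset.univ.erase (0:F), h t (b v + t • v) =
      ∑ s ∈ Finset.univ.erase (0:F), h s⁻¹ (s⁻¹ • (v + s • b v)) := by
    intro v
    apply Finset.sum_nbij' (fun t => t⁻¹) (fun t => t⁻¹)
    · intro t ht; simpa using ht
    · intro t ht; simpa using ht
    · intro t _; simp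
    · intro t _; simp
    · intro t ht
      have ht0 : t ≠ 0 := by simpa using ht
      simp only [inv_inv]
      congr 1
      rw [smul_add, smul_smul, mul_inv_cancel₀ ht0, one_smul, add_comm]
  have hinv2 : ∑ s ∈ Finset.univ.erase (0:F), ∑ z : Fin c → F, h s⁻¹ (s⁻¹ • z) ^ (c+1) =
      ∑ t ∈ Finset.univ.erase (0:F), ∑ y : Fin c → F, h t y ^ (c+1) := by
    apply Finset.sum_nbij' (fun t => t⁻¹) (fun t => t⁻¹)
    · intro t ht; simpa using ht
    · intro t ht; simpa using ht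
    · intro t _; simp
    · intro t _; simp
    · intro t ht
      have ht0 : t ≠ 0 := by simpa using ht
      have hti : t⁻¹ ≠ 0 := inv_ne_zero ht0
      exact Fintype.sum_equiv (MulAction.toPerm (Units.mk0 t⁻¹ hti)) _ _ (fun z => rfl)
  have hpart : ∑ v : Fin c → F, (∑ t ∈ Finset.univ.erase (0:F), h t (b v + t • v)) ^ (c+1) ≤
      (((c:ℝ)+1) * (2*c)^(c+1)) * ((Fintype.card F : ℝ) ^ c * S) := by
    simp_rw [hinv]
    refine (kak_real hc (fun s z => h s⁻¹ (s⁻¹ • z)) (fun s z => hh _ _) b).trans ?_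
    rw [hinv2]
    have : ∑ t ∈ Finset.univ.erase (0:F), ∑ y : Fin c → F, h t y ^ (c+1) ≤ S := by
      apply Finset.sum_le_sum_of_subset_of_nonneg (Finset.erase_subset _ _)
      intro t _ _
      exact Finset.sum_nonneg (fun y _ => pow_nonneg (hh _ _) _)
    gcongr
  have hzero : ∑ v : Fin c → F, (h 0 (b v)) ^ (c+1) ≤ (Fintype.card F : ℝ) ^ c * S := by
    have h1 : ∀ v : Fin c → F, (h 0 (b v)) ^ (c+1) ≤ S := by
      intro v
      calc (h 0 (b v)) ^ (c+1) ≤ ∑ y : Fin c → F, h 0 y ^ (c+1) :=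
            Finset.single_le_sum (f := fun y => h 0 y ^ (c+1)) (fun y _ => pow_nonneg (hh _ _) _) (Finset.mem_univ _)
        _ ≤ S := Finset.single_le_sum (f := fun t => ∑ y : Fin c → F, h t y ^ (c+1))
            (fun t _ => Finset.sum_nonneg (fun y _ => pow_nonneg (hh _ _) _)) (Finset.mem_univ _)
    calc ∑ v : Fin c → F, (h 0 (b v)) ^ (c+1) ≤ ∑ _v : Fin c → F, S := Finset.sum_le_sum (fun v _ => h1 v)
      _ = _ := by simp
  calc ∑ v : Fin c → F, (∑ t : F, h t (b v + t • v)) ^ (c+1)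
      ≤ ∑ v : Fin c → F, (2:ℝ)^c * ((h 0 (b v))^(c+1) +
          (∑ t ∈ Finset.univ.erase (0:F), h t (b v + t • v)) ^ (c+1)) := by
        apply Finset.sum_le_sum
        intro v _
        rw [hsplit]
        have := add_pow_le (hh 0 (b v)) (Finset.sum_nonneg (fun t (_ : t ∈ Finset.univ.erase (0:F)) =>
          hh t (b v + t • v))) (c+1)
        simpa using this
    _ = (2:ℝ)^c * (∑ v : Fin c → F, (h 0 (b v))^(c+1) + ∑ v : Fin c → F,
          (∑ t ∈ Finset.univ.erase (0:F), h t (b v + t • v)) ^ (c+1)) := by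
        rw [← Finset.mul_sum, Finset.sum_add_distrib]
    _ ≤ (2:ℝ)^c * ((Fintype.card F : ℝ) ^ c * S +
          (((c:ℝ)+1) * (2*c)^(c+1)) * ((Fintype.card F : ℝ) ^ c * S)) := by
        gcongr
    _ = _ := by unfold KC; ring

end Pool.Agent.H822
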