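import Mathlib
import Pool.Agent.H822.Kak

set_option autoImplicit false

/-!
# Lines in a finite vector space: the Kakeya maximal inequality in invariant form
-/

open Classical in
/-- A finite vector space has finitely many subspaces. -/
noncomputable instance Pool.Agent.H822.fintypeSub {F E : Type*} [Field F] [AddCommGroup E] [Module F E]
    [Fintype E] : Fintype (Submodule F E) :=
  @Fintype.ofFinite _ (Finite.of_injective (fun W : Submodule F E => (W : Set E)) SetLike.coe_injective)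

namespace Pool.Agent.H822

variable {F E : Type*} [Field F] [AddCommGroup E] [Module F E]

open Classical in
/-- the coset `a + W` as a finset -/
noncomputable def cs [Fintype E] (W : Submodule F E) (a : E) : Finset E :=
  Finset.univ.filter (fun x => x - a ∈ W)

open Classical in
/-- subspaces of dimension `k` -/
noncomputable def Gr (F E : Type*) [Field F] [AddCommGroup E] [Module F E] [Fintype E] (k : ℕ) :
    Finset (Submodule F E) :=
  Finset.univ.filter (fun W => Module.finrank F W = k)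

lemma mem_cs [Fintype E] {W : Submodule F E} {a x : E} : x ∈ cs W a ↔ x - a ∈ W := by
  simp [cs]

lemma mem_Gr [Fintype E] {W : Submodule F E} {k : ℕ} : W ∈ Gr F E k ↔ Module.finrank F W = k := by
  simp [Gr]

lemma sum_le_sum_of_surj {α β : Type*} [DecidableEq α] (s : Finset α) (t : Finset β) (φ : α → ℝ)
    (hφ : ∀ a, 0 ≤ φ a) (π : β → α) (h : ∀ a ∈ s, ∃ b ∈ t, π b = a) :
    ∑ a ∈ s, φ a ≤ ∑ b ∈ t, φ (π b) := by
  have h1 : s ⊆ t.image π := by
    intro a ha
    obtain ⟨b, hb, hba⟩ := h a ha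
    exact Finset.mem_image.2 ⟨b, hb, hba⟩
  calc ∑ a ∈ s, φ a ≤ ∑ a ∈ t.image π, φ a :=
        Finset.sum_le_sum_of_subset_of_nonneg h1 (fun a _ _ => hφ a)
    _ ≤ ∑ b ∈ t, φ (π b) := by
        rw [← Finset.sum_fiberwise_of_maps_to (g := π) (t := t.image π)
          (fun b hb => Finset.mem_image_of_mem _ hb)]
        apply Finset.sum_le_sum
        intro a ha
        rw [Finset.mem_image] at ha
        obtain ⟨b, hb, hba⟩ := ha
        calc φ a = φ (π b) := by rw [hba]
          _ ≤ _ := Finset.single_le_sum (f := fun b => φ (π b)) (fun b _ => hφ _)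
            (Finset.mem_filter.2 ⟨hb, hba⟩)

variable {c : ℕ}

/-- coordinates adapted to the index `i` -/
noncomputable def Pi (e : Module.Basis (Fin (c+1)) F E) (i : Fin (c+1)) : F × (Fin c → F) ≃ E :=
  (Fin.insertNthEquiv (fun _ => F) i).trans e.equivFun.symm.toEquiv

lemma Pi_apply (e : Module.Basis (Fin (c+1)) F E) (i : Fin (c+1)) (p : F × (Fin c → F)) :
    Pi e i p = e.equivFun.symm (i.insertNth p.1 p.2) := rfl

lemma insertNth_lin (i : Fin (c+1)) (t r : F) (y v : Fin c → F) :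
    (i.insertNth (t + r) (y + r • v) : Fin (c+1) → F) = i.insertNth t y + r • i.insertNth 1 v := by
  funext j
  refine Fin.succAboveCases i ?_ ?_ j
  · simp
  · intro k; simp

lemma Pi_lin (e : Module.Basis (Fin (c+1)) F E) (i : Fin (c+1)) (t r : F) (y v : Fin c → F) :
    Pi e i (t + r, y + r • v) = Pi e i (t, y) + r • Pi e i (1, v) := by
  simp only [Pi_apply]
  rw [insertNth_lin, map_add, map_smul]

lemma exists_chart (e : Module.Basis (Fin (c+1)) F E) (L : Submodule F E) (hL : Module.finrank F L = 1) :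
    ∃ (i : Fin (c+1)) (v : Fin c → F), Submodule.span F {Pi e i (1, v)} = L := by
  obtain ⟨u, hu, hspan⟩ := finrank_eq_one_iff'.1 hL
  have hu0 : (u : E) ≠ 0 := by
    intro h; apply hu; exact Subtype.ext h
  have hcoord : e.equivFun (u : E) ≠ 0 := by
    intro h; apply hu0; exact (map_eq_zero_iff _ e.equivFun.injective).1 h
  obtain ⟨i, hi⟩ := Function.ne_iff.1 hcoord
  simp only [Pi.zero_apply] at hi
  set w : Fin (c+1) → F := (e.equivFun (u : E) i)⁻¹ • e.equivFun (u : E) with hw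
  have hwi : w i = 1 := by
    rw [hw]; simp only [Pi.smul_apply, smul_eq_mul]; exact inv_mul_cancel₀ hi
  refine ⟨i, fun j => w (i.succAbove j), ?_⟩
  have h1 : Pi e i (1, fun j => w (i.succAbove j)) = (e.equivFun (u : E) i)⁻¹ • (u : E) := by
    rw [Pi_apply]
    have : (i.insertNth (1:F) (fun j => w (i.succAbove j)) : Fin (c+1) → F) = w := by
      funext j
      refine Fin.succAboveCases i ?_ ?_ j
      · simp [hwi]
      · intro k; simp
    simp only
    rw [this, hw, map_smul, LinearEquiv.symm_apply_apply]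
  rw [h1]
  apply le_antisymm
  · rw [Submodule.span_singleton_le_iff_mem]
    exact L.smul_mem _ u.2
  · intro x hx
    obtain ⟨r, hr⟩ := hspan ⟨x, hx⟩
    rw [Submodule.mem_span_singleton]
    refine ⟨r * e.equivFun (u : E) i, ?_⟩
    rw [smul_smul, mul_assoc, mul_inv_cancel₀ hi, mul_one]
    exact congrArg Subtype.val hr

variable [Fintype F] [DecidableEq F] [Fintype E]

lemma sum_cs_chart (e : Module.Basis (Fin (c+1)) F E) (i : Fin (c+1)) (v : Fin c → F) (a : E)
    (g : E → ℝ) :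
    ∑ x ∈ cs (Submodule.span F {Pi e i (1, v)}) a, g x =
      ∑ t : F, g (Pi e i (t, (((Pi e i).symm a).2 - ((Pi e i).symm a).1 • v) + t • v)) := by
  classical
  set t₀ := ((Pi e i).symm a).1 with ht₀
  set y₀ := ((Pi e i).symm a).2 with hy₀
  have ha : a = Pi e i (t₀, y₀) := by
    rw [ht₀, hy₀, Prod.mk.eta, Equiv.apply_symm_apply]
  have hpt : ∀ t : F, Pi e i (t, (y₀ - t₀ • v) + t • v) = a + (t - t₀) • Pi e i (1, v) := by
    intro t
    rw [ha, ← Pi_lin]
    congr 2
    · ring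
    · rw [sub_smul]; abel
  symm
  apply Finset.sum_bij (fun t _ => Pi e i (t, (y₀ - t₀ • v) + t • v))
  · intro t _
    rw [mem_cs, hpt, add_sub_cancel_left]
    exact Submodule.smul_mem _ _ (Submodule.mem_span_singleton_self _)
  · intro t _ t' _ h
    have := (Pi e i).injective h
    exact (Prod.mk.inj this).1
  · intro x hx
    rw [mem_cs, Submodule.mem_span_singleton] at hx
    obtain ⟨r, hr⟩ := hx
    refine ⟨t₀ + r, Finset.mem_univ _, ?_⟩
    rw [hpt, add_sub_cancel_left, hr]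
    abel
  · intro t _; rfl

theorem kak_line (hc : 1 ≤ c) (hE : Module.finrank F E = c + 1) (g : E → ℝ) (hg : ∀ x, 0 ≤ g x)
    (a : Submodule F E → E) :
    ∑ L ∈ Gr F E 1, (∑ x ∈ cs L (a L), g x) ^ (c+1) ≤
      (((c:ℝ)+1) * KC c) * ((Fintype.card F : ℝ) ^ c * ∑ x, g x ^ (c+1)) := by
  classical
  let e : Module.Basis (Fin (c+1)) F E := Module.finBasisOfFinrankEq F E hE
  have h1 := sum_le_sum_of_surj (Gr F E 1) (Finset.univ : Finset (Fin (c+1) × (Fin c → F)))
    (fun L => (∑ x ∈ cs L (a L), g x) ^ (c+1))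
    (fun L => pow_nonneg (Finset.sum_nonneg (fun x _ => hg x)) _)
    (fun p => Submodule.span F {Pi e p.1 (1, p.2)}) (by
      intro L hL
      rw [mem_Gr] at hL
      obtain ⟨i, v, h⟩ := exists_chart e L hL
      exact ⟨(i, v), Finset.mem_univ _, h⟩)
  refine h1.trans ?_
  rw [Fintype.sum_prod_type]
  have h2 : ∀ i : Fin (c+1), ∑ v : Fin c → F,
      (∑ x ∈ cs (Submodule.span F {Pi e i (1, v)}) (a (Submodule.span F {Pi e i (1, v)})), g x) ^ (c+1) ≤
      KC c * ((Fintype.card F : ℝ) ^ c * ∑ x, g x ^ (c+1)) := by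
    intro i
    have h3 := kak_chart hc (fun t y => g (Pi e i (t, y))) (fun t y => hg _)
      (fun v => ((Pi e i).symm (a (Submodule.span F {Pi e i (1, v)}))).2 -
        ((Pi e i).symm (a (Submodule.span F {Pi e i (1, v)}))).1 • v)
    have h4 : ∑ t : F, ∑ y : Fin c → F, g (Pi e i (t, y)) ^ (c+1) = ∑ x, g x ^ (c+1) := by
      rw [← Fintype.sum_prod_type (fun p : F × (Fin c → F) => g (Pi e i p) ^ (c+1))]
      exact Fintype.sum_equiv (Pi e i) _ _ (fun p => rfl)
    rw [h4] at h3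
    refine le_trans (le_of_eq ?_) h3
    apply Finset.sum_congr rfl
    intro v _
    rw [sum_cs_chart]
  calc ∑ i : Fin (c+1), ∑ v : Fin c → F,
      (∑ x ∈ cs (Submodule.span F {Pi e i (1, v)}) (a (Submodule.span F {Pi e i (1, v)})), g x) ^ (c+1)
      ≤ ∑ _i : Fin (c+1), KC c * ((Fintype.card F : ℝ) ^ c * ∑ x, g x ^ (c+1)) :=
        Finset.sum_le_sum (fun i _ => h2 i)
    _ = _ := by
        rw [Finset.sum_const, Finset.card_univ, Fintype.card_fin, nsmul_eq_mul]
        push_cast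
        ring

/-- the version for exponents `n ≥ c+1` -/
theorem kak_line_pow (hc : 1 ≤ c) (hE : Module.finrank F E = c + 1) (n : ℕ) (hn : c + 1 ≤ n)
    (g : E → ℝ) (hg : ∀ x, 0 ≤ g x) (a : Submodule F E → E) :
    ∑ L ∈ Gr F E 1, (∑ x ∈ cs L (a L), g x) ^ n ≤
      (((c:ℝ)+1) * KC c) * ((Fintype.card F : ℝ) ^ (n - 1) * ∑ x, g x ^ n) := by
  classical
  set p : ℝ := (n:ℝ) / (c+1:ℕ) with hp
  have hc0 : (0:ℝ) < (c+1:ℕ) := by positivity
  have hp1 : 1 ≤ p := by
    rw [hp, le_div_iff₀ hc0, one_mul]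
    exact_mod_cast hn
  have h1 := kak_line hc hE (fun x => g x ^ p) (fun x => Real.rpow_nonneg (hg x) _) a
  have hpow : ∀ y : ℝ, 0 ≤ y → (y ^ p) ^ (c+1) = y ^ n := by
    intro y hy
    rw [← Real.rpow_natCast, ← Real.rpow_mul hy, hp, div_mul_cancel₀ _ hc0.ne', Real.rpow_natCast]
  have hcard : ∀ L ∈ Gr F E 1, ∀ a : E, (cs L a).card = Fintype.card F := by
    intro L hL a
    rw [mem_Gr] at hL
    obtain ⟨u, hu, hspan⟩ := finrank_eq_one_iff'.1 hL
    have hu0 : (u : E) ≠ 0 := by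
      intro h; apply hu; exact Subtype.ext h
    symm
    rw [← Finset.card_univ]
    apply Finset.card_bij (fun r _ => a + r • (u:E))
    · intro r _
      rw [mem_cs, add_sub_cancel_left]
      exact L.smul_mem _ u.2
    · intro r _ r' _ h
      have h' := add_left_cancel h
      rw [← sub_eq_zero, ← sub_smul, smul_eq_zero] at h'
      rcases h' with h' | h'
      · exact sub_eq_zero.1 h'
      · exact absurd h' hu0
    · intro x hx
      rw [mem_cs] at hx
      obtain ⟨r, hr⟩ := hspan ⟨x - a, hx⟩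
      refine ⟨r, Finset.mem_univ _, ?_⟩
      have : r • (u:E) = x - a := congrArg Subtype.val hr
      rw [this]; abel
  have h2 : ∀ L ∈ Gr F E 1, (∑ x ∈ cs L (a L), g x) ^ n ≤
      (Fintype.card F : ℝ) ^ (n - (c+1)) * (∑ x ∈ cs L (a L), g x ^ p) ^ (c+1) := by
    intro L hL
    have h3 := Real.rpow_sum_le_const_mul_sum_rpow (cs L (a L)) g hp1
    simp only [abs_of_nonneg (hg _)] at h3
    rw [hcard L hL] at h3
    have h4 : 0 ≤ ∑ x ∈ cs L (a L), g x := Finset.sum_nonneg (fun x _ => hg x)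
    have h5 := pow_le_pow_left₀ (Real.rpow_nonneg h4 p) h3 (c+1)
    rw [hpow _ h4, mul_pow] at h5
    refine h5.trans (le_of_eq ?_)
    congr 1
    rw [← Real.rpow_natCast, ← Real.rpow_mul (Nat.cast_nonneg _), ← Real.rpow_natCast]
    congr 1
    rw [hp, sub_mul, div_mul_cancel₀ _ hc0.ne', one_mul, Nat.cast_sub hn]
  calc ∑ L ∈ Gr F E 1, (∑ x ∈ cs L (a L), g x) ^ n
      ≤ ∑ L ∈ Gr F E 1, (Fintype.card F : ℝ) ^ (n - (c+1)) * (∑ x ∈ cs L (a L), g x ^ p) ^ (c+1) :=
        Finset.sum_le_sum h2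
    _ = (Fintype.card F : ℝ) ^ (n - (c+1)) * ∑ L ∈ Gr F E 1, (∑ x ∈ cs L (a L), g x ^ p) ^ (c+1) := by
        rw [Finset.mul_sum]
    _ ≤ (Fintype.card F : ℝ) ^ (n - (c+1)) * ((((c:ℝ)+1) * KC c) * ((Fintype.card F : ℝ) ^ c *
        ∑ x, (g x ^ p) ^ (c+1))) := by gcongr
    _ = _ := by
        simp_rw [hpow _ (hg _)]
        have : (Fintype.card F : ℝ) ^ (n - 1) = (Fintype.card F : ℝ) ^ (n - (c+1)) * (Fintype.card F : ℝ) ^ c := by
          rw [← pow_add]; congr 1; omega
        rw [this]; ring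

end Pool.Agent.H822
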