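import Mathlib
import Pool.Agent.H822.Line

set_option autoImplicit false

/-!
# Counting subspaces and flags
-/

namespace Pool.Agent.H822

section top

variable {α : Type*} [DecidableEq α]

lemma exists_top (V : Finset α) (g : α → ℝ) (m : ℕ) (hm : m ≤ V.card) :
    ∃ A ⊆ V, A.card = m ∧ ∀ x ∈ A, ∀ y ∈ V, y ∉ A → g y ≤ g x := by
  have hne : (V.powersetCard m).Nonempty := Finset.powersetCard_nonempty.2 hm
  obtain ⟨A, hA, hmax⟩ := Finset.exists_max_image (V.powersetCard m) (fun A => ∑ x ∈ A, g x) hne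
  rw [Finset.mem_powersetCard] at hA
  refine ⟨A, hA.1, hA.2, ?_⟩
  intro x hx y hy hyA
  have hyx : y ∉ A.erase x := fun h => hyA (Finset.mem_of_mem_erase h)
  have h1 : insert y (A.erase x) ∈ V.powersetCard m := by
    rw [Finset.mem_powersetCard]
    refine ⟨?_, ?_⟩
    · apply Finset.insert_subset hy
      exact (Finset.erase_subset _ _).trans hA.1
    · rw [Finset.card_insert_of_notMem hyx, Finset.card_erase_of_mem hx, hA.2]
      have : 0 < A.card := Finset.card_pos.2 ⟨x, hx⟩
      omega
  have h2 := hmax _ h1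
  rw [Finset.sum_insert hyx, ← Finset.add_sum_erase A g hx] at h2
  linarith

lemma top_sum (V A Z : Finset α) (ψ : α → ℝ) (hψ : ∀ x, 0 ≤ ψ x)
    (h : ∀ x ∈ A, ∀ y ∈ V, y ∉ A → ψ y ≤ ψ x) (hZ : Z ⊆ V) (hcard : Z.card ≤ A.card) :
    ∑ x ∈ Z, ψ x ≤ ∑ x ∈ A, ψ x := by
  have h1 : (Z \ A).card ≤ (A \ Z).card := by
    have e1 := Finset.card_sdiff_add_card_inter Z A
    have e2 := Finset.card_sdiff_add_card_inter A Z
    rw [Finset.inter_comm] at e2
    omega
  have h2 : ∑ x ∈ Z \ A, ψ x ≤ ∑ x ∈ A \ Z, ψ x := by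
    rcases Finset.eq_empty_or_nonempty (Z \ A) with he | hne
    · rw [he, Finset.sum_empty]
      exact Finset.sum_nonneg (fun x _ => hψ x)
    · obtain ⟨y, hy, hmax⟩ := Finset.exists_max_image (Z \ A) ψ hne
      rw [Finset.mem_sdiff] at hy
      calc ∑ x ∈ Z \ A, ψ x ≤ ∑ _x ∈ Z \ A, ψ y := Finset.sum_le_sum hmax
        _ = ((Z \ A).card : ℝ) * ψ y := by rw [Finset.sum_const, nsmul_eq_mul]
        _ ≤ ((A \ Z).card : ℝ) * ψ y := by
            apply mul_le_mul_of_nonneg_right _ (hψ y)
            exact_mod_cast h1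
        _ = ∑ _x ∈ A \ Z, ψ y := by rw [Finset.sum_const, nsmul_eq_mul]
        _ ≤ ∑ x ∈ A \ Z, ψ x := by
            apply Finset.sum_le_sum
            intro x hx
            rw [Finset.mem_sdiff] at hx
            exact h x hx.1 y (hZ hy.1) hy.2
  rw [← Finset.sum_inter_add_sum_sdiff Z A ψ, ← Finset.sum_inter_add_sum_sdiff A Z ψ, Finset.inter_comm A Z]
  linarith

end top

variable {F E : Type*} [Field F] [Fintype F] [AddCommGroup E] [Module F E] [Fintype E]

lemma card_cs (W : Submodule F E) (a : E) :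
    (cs W a).card = Fintype.card F ^ Module.finrank F W := by
  classical
  have h1 : (cs W a).card = Fintype.card W := by
    rw [← Finset.card_univ]
    symm
    apply Finset.card_bij (fun (w : W) _ => a + (w : E))
    · intro w _
      rw [mem_cs, add_sub_cancel_left]; exact w.2
    · intro w _ w' _ h
      exact Subtype.ext (add_left_cancel h)
    · intro x hx
      rw [mem_cs] at hx
      exact ⟨⟨x - a, hx⟩, Finset.mem_univ _, by simp⟩
  rw [h1]
  exact Module.card_eq_pow_finrank

lemma card_Gr_congr {E' : Type*} [AddCommGroup E'] [Module F E'] [Fintype E']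
    (h : Module.finrank F E = Module.finrank F E') (j : ℕ) :
    (Gr F E j).card = (Gr F E' j).card := by
  classical
  let e : E ≃ₗ[F] E' := LinearEquiv.ofFinrankEq E E' h
  refine Finset.card_bij' (fun W _ => W.map (e : E →ₗ[F] E')) (fun W _ => W.map (e.symm : E' →ₗ[F] E))
    ?_ ?_ ?_ ?_
  · intro W hW
    rw [mem_Gr] at hW ⊢
    rw [LinearEquiv.finrank_map_eq, hW]
  · intro W hW
    rw [mem_Gr] at hW ⊢
    rw [LinearEquiv.finrank_map_eq, hW]
  · intro W _
    ext x; simp
  · intro W _
    ext x; simp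

lemma finrank_map_mkQ (τ W : Submodule F E) (h : τ ≤ W) :
    Module.finrank F (W.map τ.mkQ) + Module.finrank F τ = Module.finrank F W := by
  have h1 := LinearMap.finrank_range_add_finrank_ker (τ.mkQ ∘ₗ W.subtype)
  have h2 : LinearMap.range (τ.mkQ ∘ₗ W.subtype) = W.map τ.mkQ := by
    rw [LinearMap.range_comp, Submodule.range_subtype]
  have h3 : LinearMap.ker (τ.mkQ ∘ₗ W.subtype) = Submodule.comap W.subtype τ := by
    rw [LinearMap.ker_comp, Submodule.ker_mkQ]
  rw [h2, h3, (Submodule.comapSubtypeEquivOfLe h).finrank_eq] at h1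
  exact h1

noncomputable instance quotFintype (τ : Submodule F E) : Fintype (E ⧸ τ) :=
  @Fintype.ofFinite _ (Finite.of_surjective _ (Submodule.mkQ_surjective τ))

lemma sum_Gr_ge {M : Type*} [AddCommMonoid M] (τ : Submodule F E) (j m : ℕ) (hτ : Module.finrank F τ = j)
    [DecidablePred fun W : Submodule F E => τ ≤ W] (Φ : Submodule F E → M) :
    ∑ W ∈ (Gr F E (m + j)).filter (fun W => τ ≤ W), Φ W =
      ∑ W' ∈ Gr F (E ⧸ τ) m, Φ (W'.comap τ.mkQ) := by
  classical
  have hle : ∀ W' : Submodule F (E ⧸ τ), τ ≤ W'.comap τ.mkQ := by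
    intro W' x hx
    rw [Submodule.mem_comap]
    have : τ.mkQ x = 0 := by simpa using hx
    rw [this]; exact W'.zero_mem
  apply Finset.sum_nbij' (fun W => W.map τ.mkQ) (fun W' => W'.comap τ.mkQ)
  · intro W hW
    rw [Finset.mem_filter, mem_Gr] at hW
    rw [mem_Gr]
    have := finrank_map_mkQ τ W hW.2
    omega
  · intro W' hW'
    rw [mem_Gr] at hW'
    rw [Finset.mem_filter, mem_Gr]
    refine ⟨?_, hle W'⟩
    have := finrank_map_mkQ τ (W'.comap τ.mkQ) (hle W')
    rw [Submodule.map_comap_eq_of_surjective (Submodule.mkQ_surjective τ)] at this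
    omega
  · intro W hW
    rw [Finset.mem_filter] at hW
    rw [Submodule.comap_map_mkQ]
    exact sup_eq_right.2 hW.2
  · intro W' _
    exact Submodule.map_comap_eq_of_surjective (Submodule.mkQ_surjective τ) W'
  · intro W hW
    rw [Finset.mem_filter] at hW
    rw [Submodule.comap_map_mkQ, sup_eq_right.2 hW.2]

noncomputable instance subFintype (W : Submodule F E) : Fintype W := Fintype.ofFinite W

lemma card_Gr_le (W : Submodule F E) (j : ℕ) [DecidablePred fun τ : Submodule F E => τ ≤ W] :
    ((Gr F E j).filter (fun τ => τ ≤ W)).card = (Gr F W j).card := by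
  classical
  refine Finset.card_bij' (fun τ _ => τ.comap W.subtype) (fun τ _ => τ.map W.subtype) ?_ ?_ ?_ ?_
  · intro τ hτ
    rw [Finset.mem_filter, mem_Gr] at hτ
    rw [mem_Gr, (Submodule.comapSubtypeEquivOfLe hτ.2).finrank_eq, hτ.1]
  · intro τ hτ
    rw [mem_Gr] at hτ
    rw [Finset.mem_filter, mem_Gr]
    refine ⟨?_, Submodule.map_subtype_le _ _⟩
    rw [← hτ]
    exact (Submodule.equivMapOfInjective W.subtype W.injective_subtype τ).finrank_eq.symm
  · intro τ hτ
    rw [Finset.mem_filter] at hτ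
    rw [Submodule.map_comap_subtype]
    exact inf_eq_right.2 hτ.2
  · intro τ _
    exact Submodule.comap_map_eq_of_injective W.injective_subtype τ

/-- The number of `j`-dimensional subspaces of an `n`-dimensional space. -/
noncomputable def gn (F : Type*) [Field F] [Fintype F] (n j : ℕ) : ℕ := (Gr F (Fin n → F) j).card

lemma card_Gr (n j : ℕ) (h : Module.finrank F E = n) : (Gr F E j).card = gn F n j := by
  classical
  unfold gn
  apply card_Gr_congr
  rw [h]; simp

/-- double counting of flags -/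
lemma gn_flag (n k j : ℕ) (hjk : j ≤ k) (hn : Module.finrank F E = n) :
    gn F n k * gn F k j = gn F n j * gn F (n - j) (k - j) := by
  classical
  have h1 : ∑ W ∈ Gr F E k, ((Gr F E j).filter (fun τ => τ ≤ W)).card = gn F n k * gn F k j := by
    rw [← card_Gr n k hn, Finset.sum_const_nat]
    intro W hW
    rw [mem_Gr] at hW
    rw [card_Gr_le, card_Gr k j hW]
  have h2 : ∑ τ ∈ Gr F E j, ((Gr F E k).filter (fun W => τ ≤ W)).card = gn F n j * gn F (n - j) (k - j) := by
    rw [← card_Gr n j hn, Finset.sum_const_nat]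
    intro τ hτ
    rw [mem_Gr] at hτ
    have h3 := sum_Gr_ge τ j (k - j) hτ (fun _ => 1)
    rw [Nat.sub_add_cancel hjk] at h3
    rw [Finset.card_eq_sum_ones, h3, ← Finset.card_eq_sum_ones]
    apply card_Gr
    have := Submodule.finrank_quotient_add_finrank τ
    omega
  rw [← h1, ← h2]
  simp_rw [Finset.card_filter]
  rw [Finset.sum_comm]

lemma gn_lower (j m : ℕ) : Fintype.card F ^ (j * m) ≤ gn F (j + m) j := by
  classical
  have h0 : Module.finrank F ((Fin j → F) × (Fin m → F)) = j + m := by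
    rw [Module.finrank_prod]; simp
  rw [← card_Gr (E := (Fin j → F) × (Fin m → F)) (j + m) j h0]
  let φ : (Fin j → (Fin m → F)) → ((Fin j → F) →ₗ[F] (Fin m → F)) :=
    fun M => (Pi.basisFun F (Fin j)).constr F M
  have h1 : Fintype.card (Fin j → (Fin m → F)) = Fintype.card F ^ (j * m) := by
    simp only [Fintype.card_pi, Finset.prod_const, Finset.card_univ, Fintype.card_fin]
    rw [← pow_mul, mul_comm]
  rw [← h1, ← Finset.card_univ]
  apply Finset.card_le_card_of_injOn (fun M => LinearMap.range (LinearMap.id.prod (φ M)))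
  · intro M _
    simp only [Finset.mem_coe]
    rw [mem_Gr]
    rw [LinearMap.finrank_range_of_inj]
    · simp
    · intro x y hxy
      exact (Prod.mk.inj hxy).1
  · intro M _ M' _ h
    simp only at h
    have h2 : ∀ x, φ M x = φ M' x := by
      intro x
      have hx : (x, φ M x) ∈ LinearMap.range (LinearMap.id.prod (φ M)) := ⟨x, rfl⟩
      rw [h] at hx
      obtain ⟨y, hy⟩ := hx
      have h3 := (Prod.mk.inj hy).1
      have h4 := (Prod.mk.inj hy).2
      simp only [LinearMap.id_coe, id_eq] at h3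
      rw [h3] at h4
      exact h4.symm
    funext i
    have h5 := h2 (Pi.basisFun F (Fin j) i)
    simpa [φ, Module.Basis.constr_basis] using h5

end Pool.Agent.H822
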