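import Mathlib
import Pool.Agent.H822.Grass

set_option autoImplicit false

/-!
# The sparse part
-/

namespace Pool.Agent.H822

/-- The bound for `k`-planes in codimension `c`, written for `g` with `f = g^s`. -/
def Bd (c k s : ℕ) (C : ℝ) : Prop :=
  ∀ (F : Type) [Field F] [Fintype F] (E : Type) [AddCommGroup E] [Module F E] [Fintype E],
    Module.finrank F E = c + k → ∀ g : E → ℝ, (∀ x, 0 ≤ g x) → ∀ a : Submodule F E → E,
      ∑ W ∈ Gr F E k, (∑ x ∈ cs W (a W), g x ^ s) ^ (c + s) ≤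
        C * ((Gr F E k).card : ℝ) * (∑ x, g x ^ (c + s)) ^ s

lemma power_mean {α : Type*} (s : Finset α) (f : α → ℝ) (hf : ∀ i ∈ s, 0 ≤ f i) (n : ℕ) (hn : 1 ≤ n)
    (N : ℕ) (hN : s.card = N) :
    (∑ i ∈ s, f i) ^ n ≤ (N:ℝ) ^ (n-1) * ∑ i ∈ s, f i ^ n := by
  subst hN
  rcases Finset.eq_empty_or_nonempty s with he | hne
  · subst he
    rw [Finset.sum_empty, zero_pow (by omega)]
    simp
  · obtain ⟨m, rfl⟩ : ∃ m, n = m + 1 := ⟨n - 1, by omega⟩
    have h := pow_sum_div_card_le_sum_pow (s := s) (f := f) hf m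
    have hpos : (0:ℝ) < (s.card : ℝ) ^ m := by
      have : 0 < s.card := Finset.card_pos.2 hne
      positivity
    rw [div_le_iff₀ hpos] at h
    rw [Nat.add_sub_cancel, mul_comm]
    exact h

variable {F E : Type*} [Field F] [Fintype F] [AddCommGroup E] [Module F E] [Fintype E]

open Classical in
/-- the `ℓ^n` norm of `g` on the fibres of the quotient map -/
noncomputable def gq (n : ℕ) (g : E → ℝ) (u : Submodule F E) (y : E ⧸ u) : ℝ :=
  (∑ x ∈ Finset.univ.filter (fun x => u.mkQ x = y), g x ^ n) ^ ((n:ℝ)⁻¹)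

lemma gq_nonneg (n : ℕ) (g : E → ℝ) (hg : ∀ x, 0 ≤ g x) (u : Submodule F E) (y : E ⧸ u) :
    0 ≤ gq n g u y :=
  Real.rpow_nonneg (Finset.sum_nonneg (fun x _ => pow_nonneg (hg x) _)) _

open Classical in
lemma gq_pow (n : ℕ) (hn : n ≠ 0) (g : E → ℝ) (hg : ∀ x, 0 ≤ g x) (u : Submodule F E) (y : E ⧸ u) :
    gq n g u y ^ n = ∑ x ∈ Finset.univ.filter (fun x => u.mkQ x = y), g x ^ n := by
  unfold gq
  exact Real.rpow_inv_natCast_pow (Finset.sum_nonneg (fun x _ => pow_nonneg (hg x) _)) hn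

lemma le_gq (n : ℕ) (hn : n ≠ 0) (g : E → ℝ) (hg : ∀ x, 0 ≤ g x) (u : Submodule F E) (x : E) :
    g x ≤ gq n g u (u.mkQ x) := by
  classical
  have h : g x ^ n ≤ gq n g u (u.mkQ x) ^ n := by
    rw [gq_pow n hn g hg]
    exact Finset.single_le_sum (f := fun x => g x ^ n) (fun x _ => pow_nonneg (hg x) _)
      (Finset.mem_filter.2 ⟨Finset.mem_univ _, rfl⟩)
  exact le_of_pow_le_pow_left₀ hn (gq_nonneg n g hg u _) h

lemma sum_gq (n : ℕ) (hn : n ≠ 0) (g : E → ℝ) (hg : ∀ x, 0 ≤ g x) (u : Submodule F E)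
    [Fintype (E ⧸ u)] :
    ∑ y : E ⧸ u, gq n g u y ^ n = ∑ x, g x ^ n := by
  classical
  simp_rw [gq_pow n hn g hg]
  exact Finset.sum_fiberwise_of_maps_to (fun x _ => Finset.mem_univ _) _

/-- For a set `A` of at most `(q^κ+1)/2` points of `a + W`, the projections along the lines of `W`
are nearly injective on `A` on average. -/
lemma sparse_point (κ n : ℕ) (hn : n ≠ 0) (W : Submodule F E) (hW : Module.finrank F W = κ + 1) (a : E)
    (g : E → ℝ) (hg : ∀ x, 0 ≤ g x) (A : Finset E) (hA : A ⊆ cs W a)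
    (hAc : A.card ≤ (Fintype.card F ^ κ + 1) / 2) [DecidablePred fun u : Submodule F E => u ≤ W]
    [∀ u : Submodule F E, Fintype (E ⧸ u)] :
    (gn F (κ + 1) 1 : ℝ) * ∑ x ∈ A, g x ^ (κ+1) ≤
      2 * ∑ u ∈ (Gr F E 1).filter (fun u => u ≤ W),
        ∑ y ∈ cs (W.map u.mkQ) (u.mkQ a), gq n g u y ^ (κ+1) := by
  classical
  set U := (Gr F E 1).filter (fun u => u ≤ W) with hU
  have hUcard : U.card = gn F (κ+1) 1 := by
    rw [hU, card_Gr_le, card_Gr (κ+1) 1 hW]
  have hlow : Fintype.card F ^ κ ≤ gn F (κ+1) 1 := by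
    have := gn_lower (F := F) 1 κ
    rw [one_mul, add_comm 1 κ] at this
    exact this
  -- isolated points
  let I : Submodule F E → Finset E := fun u => A.filter (fun x => ∀ x' ∈ A, x' ≠ x → x - x' ∉ u)
  have hI : ∀ u ∈ U, ∑ x ∈ I u, g x ^ (κ+1) ≤ ∑ y ∈ cs (W.map u.mkQ) (u.mkQ a), gq n g u y ^ (κ+1) := by
    intro u hu
    have hinj : Set.InjOn u.mkQ (I u : Set E) := by
      intro x hx x' hx' h
      by_contra hne
      simp only [I, Finset.coe_filter, Set.mem_setOf_eq] at hx hx'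
      apply hx.2 x' hx'.1 (Ne.symm hne)
      rw [← Submodule.ker_mkQ u, LinearMap.mem_ker, map_sub, h, sub_self]
    calc ∑ x ∈ I u, g x ^ (κ+1) ≤ ∑ x ∈ I u, gq n g u (u.mkQ x) ^ (κ+1) := by
          apply Finset.sum_le_sum
          intro x _
          exact pow_le_pow_left₀ (hg x) (le_gq n hn g hg u x) _
      _ = ∑ y ∈ (I u).image u.mkQ, gq n g u y ^ (κ+1) := by
          rw [Finset.sum_image hinj]
      _ ≤ _ := by
          apply Finset.sum_le_sum_of_subset_of_nonneg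
          · intro y hy
            rw [Finset.mem_image] at hy
            obtain ⟨x, hx, rfl⟩ := hy
            have hxA : x ∈ A := Finset.mem_of_mem_filter x hx
            have hxV := hA hxA
            rw [mem_cs] at hxV ⊢
            rw [← map_sub]
            exact Submodule.mem_map_of_mem hxV
          · intro y _ _
            exact pow_nonneg (gq_nonneg n g hg u y) _
  have hcount : ∀ x ∈ A, gn F (κ+1) 1 ≤ 2 * (U.filter (fun u => x ∈ I u)).card := by
    intro x hx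
    have h1 : (U.filter (fun u => x ∉ I u)).card ≤ A.card - 1 := by
      rw [← Finset.card_erase_of_mem hx]
      calc (U.filter (fun u => x ∉ I u)).card ≤ ((A.erase x).image (fun x' => Submodule.span F {x - x'})).card := by
            apply Finset.card_le_card
            intro u hu
            rw [Finset.mem_filter, hU, Finset.mem_filter, mem_Gr] at hu
            obtain ⟨⟨hu1, huW⟩, hu2⟩ := hu
            simp only [I, Finset.mem_filter, hx, true_and] at hu2
            push Not at hu2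
            obtain ⟨x', hx', hne, hmem⟩ := hu2
            rw [Finset.mem_image]
            refine ⟨x', Finset.mem_erase.2 ⟨hne, hx'⟩, ?_⟩
            have hle : Submodule.span F {x - x'} ≤ u := by
              rw [Submodule.span_singleton_le_iff_mem]; exact hmem
            apply Submodule.eq_of_le_of_finrank_eq hle
            rw [hu1, finrank_span_singleton (sub_ne_zero.2 (Ne.symm hne))]
        _ ≤ (A.erase x).card := Finset.card_image_le
    have h2 := Finset.card_filter_add_card_filter_not (s := U) (fun u => x ∈ I u)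
    have h3 : 0 < A.card := Finset.card_pos.2 ⟨x, hx⟩
    rw [hUcard] at h2
    omega
  have hswap : ∑ u ∈ U, ∑ x ∈ I u, g x ^ (κ+1) = ∑ x ∈ A, ((U.filter (fun u => x ∈ I u)).card : ℝ) * g x ^ (κ+1) := by
    have h1 : ∀ u, ∑ x ∈ I u, g x ^ (κ+1) = ∑ x ∈ A, if x ∈ I u then g x ^ (κ+1) else 0 := by
      intro u
      rw [← Finset.sum_filter]
      apply Finset.sum_congr _ (fun _ _ => rfl)
      ext x
      simp only [I, Finset.mem_filter]
      tauto
    simp_rw [h1]
    rw [Finset.sum_comm]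
    apply Finset.sum_congr rfl
    intro x _
    rw [← Finset.sum_filter, Finset.sum_const, nsmul_eq_mul]
  calc (gn F (κ + 1) 1 : ℝ) * ∑ x ∈ A, g x ^ (κ+1)
      = ∑ x ∈ A, (gn F (κ + 1) 1 : ℝ) * g x ^ (κ+1) := by rw [Finset.mul_sum]
    _ ≤ ∑ x ∈ A, (2 * ((U.filter (fun u => x ∈ I u)).card : ℝ)) * g x ^ (κ+1) := by
        apply Finset.sum_le_sum
        intro x hx
        apply mul_le_mul_of_nonneg_right _ (pow_nonneg (hg x) _)
        exact_mod_cast hcount x hx
    _ = 2 * ∑ u ∈ U, ∑ x ∈ I u, g x ^ (κ+1) := by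
        rw [hswap, Finset.mul_sum]
        apply Finset.sum_congr rfl
        intro x _
        ring
    _ ≤ _ := by
        apply mul_le_mul_of_nonneg_left _ (by norm_num)
        exact Finset.sum_le_sum hI

/-- The sparse part of the `k`-plane maximal function is bounded by induction. -/
lemma sparse_bound (c κ : ℕ) (C' : ℝ) (hC' : 0 ≤ C') (hB : Bd c κ (κ+1) C')
    (F : Type) [Field F] [Fintype F] (E : Type) [AddCommGroup E] [Module F E] [Fintype E]
    (hE : Module.finrank F E = c + (κ + 1)) (g : E → ℝ) (hg : ∀ x, 0 ≤ g x) (a : Submodule F E → E)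
    (A : Submodule F E → Finset E) (hA : ∀ W ∈ Gr F E (κ+1), A W ⊆ cs W (a W))
    (hAc : ∀ W ∈ Gr F E (κ+1), (A W).card ≤ (Fintype.card F ^ κ + 1) / 2) :
    ∑ W ∈ Gr F E (κ+1), (∑ x ∈ A W, g x ^ (κ+1)) ^ (c + (κ+1)) ≤
      2 ^ (c + (κ+1)) * C' * ((Gr F E (κ+1)).card : ℝ) * (∑ x, g x ^ (c + (κ+1))) ^ (κ+1) := by
  classical
  set n := c + (κ+1) with hn
  have hn0 : n ≠ 0 := by omega
  set N := gn F (κ+1) 1 with hN
  have hNpos : 0 < N := by
    have h1 := gn_lower (F := F) 1 κ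
    rw [one_mul, add_comm 1 κ] at h1
    have h2 : 0 < Fintype.card F ^ κ := pow_pos Fintype.card_pos _
    omega
  have hNr : (0:ℝ) < N := by exact_mod_cast hNpos
  let M : Submodule F E → Submodule F E → ℝ := fun u W =>
    ∑ y ∈ cs (W.map u.mkQ) (u.mkQ (a W)), gq n g u y ^ (κ+1)
  have hM0 : ∀ u W, 0 ≤ M u W := fun u W =>
    Finset.sum_nonneg (fun y _ => pow_nonneg (gq_nonneg n g hg u y) _)
  have h1 : ∀ W ∈ Gr F E (κ+1), (∑ x ∈ A W, g x ^ (κ+1)) ^ n ≤
      (2 ^ n / N) * ∑ u ∈ (Gr F E 1).filter (fun u => u ≤ W), (M u W) ^ n := by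
    intro W hW
    have hW' := mem_Gr.1 hW
    have h2 := sparse_point κ n hn0 W hW' (a W) g hg (A W) (hA W hW) (hAc W hW)
    have hcard : ((Gr F E 1).filter (fun u => u ≤ W)).card = N := by
      rw [card_Gr_le, card_Gr (κ+1) 1 hW']
    have h3 : ∑ x ∈ A W, g x ^ (κ+1) ≤ (2 / N) * ∑ u ∈ (Gr F E 1).filter (fun u => u ≤ W), M u W := by
      rw [div_mul_eq_mul_div, le_div_iff₀ hNr, mul_comm]
      exact h2
    have h4 := pow_le_pow_left₀ (Finset.sum_nonneg (fun x _ => pow_nonneg (hg x) _)) h3 n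
    refine h4.trans ?_
    rw [mul_pow]
    have h5 := power_mean ((Gr F E 1).filter (fun u => u ≤ W)) (fun u => M u W) (fun u _ => hM0 u W) n
      (by omega) N hcard
    calc (2 / (N:ℝ)) ^ n * (∑ u ∈ (Gr F E 1).filter (fun u => u ≤ W), M u W) ^ n
        ≤ (2 / (N:ℝ)) ^ n * ((N:ℝ) ^ (n-1) * ∑ u ∈ (Gr F E 1).filter (fun u => u ≤ W), (M u W) ^ n) := by
          gcongr
      _ = _ := by
          rw [div_pow, ← mul_assoc]
          congr 1
          have : (N:ℝ) ^ n = (N:ℝ)^(n-1) * N := by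
            rw [← pow_succ]; congr 1
          rw [this]
          field_simp
  have h2 : ∀ u ∈ Gr F E 1, ∑ W ∈ (Gr F E (κ+1)).filter (fun W => u ≤ W), (M u W) ^ n ≤
      C' * (gn F (c + κ) κ : ℝ) * (∑ x, g x ^ n) ^ (κ+1) := by
    intro u hu
    have hu' := mem_Gr.1 hu
    rw [sum_Gr_ge u 1 κ hu' (fun W => (M u W) ^ n)]
    have hq : Module.finrank F (E ⧸ u) = c + κ := by
      have := Submodule.finrank_quotient_add_finrank u
      omega
    have h3 := hB F (E ⧸ u) hq (gq n g u) (gq_nonneg n g hg u)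
      (fun W' => u.mkQ (a (W'.comap u.mkQ)))
    rw [card_Gr (c+κ) κ hq, ← hn, sum_gq n hn0 g hg u] at h3
    refine le_trans (le_of_eq ?_) h3
    apply Finset.sum_congr rfl
    intro W' _
    simp only [M]
    rw [Submodule.map_comap_eq_of_surjective (Submodule.mkQ_surjective u)]
  have hflag := gn_flag (F := F) (E := E) n (κ+1) 1 (by omega) hE
  have hsub : n - 1 = c + κ := by omega
  rw [hsub, Nat.add_sub_cancel] at hflag
  have hflag' : (gn F n (κ+1) : ℝ) * N = gn F n 1 * gn F (c+κ) κ := by exact_mod_cast hflag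
  calc ∑ W ∈ Gr F E (κ+1), (∑ x ∈ A W, g x ^ (κ+1)) ^ n
      ≤ ∑ W ∈ Gr F E (κ+1), (2 ^ n / N) * ∑ u ∈ (Gr F E 1).filter (fun u => u ≤ W), (M u W) ^ n :=
        Finset.sum_le_sum h1
    _ = (2 ^ n / N) * ∑ u ∈ Gr F E 1, ∑ W ∈ (Gr F E (κ+1)).filter (fun W => u ≤ W), (M u W) ^ n := by
        rw [← Finset.mul_sum]
        congr 1
        simp_rw [Finset.sum_filter]
        rw [Finset.sum_comm]
    _ ≤ (2 ^ n / N) * ∑ u ∈ Gr F E 1, C' * (gn F (c + κ) κ : ℝ) * (∑ x, g x ^ n) ^ (κ+1) := by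
        gcongr with u hu
        exact h2 u hu
    _ = (2 ^ n / N) * (gn F n 1 * gn F (c+κ) κ) * C' * (∑ x, g x ^ n) ^ (κ+1) := by
        rw [Finset.sum_const, nsmul_eq_mul, card_Gr n 1 hE]
        ring
    _ = 2 ^ n * C' * (gn F n (κ+1) : ℝ) * (∑ x, g x ^ n) ^ (κ+1) := by
        rw [← hflag']
        field_simp
    _ = _ := by rw [card_Gr n (κ+1) hE]

end Pool.Agent.H822
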