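import Mathlib
import Pool.Agent.H822.Sparse

set_option autoImplicit false

/-!
# The dense part
-/

namespace Pool.Agent.H822

lemma holder_pow {α : Type*} (s : Finset α) (g : α → ℝ) (hg : ∀ x, 0 ≤ g x) (k n : ℕ) (hk : 1 ≤ k)
    (hkn : k ≤ n) (N : ℕ) (hN : s.card ≤ N) :
    (∑ x ∈ s, g x ^ k) ^ n ≤ (N:ℝ) ^ (n - k) * (∑ x ∈ s, g x ^ n) ^ k := by
  have hk0 : (0:ℝ) < (k:ℝ) := by exact_mod_cast hk
  set p : ℝ := (n:ℝ) / k with hp
  have hp1 : 1 ≤ p := by
    rw [hp, le_div_iff₀ hk0, one_mul]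
    exact_mod_cast hkn
  have h3 := Real.rpow_sum_le_const_mul_sum_rpow s (fun x => g x ^ k) hp1
  have habs : ∀ x, |g x ^ k| = g x ^ k := fun x => abs_of_nonneg (pow_nonneg (hg x) _)
  simp only [habs] at h3
  have h4 : 0 ≤ ∑ x ∈ s, g x ^ k := Finset.sum_nonneg (fun x _ => pow_nonneg (hg x) _)
  have h5 := pow_le_pow_left₀ (Real.rpow_nonneg h4 p) h3 k
  have hpow : ∀ y : ℝ, 0 ≤ y → (y ^ p) ^ k = y ^ n := by
    intro y hy
    rw [← Real.rpow_natCast, ← Real.rpow_mul hy, hp, div_mul_cancel₀ _ hk0.ne', Real.rpow_natCast]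
  have hpow2 : ∀ x, (g x ^ k) ^ p = g x ^ n := by
    intro x
    rw [← Real.rpow_natCast (g x) k, ← Real.rpow_mul (hg x), hp, mul_div_cancel₀ _ hk0.ne',
      Real.rpow_natCast]
  rw [hpow _ h4, mul_pow] at h5
  simp only [hpow2] at h5
  refine h5.trans ?_
  apply mul_le_mul_of_nonneg_right _ (pow_nonneg (Finset.sum_nonneg (fun x _ => pow_nonneg (hg x) _)) _)
  have h6 : ((s.card : ℝ) ^ (p - 1)) ^ k = (s.card : ℝ) ^ (n - k) := by
    rw [← Real.rpow_natCast, ← Real.rpow_mul (Nat.cast_nonneg _), ← Real.rpow_natCast]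
    congr 1
    rw [hp, sub_mul, div_mul_cancel₀ _ hk0.ne', one_mul, Nat.cast_sub hkn]
  rw [h6]
  apply pow_le_pow_left₀ (Nat.cast_nonneg _)
  exact_mod_cast hN

variable {F E : Type*} [Field F] [Fintype F] [AddCommGroup E] [Module F E] [Fintype E]

open Classical in
/-- the fibre of the quotient map -/
noncomputable def fib (τ : Submodule F E) (y : E ⧸ τ) : Finset E :=
  Finset.univ.filter (fun x => τ.mkQ x = y)

omit [Fintype F] in
lemma mem_fib {τ : Submodule F E} {y : E ⧸ τ} {x : E} : x ∈ fib τ y ↔ τ.mkQ x = y := by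
  simp only [fib, Finset.mem_filter, Finset.mem_univ, true_and]

lemma fib_eq_cs (τ : Submodule F E) (x : E) : fib τ (τ.mkQ x) = cs τ x := by
  ext x'
  rw [mem_fib, mem_cs, ← sub_eq_zero, ← map_sub]
  exact Submodule.Quotient.mk_eq_zero τ

lemma card_fib (τ : Submodule F E) (y : E ⧸ τ) :
    (fib τ y).card = Fintype.card F ^ Module.finrank F τ := by
  obtain ⟨x, rfl⟩ := Submodule.mkQ_surjective τ y
  rw [fib_eq_cs, card_cs]

open Classical in
/-- the `m` points of the fibre with the largest values of `g` -/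
noncomputable def Bt (m : ℕ) (g : E → ℝ) (τ : Submodule F E) (y : E ⧸ τ) : Finset E :=
  if h : m ≤ (fib τ y).card then Classical.choose (exists_top (fib τ y) g m h) else ∅

open Classical in
lemma Bt_spec (m : ℕ) (g : E → ℝ) (τ : Submodule F E) (y : E ⧸ τ) (h : m ≤ (fib τ y).card) :
    Bt m g τ y ⊆ fib τ y ∧ (Bt m g τ y).card = m ∧
      ∀ x ∈ Bt m g τ y, ∀ x' ∈ fib τ y, x' ∉ Bt m g τ y → g x' ≤ g x := by
  unfold Bt
  rw [dif_pos h]
  exact Classical.choose_spec (exists_top (fib τ y) g m h)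

open Classical in
/-- the part of the fibre outside the top -/
noncomputable def Rs (m : ℕ) (g : E → ℝ) (τ : Submodule F E) (y : E ⧸ τ) (ψ : E → ℝ) : ℝ :=
  ∑ x ∈ fib τ y \ Bt m g τ y, ψ x

lemma Rs_nonneg (m : ℕ) (g : E → ℝ) (τ : Submodule F E) (y : E ⧸ τ) (ψ : E → ℝ) (hψ : ∀ x, 0 ≤ ψ x) :
    0 ≤ Rs m g τ y ψ := Finset.sum_nonneg (fun x _ => hψ x)

/-- Step D1 -/
lemma dense_split (κ : ℕ) (hκ : 1 ≤ κ) (k : ℕ) (W : Submodule F E) (hW : Module.finrank F W = κ + 1) (a : E)
    (g : E → ℝ) (hg : ∀ x, 0 ≤ g x) (A : Finset E)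
    (hAc : A.card = (Fintype.card F ^ κ + 1) / 2)
    (htop : ∀ x ∈ A, ∀ y ∈ cs W a, y ∉ A → g y ≤ g x)
    (τ : Submodule F E) (hτ : Module.finrank F τ = κ) (hτW : τ ≤ W) [Fintype (E ⧸ τ)] :
    ∑ x ∈ cs W a, g x ^ k ≤ 2 * ∑ x ∈ A, g x ^ k +
      ∑ y ∈ cs (W.map τ.mkQ) (τ.mkQ a), Rs (Fintype.card F ^ (κ-1)) g τ y (fun x => g x ^ k) := by
  classical
  set m := Fintype.card F ^ (κ-1) with hm
  have hmle : ∀ y : E ⧸ τ, m ≤ (fib τ y).card := by
    intro y
    rw [card_fib, hτ, hm]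
    exact Nat.pow_le_pow_right Fintype.card_pos (by omega)
  have hmap : Module.finrank F (W.map τ.mkQ) = 1 := by
    have := finrank_map_mkQ τ W hτW
    omega
  have hmem : ∀ x, τ.mkQ x ∈ cs (W.map τ.mkQ) (τ.mkQ a) ↔ x ∈ cs W a := by
    intro x
    rw [mem_cs, mem_cs, ← map_sub]
    constructor
    · intro h
      have : x - a ∈ (W.map τ.mkQ).comap τ.mkQ := h
      rwa [Submodule.comap_map_mkQ, sup_eq_right.2 hτW] at this
    · intro h; exact Submodule.mem_map_of_mem h
  -- split V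
  set Z := (cs W a).filter (fun x => x ∈ Bt m g τ (τ.mkQ x)) with hZ
  have hsplit : ∑ x ∈ cs W a, g x ^ k = ∑ x ∈ Z, g x ^ k +
      ∑ x ∈ (cs W a).filter (fun x => x ∉ Bt m g τ (τ.mkQ x)), g x ^ k := by
    rw [hZ, Finset.sum_filter_add_sum_filter_not]
  have hmaps : ∀ x ∈ (cs W a).filter (fun x => x ∉ Bt m g τ (τ.mkQ x)),
      τ.mkQ x ∈ cs (W.map τ.mkQ) (τ.mkQ a) := by
    intro x hx
    exact (hmem x).2 (Finset.mem_filter.1 hx).1
  have hsecond : ∑ x ∈ (cs W a).filter (fun x => x ∉ Bt m g τ (τ.mkQ x)), g x ^ k =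
      ∑ y ∈ cs (W.map τ.mkQ) (τ.mkQ a), Rs m g τ y (fun x => g x ^ k) := by
    rw [← Finset.sum_fiberwise_of_maps_to hmaps]
    apply Finset.sum_congr rfl
    intro y hy
    unfold Rs
    apply Finset.sum_congr _ (fun _ _ => rfl)
    ext x
    rw [Finset.mem_filter, Finset.mem_filter, Finset.mem_sdiff, mem_fib]
    constructor
    · rintro ⟨⟨_, h2⟩, h3⟩
      rw [h3] at h2
      exact ⟨h3, h2⟩
    · rintro ⟨h1, h2⟩
      refine ⟨⟨?_, ?_⟩, h1⟩
      · rw [← hmem, h1]; exact hy
      · rw [h1]; exact h2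
  have hZmaps : ∀ x ∈ Z, τ.mkQ x ∈ cs (W.map τ.mkQ) (τ.mkQ a) := by
    intro x hx
    exact (hmem x).2 (Finset.mem_filter.1 hx).1
  have hZcard : Z.card ≤ Fintype.card F ^ κ := by
    rw [Finset.card_eq_sum_card_fiberwise hZmaps]
    calc ∑ y ∈ cs (W.map τ.mkQ) (τ.mkQ a), (Z.filter (fun x => τ.mkQ x = y)).card
        ≤ ∑ _y ∈ cs (W.map τ.mkQ) (τ.mkQ a), m := by
          apply Finset.sum_le_sum
          intro y _
          rw [← (Bt_spec m g τ y (hmle y)).2.1]
          apply Finset.card_le_card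
          intro x hx
          rw [Finset.mem_filter, hZ, Finset.mem_filter] at hx
          rw [← hx.2]; exact hx.1.2
      _ = Fintype.card F ^ κ := by
          rw [Finset.sum_const, card_cs, hmap, smul_eq_mul, hm, ← pow_add]
          congr 1; omega
  have hZV : Z ⊆ cs W a := Finset.filter_subset _ _
  have htop' : ∀ x ∈ A, ∀ y ∈ cs W a, y ∉ A → g y ^ k ≤ g x ^ k := by
    intro x hx y hy hyA
    exact pow_le_pow_left₀ (hg y) (htop x hx y hy hyA) k
  have hfirst : ∑ x ∈ Z, g x ^ k ≤ 2 * ∑ x ∈ A, g x ^ k := by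
    have hψ : ∀ x, 0 ≤ g x ^ k := fun x => pow_nonneg (hg x) _
    rcases Nat.lt_or_ge A.card Z.card with hlt | hge
    · obtain ⟨Z1, hZ1, hZ1c⟩ := Finset.exists_subset_card_eq hlt.le
      have h1 := top_sum (cs W a) A Z1 (fun x => g x ^ k) hψ htop' (hZ1.trans hZV) (le_of_eq hZ1c)
      have h2 := top_sum (cs W a) A (Z \ Z1) (fun x => g x ^ k) hψ htop'
        ((Finset.sdiff_subset).trans hZV) (by
          rw [Finset.card_sdiff_of_subset hZ1]
          omega)
      have h3 := Finset.sum_sdiff (f := fun x => g x ^ k) hZ1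
      linarith
    · have h1 := top_sum (cs W a) A Z (fun x => g x ^ k) hψ htop' hZV hge
      have h2 : 0 ≤ ∑ x ∈ A, g x ^ k := Finset.sum_nonneg (fun x _ => hψ x)
      linarith
  rw [hsplit, hsecond]
  linarith

/-- linearly independent `j`-tuples in `τ` -/
noncomputable def LI (τ : Submodule F E) (j : ℕ) (v : Fin j → E) : Prop :=
  LinearIndependent F v ∧ ∀ i, v i ∈ τ

open Classical in
lemma tuple_bound (κ : ℕ) (g ψ : E → ℝ) (hψ : ∀ x, 0 ≤ ψ x)
    (hmono : ∀ x y, g y ≤ g x → ψ y ≤ ψ x) (τ : Submodule F E) (hτ : Module.finrank F τ = κ) (x₀ : E)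
    (j : ℕ) (hj : j ≤ κ) :
    (Rs (Fintype.card F ^ (κ-1)) g τ (τ.mkQ x₀) ψ) ^ j ≤
      ∑ v ∈ Finset.univ.filter (fun v : Fin j → E => LI τ j v), ∏ i, ψ (x₀ + v i) := by
  set m := Fintype.card F ^ (κ-1) with hm
  have hmle : m ≤ (fib τ (τ.mkQ x₀)).card := by
    rw [card_fib, hτ, hm]
    exact Nat.pow_le_pow_right Fintype.card_pos (by omega)
  obtain ⟨hB1, hB2, hB3⟩ := Bt_spec m g τ (τ.mkQ x₀) hmle
  induction j with
  | zero =>
    have hu : (Finset.univ.filter (fun v : Fin 0 → E => LI τ 0 v)) = {Fin.elim0} := by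
      ext v
      simp only [Finset.mem_filter, Finset.mem_univ, true_and, Finset.mem_singleton]
      constructor
      · intro _; exact Subsingleton.elim _ _
      · intro _
        exact ⟨linearIndependent_empty_type, fun i => i.elim0⟩
    rw [hu]; simp
  | succ j ih =>
    have ih' := ih (by omega)
    set R := Rs m g τ (τ.mkQ x₀) ψ with hR
    have hR0 : 0 ≤ R := Rs_nonneg _ _ _ _ _ hψ
    -- the inner sum
    have hinner : ∀ v : Fin j → E, R ≤
        ∑ w ∈ Finset.univ.filter (fun w : E => w ∈ τ ∧ w ∉ Submodule.span F (Set.range v)), ψ (x₀ + w) := by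
      intro v
      set Z := (fib τ (τ.mkQ x₀)).filter (fun x => x - x₀ ∈ Submodule.span F (Set.range v)) with hZ
      have hZc : Z.card ≤ m := by
        calc Z.card ≤ (cs (Submodule.span F (Set.range v)) x₀).card := by
              apply Finset.card_le_card
              intro x hx
              rw [mem_cs]
              exact (Finset.mem_filter.1 hx).2
          _ = Fintype.card F ^ Module.finrank F (Submodule.span F (Set.range v)) := card_cs _ _
          _ ≤ m := by
              rw [hm]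
              apply Nat.pow_le_pow_right Fintype.card_pos
              have := finrank_range_le_card (R := F) v
              rw [Fintype.card_fin] at this
              unfold Set.finrank at this
              omega
      have h1 := top_sum (fib τ (τ.mkQ x₀)) (Bt m g τ (τ.mkQ x₀)) Z ψ hψ
        (fun x hx y hy hyA => hmono x y (hB3 x hx y hy hyA)) (Finset.filter_subset _ _)
        (by rw [hB2]; exact hZc)
      have h2 : R = ∑ x ∈ fib τ (τ.mkQ x₀), ψ x - ∑ x ∈ Bt m g τ (τ.mkQ x₀), ψ x := by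
        rw [hR]; unfold Rs
        rw [← Finset.sum_sdiff hB1]; ring
      have h3 := Finset.sum_filter_add_sum_filter_not (fib τ (τ.mkQ x₀))
        (fun x => x - x₀ ∈ Submodule.span F (Set.range v)) ψ
      rw [← hZ] at h3
      have h4 : ∑ x ∈ (fib τ (τ.mkQ x₀)).filter (fun x => ¬ (x - x₀ ∈ Submodule.span F (Set.range v))), ψ x =
          ∑ w ∈ Finset.univ.filter (fun w : E => w ∈ τ ∧ w ∉ Submodule.span F (Set.range v)), ψ (x₀ + w) := by
        apply Finset.sum_nbij' (fun x => x - x₀) (fun w => x₀ + w)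
        · intro x hx
          rw [Finset.mem_filter, fib_eq_cs, mem_cs] at hx
          simp only [Finset.mem_filter, Finset.mem_univ, true_and]
          exact hx
        · intro w hw
          simp only [Finset.mem_filter, Finset.mem_univ, true_and] at hw
          rw [Finset.mem_filter, fib_eq_cs, mem_cs, add_sub_cancel_left]
          exact hw
        · intro x _; abel
        · intro w _; abel
        · intro x _; congr 1; abel
      rw [← h4, h2]
      linarith
    have hdecomp : ∑ v ∈ Finset.univ.filter (fun v : Fin (j+1) → E => LI τ (j+1) v), ∏ i, ψ (x₀ + v i) =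
        ∑ v ∈ Finset.univ.filter (fun v : Fin j → E => LI τ j v),
          (∑ w ∈ Finset.univ.filter (fun w : E => w ∈ τ ∧ w ∉ Submodule.span F (Set.range v)), ψ (x₀ + w)) *
            ∏ i, ψ (x₀ + v i) := by
      rw [Finset.sum_filter, ← (Fin.consEquiv (fun _ => E)).sum_comp, Fintype.sum_prod_type, Finset.sum_comm,
        Finset.sum_filter]
      apply Finset.sum_congr rfl
      intro v _
      have hLI : ∀ w : E, LI τ (j+1) (Fin.cons w v : Fin (j+1) → E) ↔
          (LI τ j v ∧ (w ∈ τ ∧ w ∉ Submodule.span F (Set.range v))) := by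
        intro w
        unfold LI
        rw [linearIndependent_finCons, Fin.forall_fin_succ]
        simp only [Fin.cons_zero, Fin.cons_succ]
        tauto
      have hprod : ∀ w : E, ∏ i, ψ (x₀ + (Fin.cons w v : Fin (j+1) → E) i) = ψ (x₀ + w) * ∏ i, ψ (x₀ + v i) := by
        intro w
        rw [Fin.prod_univ_succ]
        simp
      have hce : ∀ w : E, (Fin.consEquiv (fun _ : Fin (j+1) => E)) (w, v) = (Fin.cons w v : Fin (j+1) → E) :=
        fun w => rfl
      simp only [hce, hLI, hprod]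
      by_cases hv : LI τ j v
      · simp only [hv, true_and, if_true]
        rw [Finset.sum_mul, Finset.sum_filter]
      · simp [hv]
    rw [hdecomp]
    calc R ^ (j+1) = R * R ^ j := by ring
      _ ≤ R * ∑ v ∈ Finset.univ.filter (fun v : Fin j → E => LI τ j v), ∏ i, ψ (x₀ + v i) := by
          gcongr
      _ = ∑ v ∈ Finset.univ.filter (fun v : Fin j → E => LI τ j v), R * ∏ i, ψ (x₀ + v i) := by
          rw [Finset.mul_sum]
      _ ≤ _ := by
          apply Finset.sum_le_sum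
          intro v _
          apply mul_le_mul_of_nonneg_right (hinner v)
          exact Finset.prod_nonneg (fun i _ => hψ _)

lemma tuple_sum (κ : ℕ) (g ψ : E → ℝ) (hψ : ∀ x, 0 ≤ ψ x)
    (hmono : ∀ x y, g y ≤ g x → ψ y ≤ ψ x) [∀ τ : Submodule F E, Fintype (E ⧸ τ)] :
    ∑ τ ∈ Gr F E κ, ∑ y : E ⧸ τ, (Rs (Fintype.card F ^ (κ-1)) g τ y ψ) ^ (κ+1) ≤ (∑ x, ψ x) ^ (κ+1) := by
  classical
  have h1 : ∀ τ ∈ Gr F E κ, ∑ y : E ⧸ τ, (Rs (Fintype.card F ^ (κ-1)) g τ y ψ) ^ (κ+1) ≤
      ∑ x₀, ψ x₀ * ∑ v ∈ Finset.univ.filter (fun v : Fin κ → E => LI τ κ v), ∏ i, ψ (x₀ + v i) := by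
    intro τ hτ
    rw [mem_Gr] at hτ
    calc ∑ y : E ⧸ τ, (Rs (Fintype.card F ^ (κ-1)) g τ y ψ) ^ (κ+1)
        ≤ ∑ y : E ⧸ τ, ∑ x₀ ∈ Finset.univ.filter (fun x => τ.mkQ x = y),
            ψ x₀ * (Rs (Fintype.card F ^ (κ-1)) g τ (τ.mkQ x₀) ψ) ^ κ := by
          apply Finset.sum_le_sum
          intro y _
          rw [pow_succ, mul_comm]
          have h2 : Rs (Fintype.card F ^ (κ-1)) g τ y ψ ≤ ∑ x₀ ∈ Finset.univ.filter (fun x => τ.mkQ x = y), ψ x₀ := by
            unfold Rs
            apply Finset.sum_le_sum_of_subset_of_nonneg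
            · intro x hx
              rw [Finset.mem_sdiff, mem_fib] at hx
              exact Finset.mem_filter.2 ⟨Finset.mem_univ _, hx.1⟩
            · intro x _ _; exact hψ x
          calc Rs (Fintype.card F ^ (κ-1)) g τ y ψ * Rs (Fintype.card F ^ (κ-1)) g τ y ψ ^ κ
              ≤ (∑ x₀ ∈ Finset.univ.filter (fun x => τ.mkQ x = y), ψ x₀) *
                Rs (Fintype.card F ^ (κ-1)) g τ y ψ ^ κ := by
                apply mul_le_mul_of_nonneg_right h2
                exact pow_nonneg (Rs_nonneg _ _ _ _ _ hψ) _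
            _ = _ := by
                rw [Finset.sum_mul]
                apply Finset.sum_congr rfl
                intro x hx
                rw [(Finset.mem_filter.1 hx).2]
      _ = ∑ x₀, ψ x₀ * (Rs (Fintype.card F ^ (κ-1)) g τ (τ.mkQ x₀) ψ) ^ κ :=
          Finset.sum_fiberwise_of_maps_to (fun x _ => Finset.mem_univ _) _
      _ ≤ _ := by
          apply Finset.sum_le_sum
          intro x₀ _
          apply mul_le_mul_of_nonneg_left _ (hψ x₀)
          exact tuple_bound κ g ψ hψ hmono τ hτ x₀ κ le_rfl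
  calc ∑ τ ∈ Gr F E κ, ∑ y : E ⧸ τ, (Rs (Fintype.card F ^ (κ-1)) g τ y ψ) ^ (κ+1)
      ≤ ∑ τ ∈ Gr F E κ, ∑ x₀, ψ x₀ * ∑ v ∈ Finset.univ.filter (fun v : Fin κ → E => LI τ κ v),
          ∏ i, ψ (x₀ + v i) := Finset.sum_le_sum h1
    _ = ∑ x₀, ψ x₀ * ∑ τ ∈ Gr F E κ, ∑ v ∈ Finset.univ.filter (fun v : Fin κ → E => LI τ κ v),
          ∏ i, ψ (x₀ + v i) := by
        rw [Finset.sum_comm]
        apply Finset.sum_congr rfl
        intro x₀ _
        rw [Finset.mul_sum]
    _ ≤ ∑ x₀, ψ x₀ * (∑ x, ψ x) ^ κ := by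
        apply Finset.sum_le_sum
        intro x₀ _
        apply mul_le_mul_of_nonneg_left _ (hψ x₀)
        have h2 : (∑ x, ψ x) ^ κ = ∑ v : Fin κ → E, ∏ i, ψ (x₀ + v i) := by
          have h3 : ∑ x, ψ x = ∑ w, ψ (x₀ + w) := by
            symm
            exact Fintype.sum_equiv (Equiv.addLeft x₀) _ _ (fun w => rfl)
          rw [h3]
          have h4 := Finset.prod_univ_sum (fun _ : Fin κ => (Finset.univ : Finset E)) (fun _ w => ψ (x₀ + w))
          rw [Finset.prod_const, Finset.card_univ, Fintype.card_fin] at h4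
          rw [h4]
          simp
        rw [h2]
        have h5 : ∑ τ ∈ Gr F E κ, ∑ v ∈ Finset.univ.filter (fun v : Fin κ → E => LI τ κ v), ∏ i, ψ (x₀ + v i) =
            ∑ v : Fin κ → E, (((Gr F E κ).filter (fun τ => LI τ κ v)).card : ℝ) * ∏ i, ψ (x₀ + v i) := by
          simp_rw [Finset.sum_filter]
          rw [Finset.sum_comm]
          apply Finset.sum_congr rfl
          intro v _
          rw [← Finset.sum_filter, Finset.sum_const, nsmul_eq_mul]
        rw [h5]
        apply Finset.sum_le_sum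
        intro v _
        have h6 : ((Gr F E κ).filter (fun τ => LI τ κ v)).card ≤ 1 := by
          rw [Finset.card_le_one]
          have key : ∀ τ ∈ (Gr F E κ).filter (fun τ => LI τ κ v), Submodule.span F (Set.range v) = τ := by
            intro τ hτ
            rw [Finset.mem_filter, mem_Gr] at hτ
            obtain ⟨h7, h8, h9⟩ := hτ
            apply Submodule.eq_of_le_of_finrank_eq
            · rw [Submodule.span_le]
              rintro _ ⟨i, rfl⟩
              exact h9 i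
            · rw [finrank_span_eq_card h8, Fintype.card_fin, h7]
          intro τ hτ τ' hτ'
          rw [← key τ hτ, key τ' hτ']
        have h7 : (((Gr F E κ).filter (fun τ => LI τ κ v)).card : ℝ) ≤ 1 := by exact_mod_cast h6
        have h8 : 0 ≤ ∏ i, ψ (x₀ + v i) := Finset.prod_nonneg (fun i _ => hψ _)
        nlinarith
    _ = (∑ x, ψ x) ^ (κ+1) := by
        rw [← Finset.sum_mul, pow_succ, mul_comm]

end Pool.Agent.H822
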