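import Mathlib
import Pool.Agent.H822.Dense

set_option autoImplicit false

/-!
# The `k`-plane maximal operator bound
-/

namespace Pool.Agent.H822

/-- The constant for lines. -/
noncomputable def K1 (c : ℕ) : ℝ := ((c:ℝ)+1) * KC c

lemma K1_nonneg (c : ℕ) : 0 ≤ K1 c := by
  unfold K1; exact mul_nonneg (by positivity) (KC_nonneg c)

lemma dense_sum (c κ : ℕ) (hc : 1 ≤ c)
    (F : Type) [Field F] [Fintype F] (E : Type) [AddCommGroup E] [Module F E] [Fintype E]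
    [∀ τ : Submodule F E, DecidablePred fun W : Submodule F E => τ ≤ W]
    (hE : Module.finrank F E = c + (κ + 1)) (g : E → ℝ) (hg : ∀ x, 0 ≤ g x) (a : Submodule F E → E) :
    ∑ τ ∈ Gr F E κ, ∑ W ∈ (Gr F E (κ+1)).filter (fun W => τ ≤ W),
      (∑ y ∈ cs (W.map τ.mkQ) (τ.mkQ (a W)),
        Rs (Fintype.card F ^ (κ-1)) g τ y (fun x => g x ^ (κ+1))) ^ (c + (κ+1)) ≤
      K1 c * ((Fintype.card F : ℝ) ^ (c + (κ+1) - 1) * (((Fintype.card F : ℝ) ^ κ) ^ c *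
        (∑ x, g x ^ (c + (κ+1))) ^ (κ+1))) := by
  classical
  set n := c + (κ+1) with hn
  set m := Fintype.card F ^ (κ-1) with hm
  have h1 : ∀ τ ∈ Gr F E κ, ∑ W ∈ (Gr F E (κ+1)).filter (fun W => τ ≤ W),
      (∑ y ∈ cs (W.map τ.mkQ) (τ.mkQ (a W)), Rs m g τ y (fun x => g x ^ (κ+1))) ^ n ≤
      K1 c * ((Fintype.card F : ℝ) ^ (n - 1) *
        ∑ y : E ⧸ τ, (Rs m g τ y (fun x => g x ^ (κ+1))) ^ n) := by
    intro τ hτ
    have hτ' := mem_Gr.1 hτ
    have h2 := sum_Gr_ge τ κ 1 hτ' (fun W => (∑ y ∈ cs (W.map τ.mkQ) (τ.mkQ (a W)),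
      Rs m g τ y (fun x => g x ^ (κ+1))) ^ n)
    rw [add_comm 1 κ] at h2
    rw [h2]
    have hq : Module.finrank F (E ⧸ τ) = c + 1 := by
      have := Submodule.finrank_quotient_add_finrank τ
      omega
    have h3 := kak_line_pow hc hq n (by omega) (fun y => Rs m g τ y (fun x => g x ^ (κ+1)))
      (fun y => Rs_nonneg _ _ _ _ _ (fun x => pow_nonneg (hg x) _))
      (fun L => τ.mkQ (a (L.comap τ.mkQ)))
    refine le_trans (le_of_eq ?_) h3
    apply Finset.sum_congr rfl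
    intro L _
    rw [Submodule.map_comap_eq_of_surjective (Submodule.mkQ_surjective τ)]
  have h4 : ∀ τ ∈ Gr F E κ, ∑ y : E ⧸ τ, (Rs m g τ y (fun x => g x ^ (κ+1))) ^ n ≤
      ((Fintype.card F : ℝ) ^ κ) ^ c * ∑ y : E ⧸ τ, (Rs m g τ y (fun x => g x ^ n)) ^ (κ+1) := by
    intro τ hτ
    have hτ' := mem_Gr.1 hτ
    rw [Finset.mul_sum]
    apply Finset.sum_le_sum
    intro y _
    unfold Rs
    have h5 := holder_pow (fib τ y \ Bt m g τ y) g hg (κ+1) n (by omega) (by omega)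
      (Fintype.card F ^ κ) (by
        refine (Finset.card_le_card Finset.sdiff_subset).trans ?_
        rw [card_fib, hτ'])
    have h6 : n - (κ+1) = c := by omega
    rw [h6] at h5
    push_cast at h5
    exact h5
  have h7 := tuple_sum (F := F) κ g (fun x => g x ^ n) (fun x => pow_nonneg (hg x) _)
    (fun x y h => pow_le_pow_left₀ (hg y) h n)
  have hq0 : (0:ℝ) ≤ (Fintype.card F : ℝ) := Nat.cast_nonneg _
  calc ∑ τ ∈ Gr F E κ, ∑ W ∈ (Gr F E (κ+1)).filter (fun W => τ ≤ W),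
      (∑ y ∈ cs (W.map τ.mkQ) (τ.mkQ (a W)), Rs m g τ y (fun x => g x ^ (κ+1))) ^ n
      ≤ ∑ τ ∈ Gr F E κ, K1 c * ((Fintype.card F : ℝ) ^ (n - 1) *
        ∑ y : E ⧸ τ, (Rs m g τ y (fun x => g x ^ (κ+1))) ^ n) := Finset.sum_le_sum h1
    _ ≤ ∑ τ ∈ Gr F E κ, K1 c * ((Fintype.card F : ℝ) ^ (n - 1) *
        (((Fintype.card F : ℝ) ^ κ) ^ c * ∑ y : E ⧸ τ, (Rs m g τ y (fun x => g x ^ n)) ^ (κ+1))) := by
        apply Finset.sum_le_sum
        intro τ hτ
        apply mul_le_mul_of_nonneg_left _ (K1_nonneg c)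
        apply mul_le_mul_of_nonneg_left _ (by positivity)
        exact h4 τ hτ
    _ = K1 c * ((Fintype.card F : ℝ) ^ (n - 1) * (((Fintype.card F : ℝ) ^ κ) ^ c *
        ∑ τ ∈ Gr F E κ, ∑ y : E ⧸ τ, (Rs m g τ y (fun x => g x ^ n)) ^ (κ+1))) := by
        simp_rw [Finset.mul_sum]
    _ ≤ _ := by
        apply mul_le_mul_of_nonneg_left _ (K1_nonneg c)
        apply mul_le_mul_of_nonneg_left _ (by positivity)
        apply mul_le_mul_of_nonneg_left _ (by positivity)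
        exact h7

/-- Induction step. -/
lemma Bd_step (c κ : ℕ) (hc : 1 ≤ c) (hκ : 1 ≤ κ) (C' : ℝ) (hC' : 0 ≤ C') (hB : Bd c κ (κ+1) C') :
    Bd c (κ+1) (κ+1) (2 ^ (c + κ) * (2 ^ (c + (κ+1)) * (2 ^ (c + (κ+1)) * C') + K1 c)) := by
  classical
  intro F _ _ E _ _ _ hE g hg a
  set n := c + (κ+1) with hn
  -- choose the top sets
  have hA : ∀ W : Submodule F E, ∃ A : Finset E, W ∈ Gr F E (κ+1) →
      A ⊆ cs W (a W) ∧ A.card = (Fintype.card F ^ κ + 1) / 2 ∧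
        ∀ x ∈ A, ∀ y ∈ cs W (a W), y ∉ A → g y ≤ g x := by
    intro W
    by_cases hW : W ∈ Gr F E (κ+1)
    · have hW' := mem_Gr.1 hW
      obtain ⟨A, h1, h2, h3⟩ := exists_top (cs W (a W)) g ((Fintype.card F ^ κ + 1) / 2) (by
        rw [card_cs, hW', pow_succ]
        have h4 : 0 < Fintype.card F ^ κ := pow_pos Fintype.card_pos _
        have h5 : 1 ≤ Fintype.card F := Fintype.card_pos
        have h6 : Fintype.card F ^ κ * 1 ≤ Fintype.card F ^ κ * Fintype.card F := Nat.mul_le_mul_left _ h5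
        omega)
      exact ⟨A, fun _ => ⟨h1, h2, h3⟩⟩
    · exact ⟨∅, fun h => absurd h hW⟩
  choose A hA using hA
  have hsparse := sparse_bound c κ C' hC' hB F E hE g hg a A (fun W hW => (hA W hW).1)
    (fun W hW => le_of_eq (hA W hW).2.1)
  have hdense := dense_sum c κ hc F E hE g hg a
  rw [← hn] at hsparse hdense
  set m := Fintype.card F ^ (κ-1) with hm
  let D : Submodule F E → Submodule F E → ℝ := fun τ W =>
    ∑ y ∈ cs (W.map τ.mkQ) (τ.mkQ (a W)), Rs m g τ y (fun x => g x ^ (κ+1))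
  have hD0 : ∀ τ W, 0 ≤ D τ W := fun τ W =>
    Finset.sum_nonneg (fun y _ => Rs_nonneg _ _ _ _ _ (fun x => pow_nonneg (hg x) _))
  set Ψ := (∑ x, g x ^ n) ^ (κ+1) with hΨ
  have hΨ0 : 0 ≤ Ψ := pow_nonneg (Finset.sum_nonneg (fun x _ => pow_nonneg (hg x) _)) _
  set N := gn F (κ+1) κ with hN
  set T : Submodule F E → ℝ := fun W => ∑ x ∈ cs W (a W), g x ^ (κ+1) with hT
  set S : Submodule F E → ℝ := fun W => ∑ x ∈ A W, g x ^ (κ+1) with hS
  have hT0 : ∀ W, 0 ≤ T W := fun W => Finset.sum_nonneg (fun x _ => pow_nonneg (hg x) _)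
  have hS0 : ∀ W, 0 ≤ S W := fun W => Finset.sum_nonneg (fun x _ => pow_nonneg (hg x) _)
  have hpoint : ∀ W ∈ Gr F E (κ+1), (N:ℝ) * T W ^ n ≤
      2 ^ (n-1) * ((N:ℝ) * (2 ^ n * S W ^ n) + ∑ τ ∈ (Gr F E κ).filter (fun τ => τ ≤ W), D τ W ^ n) := by
    intro W hW
    have hW' := mem_Gr.1 hW
    have hcard : ((Gr F E κ).filter (fun τ => τ ≤ W)).card = N := by
      rw [card_Gr_le, card_Gr (κ+1) κ hW']
    have h1 : ∀ τ ∈ (Gr F E κ).filter (fun τ => τ ≤ W),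
        T W ^ n ≤ 2 ^ (n-1) * (2 ^ n * S W ^ n + D τ W ^ n) := by
      intro τ hτ
      rw [Finset.mem_filter, mem_Gr] at hτ
      have h2 := dense_split κ hκ (κ+1) W hW' (a W) g hg (A W) (hA W hW).2.1 (hA W hW).2.2 τ hτ.1 hτ.2
      have h3 : T W ^ n ≤ (2 * S W + D τ W) ^ n := pow_le_pow_left₀ (hT0 W) h2 n
      have h4 := add_pow_le (mul_nonneg (by norm_num : (0:ℝ) ≤ 2) (hS0 W)) (hD0 τ W) n
      rw [mul_pow] at h4
      exact h3.trans h4
    have h5 := Finset.sum_le_sum h1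
    rw [Finset.sum_const, nsmul_eq_mul, hcard, ← Finset.mul_sum, Finset.sum_add_distrib,
      Finset.sum_const, nsmul_eq_mul, hcard] at h5
    exact h5
  have hsum := Finset.sum_le_sum hpoint
  rw [← Finset.mul_sum, ← Finset.mul_sum, Finset.sum_add_distrib, ← Finset.mul_sum, ← Finset.mul_sum] at hsum
  have hswap : ∑ W ∈ Gr F E (κ+1), ∑ τ ∈ (Gr F E κ).filter (fun τ => τ ≤ W), D τ W ^ n =
      ∑ τ ∈ Gr F E κ, ∑ W ∈ (Gr F E (κ+1)).filter (fun W => τ ≤ W), D τ W ^ n := by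
    simp_rw [Finset.sum_filter]
    rw [Finset.sum_comm]
  rw [hswap] at hsum
  have hflag := gn_flag (F := F) (E := E) n (κ+1) κ (by omega) hE
  have hsub : n - κ = c + 1 := by omega
  rw [hsub, Nat.add_sub_cancel_left] at hflag
  have hlow1 := gn_lower (F := F) κ (c+1)
  have hlow2 := gn_lower (F := F) 1 c
  rw [one_mul, add_comm 1 c] at hlow2
  have hn' : κ + (c+1) = n := by omega
  rw [hn'] at hlow1
  have hcards : Fintype.card F ^ (n-1) * (Fintype.card F ^ κ) ^ c ≤ gn F n (κ+1) * N := by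
    rw [hN, hflag]
    calc Fintype.card F ^ (n-1) * (Fintype.card F ^ κ) ^ c = Fintype.card F ^ (κ * (c+1)) * Fintype.card F ^ c := by
          rw [← pow_mul, ← pow_add, ← pow_add]
          congr 1
          have : n - 1 = κ + c := by omega
          rw [this]; ring
      _ ≤ _ := Nat.mul_le_mul hlow1 hlow2
  have hcards' : (Fintype.card F : ℝ) ^ (n-1) * ((Fintype.card F : ℝ) ^ κ) ^ c ≤ (gn F n (κ+1) : ℝ) * N := by
    exact_mod_cast hcards
  have hNpos : 0 < N := by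
    have h1 := gn_lower (F := F) κ 1
    rw [mul_one] at h1
    have h2 : 0 < Fintype.card F ^ κ := pow_pos Fintype.card_pos _
    exact lt_of_lt_of_le h2 h1
  have hNr : (0:ℝ) < N := by exact_mod_cast hNpos
  rw [card_Gr n (κ+1) hE] at hsparse ⊢
  have hfin : (N:ℝ) * ∑ W ∈ Gr F E (κ+1), T W ^ n ≤
      N * (2 ^ (c + κ) * (2 ^ n * (2 ^ n * C') + K1 c) * (gn F n (κ+1) : ℝ) * Ψ) := by
    calc (N:ℝ) * ∑ W ∈ Gr F E (κ+1), T W ^ n
        ≤ 2 ^ (n-1) * ((N:ℝ) * (2 ^ n * ∑ W ∈ Gr F E (κ+1), S W ^ n) +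
          ∑ τ ∈ Gr F E κ, ∑ W ∈ (Gr F E (κ+1)).filter (fun W => τ ≤ W), D τ W ^ n) := by
          refine hsum.trans (le_of_eq ?_)
          simp only [Finset.mul_sum]
      _ ≤ 2 ^ (n-1) * ((N:ℝ) * (2 ^ n * (2 ^ n * C' * (gn F n (κ+1) : ℝ) * Ψ)) +
          K1 c * ((Fintype.card F : ℝ) ^ (n - 1) * (((Fintype.card F : ℝ) ^ κ) ^ c * Ψ))) := by
          gcongr
      _ = 2 ^ (n-1) * ((N:ℝ) * (2 ^ n * (2 ^ n * C' * (gn F n (κ+1) : ℝ) * Ψ)) +
          K1 c * (((Fintype.card F : ℝ) ^ (n - 1) * ((Fintype.card F : ℝ) ^ κ) ^ c) * Ψ)) := by ring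
      _ ≤ 2 ^ (n-1) * ((N:ℝ) * (2 ^ n * (2 ^ n * C' * (gn F n (κ+1) : ℝ) * Ψ)) +
          K1 c * (((gn F n (κ+1) : ℝ) * N) * Ψ)) := by
          have := K1_nonneg c
          gcongr
      _ = _ := by
          have : n - 1 = c + κ := by omega
          rw [this]; ring
  exact le_of_mul_le_mul_left hfin hNr

/-- Interpolation with the trivial bound. -/
lemma Bd_interp (c k : ℕ) (hk : 1 ≤ k) (C : ℝ) (hC : 0 ≤ C) (hB : Bd c k k C) : Bd c k (k+1) C := by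
  classical
  intro F _ _ E _ _ _ hE g hg a
  set m := c + k with hm
  have hm0 : m ≠ 0 := by omega
  have hmr : (0:ℝ) < (m:ℝ) := by
    have : 0 < m := by omega
    exact_mod_cast this
  set t : E → ℝ := fun x => (g x) ^ ((m:ℝ)⁻¹) with ht
  have ht0 : ∀ x, 0 ≤ t x := fun x => Real.rpow_nonneg (hg x) _
  have htg : ∀ x, t x ^ m = g x := fun x => Real.rpow_inv_natCast_pow (hg x) hm0
  have h1 := hB F E hE (fun x => t x ^ (m+1)) (fun x => pow_nonneg (ht0 x) _) a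
  have hholder : ∀ V : Finset E, (∑ x ∈ V, g x ^ (k+1)) ^ (m+1) ≤
      (∑ x ∈ V, g x ^ (m+1)) * (∑ x ∈ V, (t x ^ (m+1)) ^ k) ^ m := by
    intro V
    have hpq : Real.HolderConjugate ((m:ℝ)+1) (((m:ℝ)+1)/m) := by
      rw [Real.holderConjugate_iff]
      constructor
      · linarith
      · rw [inv_div]; field_simp; ring
    have h2 := Real.inner_le_Lp_mul_Lq_of_nonneg V hpq (f := fun x => t x ^ m) (g := fun x => t x ^ (m*k))
      (fun x _ => pow_nonneg (ht0 x) _) (fun x _ => pow_nonneg (ht0 x) _)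
    have e1 : ∀ x, t x ^ m * t x ^ (m*k) = g x ^ (k+1) := by
      intro x
      rw [← htg x, ← pow_mul, ← pow_add]; congr 1; ring
    have e2 : ∀ x, (t x ^ m) ^ ((m:ℝ)+1) = g x ^ (m+1) := by
      intro x
      rw [htg x]
      have : ((m:ℝ)+1) = ((m+1 : ℕ) : ℝ) := by push_cast; ring
      rw [this, Real.rpow_natCast]
    have e3 : ∀ x, (t x ^ (m*k)) ^ (((m:ℝ)+1)/m) = (t x ^ (m+1)) ^ k := by
      intro x
      rw [← Real.rpow_natCast, ← Real.rpow_mul (ht0 x), ← pow_mul, ← Real.rpow_natCast]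
      congr 1
      push_cast
      field_simp
    simp only [e1, e2, e3] at h2
    have hS1 : 0 ≤ ∑ x ∈ V, g x ^ (m+1) := Finset.sum_nonneg (fun x _ => pow_nonneg (hg x) _)
    have hS2 : 0 ≤ ∑ x ∈ V, (t x ^ (m+1)) ^ k :=
      Finset.sum_nonneg (fun x _ => pow_nonneg (pow_nonneg (ht0 x) _) _)
    have h3 := pow_le_pow_left₀ (Finset.sum_nonneg (fun x _ => pow_nonneg (hg x) (k+1))) h2 (m+1)
    rw [mul_pow] at h3
    have e4 : ((∑ x ∈ V, g x ^ (m+1)) ^ (1 / ((m:ℝ)+1))) ^ (m+1) = ∑ x ∈ V, g x ^ (m+1) := by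
      rw [← Real.rpow_natCast, ← Real.rpow_mul hS1]
      push_cast
      rw [one_div, inv_mul_cancel₀ (by positivity), Real.rpow_one]
    have e5 : ((∑ x ∈ V, (t x ^ (m+1)) ^ k) ^ (1 / (((m:ℝ)+1)/m))) ^ (m+1) =
        (∑ x ∈ V, (t x ^ (m+1)) ^ k) ^ m := by
      rw [← Real.rpow_natCast, ← Real.rpow_mul hS2, ← Real.rpow_natCast]
      congr 1
      push_cast
      field_simp
    rw [e4, e5] at h3
    exact h3
  have hc1 : c + (k+1) = m + 1 := by omega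
  rw [hc1]
  set G := ∑ x, g x ^ (m+1) with hG
  have hG0 : 0 ≤ G := Finset.sum_nonneg (fun x _ => pow_nonneg (hg x) _)
  have e6 : ∑ x, (t x ^ (m+1)) ^ m = G := by
    apply Finset.sum_congr rfl
    intro x _
    rw [← pow_mul, mul_comm, pow_mul, htg]
  rw [← hm, e6] at h1
  calc ∑ W ∈ Gr F E k, (∑ x ∈ cs W (a W), g x ^ (k+1)) ^ (m+1)
      ≤ ∑ W ∈ Gr F E k, G * (∑ x ∈ cs W (a W), (t x ^ (m+1)) ^ k) ^ m := by
        apply Finset.sum_le_sum
        intro W _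
        refine (hholder _).trans ?_
        apply mul_le_mul_of_nonneg_right
        · exact Finset.sum_le_sum_of_subset_of_nonneg (Finset.subset_univ _)
            (fun x _ _ => pow_nonneg (hg x) _)
        · exact pow_nonneg (Finset.sum_nonneg (fun x _ => pow_nonneg (pow_nonneg (ht0 x) _) _)) _
    _ = G * ∑ W ∈ Gr F E k, (∑ x ∈ cs W (a W), (t x ^ (m+1)) ^ k) ^ m := by rw [Finset.mul_sum]
    _ ≤ G * (C * ((Gr F E k).card : ℝ) * G ^ k) := by gcongr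
    _ = _ := by ring

lemma Bd_base (c : ℕ) (hc : 1 ≤ c) : Bd c 1 1 (K1 c) := by
  classical
  intro F _ _ E _ _ _ hE g hg a
  have h1 := kak_line hc hE g hg a
  have h2 := gn_lower (F := F) 1 c
  rw [one_mul, add_comm 1 c] at h2
  have h3 : ((Fintype.card F : ℝ) ^ c) ≤ ((Gr F E 1).card : ℝ) := by
    rw [card_Gr (c+1) 1 hE]
    exact_mod_cast h2
  simp only [pow_one]
  refine h1.trans ?_
  have h4 : 0 ≤ ∑ x, g x ^ (c+1) := Finset.sum_nonneg (fun x _ => pow_nonneg (hg x) _)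
  have := K1_nonneg c
  unfold K1 at *
  calc ((c:ℝ)+1) * KC c * ((Fintype.card F : ℝ) ^ c * ∑ x, g x ^ (c+1))
      ≤ ((c:ℝ)+1) * KC c * (((Gr F E 1).card : ℝ) * ∑ x, g x ^ (c+1)) := by gcongr
    _ = _ := by ring

theorem Bd_all (c : ℕ) (hc : 1 ≤ c) (k : ℕ) (hk : 1 ≤ k) : ∃ C : ℝ, 0 ≤ C ∧ Bd c k k C := by
  induction k with
  | zero => omega
  | succ κ ih =>
    rcases Nat.eq_zero_or_pos κ with h0 | hpos
    · subst h0
      exact ⟨K1 c, K1_nonneg c, Bd_base c hc⟩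
    · obtain ⟨C, hC, hB⟩ := ih hpos
      refine ⟨_, ?_, Bd_step c κ hc hpos C hC (Bd_interp c κ hpos C hC hB)⟩
      have := K1_nonneg c
      positivity

end Pool.Agent.H822
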