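import Mathlib

set_option autoImplicit false

/-!
# Convolution powers of a probability measure on the integers
-/

namespace Pool.Agent.H822.SF

/-- convolution with `μ` -/
noncomputable def Tm (μ : ℤ → ℝ) (g : ℤ → ℝ) : ℤ → ℝ := fun m => ∑' i : ℤ, μ i * g (m - i)

/-- the convolution powers -/
noncomputable def pw (μ : ℤ → ℝ) (n : ℕ) : ℤ → ℝ :=
  Nat.iterate (fun g : ℤ → ℝ => fun m => ∑' i : ℤ, μ i * g (m - i)) n
    (fun m => if m = 0 then (1 : ℝ) else 0)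

variable {μ : ℤ → ℝ}

lemma pw_zero : pw μ 0 = fun m => if m = 0 then (1 : ℝ) else 0 := rfl

lemma pw_succ (n : ℕ) : pw μ (n+1) = Tm μ (pw μ n) := by
  unfold pw Tm
  rw [Function.iterate_succ_apply']

/-- shear of `ℤ × ℤ` -/
def shear : ℤ × ℤ ≃ ℤ × ℤ where
  toFun p := (p.1, p.2 - p.1)
  invFun p := (p.1, p.2 + p.1)
  left_inv p := by simp
  right_inv p := by simp

lemma summable_shear (hμ : ∀ k, 0 ≤ μ k) (hs : Summable μ) (h : ℤ → ℝ) (hh : ∀ k, 0 ≤ h k)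
    (hsh : Summable h) : Summable (fun p : ℤ × ℤ => μ p.1 * h (p.2 - p.1)) := by
  have h1 : Summable (fun p : ℤ × ℤ => μ p.1 * h p.2) := Summable.mul_of_nonneg hs hsh hμ hh
  exact (shear.summable_iff (f := fun p : ℤ × ℤ => μ p.1 * h p.2)).2 h1

lemma Tm_hasSum (hμ : ∀ k, 0 ≤ μ k) (h1 : HasSum μ 1) (h : ℤ → ℝ) (hh : ∀ k, 0 ≤ h k)
    (hsh : HasSum h 1) : HasSum (Tm μ h) 1 := by
  have h2 : HasSum (fun p : ℤ × ℤ => μ p.1 * h p.2) (1 * 1) :=
    h1.mul hsh (Summable.mul_of_nonneg h1.summable hsh.summable hμ hh)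
  rw [mul_one] at h2
  have h3 : HasSum (fun p : ℤ × ℤ => μ p.1 * h (p.2 - p.1)) 1 :=
    (shear.hasSum_iff (f := fun p : ℤ × ℤ => μ p.1 * h p.2)).2 h2
  have h4 : HasSum (fun p : ℤ × ℤ => μ p.2 * h (p.1 - p.2)) 1 :=
    ((Equiv.prodComm ℤ ℤ).hasSum_iff (f := fun p : ℤ × ℤ => μ p.1 * h (p.2 - p.1))).2 h3
  apply h4.prod_fiberwise
  intro m
  exact (h4.summable.prod_factor m).hasSum

lemma pw_nonneg (hμ : ∀ k, 0 ≤ μ k) (n : ℕ) : ∀ k, 0 ≤ pw μ n k := by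
  induction n with
  | zero => intro k; rw [pw_zero]; dsimp only; split_ifs <;> norm_num
  | succ n ih =>
    intro k
    rw [pw_succ]
    exact tsum_nonneg (fun i => mul_nonneg (hμ i) (ih _))

lemma pw_hasSum (hμ : ∀ k, 0 ≤ μ k) (h1 : HasSum μ 1) (n : ℕ) : HasSum (pw μ n) 1 := by
  induction n with
  | zero => rw [pw_zero]; exact hasSum_ite_eq (0:ℤ) (1:ℝ)
  | succ n ih =>
    rw [pw_succ]
    exact Tm_hasSum hμ h1 _ (pw_nonneg hμ n) ih

/-- the operator `μ^n * ·` -/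
noncomputable def U (μ : ℤ → ℝ) (n : ℕ) (φ : ℤ → ℝ) : ℤ → ℝ := fun k => ∑' j : ℤ, pw μ n j * φ (k - j)

lemma summable_bdd {h φ : ℤ → ℝ} (hs : Summable h) (hh : ∀ k, 0 ≤ h k) (C : ℝ) (hφ : ∀ k, |φ k| ≤ C) :
    Summable (fun j => h j * φ j) := by
  apply Summable.of_norm_bounded (g := fun j => h j * C) (hs.mul_right C)
  intro j
  rw [Real.norm_eq_abs, abs_mul, abs_of_nonneg (hh j)]
  exact mul_le_mul_of_nonneg_left (hφ j) (hh j)

lemma U_zero (φ : ℤ → ℝ) : U μ 0 φ = φ := by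
  funext k
  unfold U
  rw [pw_zero, tsum_eq_single 0]
  · simp
  · intro j hj; simp [hj]

lemma U_succ (hμ : ∀ k, 0 ≤ μ k) (h1 : HasSum μ 1) (n : ℕ) (φ : ℤ → ℝ) (C : ℝ) (hφ : ∀ k, |φ k| ≤ C) :
    U μ (n+1) φ = Tm μ (U μ n φ) := by
  funext k
  have hp := pw_hasSum hμ h1 n
  have hp0 := pw_nonneg hμ n
  have hS : Summable (fun p : ℤ × ℤ => (μ p.1 * pw μ n (p.2 - p.1)) * φ (k - p.2)) := by
    apply Summable.of_norm_bounded (g := fun p : ℤ × ℤ => (μ p.1 * pw μ n (p.2 - p.1)) * C)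
      ((summable_shear hμ h1.summable _ hp0 hp.summable).mul_right C)
    intro p
    rw [Real.norm_eq_abs, abs_mul, abs_of_nonneg (mul_nonneg (hμ _) (hp0 _))]
    exact mul_le_mul_of_nonneg_left (hφ _) (mul_nonneg (hμ _) (hp0 _))
  have e1 : U μ (n+1) φ k = ∑' j, ∑' i, (μ i * pw μ n (j - i)) * φ (k - j) := by
    unfold U
    apply tsum_congr
    intro j
    rw [pw_succ]
    unfold Tm
    rw [tsum_mul_right]
  have e2 : ∑' j, ∑' i, (μ i * pw μ n (j - i)) * φ (k - j) =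
      ∑' i, ∑' j, (μ i * pw μ n (j - i)) * φ (k - j) := Summable.tsum_comm (f := fun i j =>
        (μ i * pw μ n (j - i)) * φ (k - j)) hS
  rw [e1, e2]
  unfold Tm U
  apply tsum_congr
  intro i
  rw [← tsum_mul_left, ← (Equiv.addRight i).tsum_eq]
  apply tsum_congr
  intro j
  simp only [Equiv.coe_addRight, add_sub_cancel_right]
  rw [mul_assoc]
  congr 3
  ring

lemma Tm_bdd (hμ : ∀ k, 0 ≤ μ k) (h1 : HasSum μ 1) (φ : ℤ → ℝ) (C : ℝ) (hφ : ∀ k, |φ k| ≤ C) :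
    ∀ k, |Tm μ φ k| ≤ C := by
  intro k
  have hs : Summable (fun i => μ i * φ (k - i)) := summable_bdd h1.summable hμ C (fun i => hφ _)
  have h2 : |∑' i, μ i * φ (k - i)| ≤ ∑' i, μ i * C := by
    have h3 : ∀ i, |μ i * φ (k - i)| ≤ μ i * C := by
      intro i
      rw [abs_mul, abs_of_nonneg (hμ i)]
      exact mul_le_mul_of_nonneg_left (hφ _) (hμ i)
    have h4 : Summable (fun i => μ i * C) := h1.summable.mul_right C
    have h5 : Summable (fun i => |μ i * φ (k - i)|) := Summable.of_nonneg_of_le (fun i => abs_nonneg _) h3 h4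
    calc |∑' i, μ i * φ (k - i)| ≤ ∑' i, |μ i * φ (k - i)| := by
          have := norm_tsum_le_tsum_norm (f := fun i => μ i * φ (k - i)) (by simpa using h5)
          simpa using this
      _ ≤ ∑' i, μ i * C := Summable.tsum_le_tsum h3 h5 h4
  rw [tsum_mul_right, h1.tsum_eq, one_mul] at h2
  exact h2

lemma Tm_add (hμ : ∀ k, 0 ≤ μ k) (h1 : HasSum μ 1) (φ ψ : ℤ → ℝ) (C D : ℝ) (hφ : ∀ k, |φ k| ≤ C)
    (hψ : ∀ k, |ψ k| ≤ D) (k : ℤ) : Tm μ (fun x => φ x + ψ x) k = Tm μ φ k + Tm μ ψ k := by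
  unfold Tm
  rw [← Summable.tsum_add (summable_bdd h1.summable hμ C (fun i => hφ _))
    (summable_bdd h1.summable hμ D (fun i => hψ _))]
  apply tsum_congr
  intro i; ring

lemma Tm_smul (φ : ℤ → ℝ) (r : ℝ) (k : ℤ) : Tm μ (fun x => r * φ x) k = r * Tm μ φ k := by
  unfold Tm
  rw [← tsum_mul_left]
  apply tsum_congr
  intro i; ring

lemma U_bdd (hμ : ∀ k, 0 ≤ μ k) (h1 : HasSum μ 1) (n : ℕ) (φ : ℤ → ℝ) (C : ℝ) (hφ : ∀ k, |φ k| ≤ C) :
    ∀ k, |U μ n φ k| ≤ C := by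
  induction n with
  | zero => rw [U_zero]; exact hφ
  | succ n ih => rw [U_succ hμ h1 n φ C hφ]; exact Tm_bdd hμ h1 _ C ih

lemma U_eigen (hμ : ∀ k, 0 ≤ μ k) (h1 : HasSum μ 1) (φ : ℤ → ℝ) (C : ℝ) (hφ : ∀ k, |φ k| ≤ C)
    (lam η : ℝ) (hlam : |lam| ≤ 1) (hT : ∀ k, |Tm μ φ k - lam * φ k| ≤ η) (n : ℕ) :
    ∀ k, |U μ n φ k - lam ^ n * φ k| ≤ n * η := by
  induction n with
  | zero => intro k; rw [U_zero]; simp
  | succ n ih =>
    intro k
    rw [U_succ hμ h1 n φ C hφ]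
    have hU := U_bdd hμ h1 n φ C hφ
    have e : U μ n φ = fun x => (U μ n φ x - lam ^ n * φ x) + lam ^ n * φ x := by
      funext x; ring
    have hb : ∀ x, |lam ^ n * φ x| ≤ C := by
      intro x
      rw [abs_mul, abs_pow]
      calc |lam| ^ n * |φ x| ≤ 1 * C := by
            apply mul_le_mul (pow_le_one₀ (abs_nonneg _) hlam) (hφ x) (abs_nonneg _) (by norm_num)
        _ = C := one_mul C
    have e2 : Tm μ (U μ n φ) k = Tm μ (fun x => U μ n φ x - lam ^ n * φ x) k + lam ^ n * Tm μ φ k := by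
      conv_lhs => rw [e]
      rw [Tm_add hμ h1 _ _ (n * η) C ih hb, Tm_smul]
    have h2 := Tm_bdd hμ h1 (fun x => U μ n φ x - lam ^ n * φ x) (n * η) ih k
    have e3 : Tm μ (U μ n φ) k - lam ^ (n+1) * φ k =
        Tm μ (fun x => U μ n φ x - lam ^ n * φ x) k + lam ^ n * (Tm μ φ k - lam * φ k) := by
      rw [e2]; ring
    rw [e3]
    refine (abs_add_le _ _).trans ?_
    have h3 : |lam ^ n * (Tm μ φ k - lam * φ k)| ≤ η := by
      rw [abs_mul, abs_pow]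
      calc |lam| ^ n * |Tm μ φ k - lam * φ k| ≤ 1 * η :=
            mul_le_mul (pow_le_one₀ (abs_nonneg _) hlam) (hT k) (abs_nonneg _) (by norm_num)
        _ = η := one_mul η
    push_cast
    linarith

/-- truncation -/
lemma U_trunc (hμ : ∀ k, 0 ≤ μ k) (h1 : HasSum μ 1) (n : ℕ) (ε : ℝ) (hε : 0 < ε) :
    ∃ R₀ : ℕ, ∀ R : ℕ, R₀ ≤ R → ∀ (φ ψ : ℤ → ℝ) (C : ℝ), (∀ k, |φ k| ≤ C) → (∀ k, |ψ k| ≤ C) →
      ∀ k : ℤ, (∀ j : ℤ, |j| < R → φ (k - j) = ψ (k - j)) →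
      |U μ n φ k - U μ n ψ k| ≤ 2 * C * ε := by
  have hp := pw_hasSum hμ h1 n
  have hp0 := pw_nonneg hμ n
  -- tail of pw
  obtain ⟨s, hs⟩ := (summable_iff_vanishing_norm.1 hp.summable) ε hε
  obtain ⟨R₀, hR₀⟩ : ∃ R₀ : ℕ, ∀ j ∈ s, |j| < R₀ := by
    refine ⟨s.sup (fun j => j.natAbs) + 1, ?_⟩
    intro j hj
    have h2 : j.natAbs ≤ s.sup (fun j => j.natAbs) := Finset.le_sup (f := fun j : ℤ => j.natAbs) hj
    rw [Int.abs_eq_natAbs]
    push_cast
    have : (j.natAbs : ℤ) ≤ (s.sup (fun j => j.natAbs) : ℕ) := by exact_mod_cast h2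
    linarith
  refine ⟨R₀, ?_⟩
  intro R hR φ ψ C hφ hψ k hk
  have hC : 0 ≤ C := (abs_nonneg _).trans (hφ 0)
  have hS1 : Summable (fun j => pw μ n j * φ (k - j)) := summable_bdd hp.summable hp0 C (fun j => hφ _)
  have hS2 : Summable (fun j => pw μ n j * ψ (k - j)) := summable_bdd hp.summable hp0 C (fun j => hψ _)
  unfold U
  rw [← hS1.tsum_sub hS2]
  have hS3 : Summable (fun j => pw μ n j * (if |j| < (R:ℤ) then 0 else 1)) := by
    apply summable_bdd hp.summable hp0 1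
    intro j
    split_ifs <;> simp
  have hle : ∀ j, |pw μ n j * φ (k - j) - pw μ n j * ψ (k - j)| ≤
      (pw μ n j * (if |j| < (R:ℤ) then 0 else 1)) * (2 * C) := by
    intro j
    rw [← mul_sub, abs_mul, abs_of_nonneg (hp0 j)]
    split_ifs with h
    · rw [hk j h]; simp
    · rw [mul_one]
      apply mul_le_mul_of_nonneg_left _ (hp0 j)
      have := abs_sub (φ (k - j)) (ψ (k - j))
      have h3 := hφ (k - j)
      have h4 := hψ (k - j)
      calc |φ (k - j) - ψ (k - j)| ≤ |φ (k - j)| + |ψ (k - j)| := abs_sub _ _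
        _ ≤ 2 * C := by linarith
  have hS4 : Summable (fun j => |pw μ n j * φ (k - j) - pw μ n j * ψ (k - j)|) :=
    Summable.of_nonneg_of_le (fun j => abs_nonneg _) hle (hS3.mul_right (2 * C))
  have h5 : |∑' j, (pw μ n j * φ (k - j) - pw μ n j * ψ (k - j))| ≤
      ∑' j, (pw μ n j * (if |j| < (R:ℤ) then 0 else 1)) * (2 * C) := by
    calc |∑' j, (pw μ n j * φ (k - j) - pw μ n j * ψ (k - j))|
        ≤ ∑' j, |pw μ n j * φ (k - j) - pw μ n j * ψ (k - j)| := by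
          have := norm_tsum_le_tsum_norm (f := fun j => pw μ n j * φ (k - j) - pw μ n j * ψ (k - j))
            (by simpa using hS4)
          simpa using this
      _ ≤ _ := Summable.tsum_le_tsum hle hS4 (hS3.mul_right (2 * C))
  rw [tsum_mul_right] at h5
  have h6 : ∑' j, pw μ n j * (if |j| < (R:ℤ) then 0 else 1) ≤ ε := by
    apply Summable.tsum_le_of_sum_le hS3
    intro t
    have h7 := hs (t.filter (fun j => ¬ |j| < (R:ℤ))) (by
      rw [Finset.disjoint_left]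
      intro j hj hjs
      have := hR₀ j hjs
      rw [Finset.mem_filter] at hj
      apply hj.2
      have h8 : (R₀ : ℤ) ≤ R := by exact_mod_cast hR
      linarith)
    have h8 : ∑ j ∈ t, pw μ n j * (if |j| < (R:ℤ) then 0 else 1) =
        ∑ j ∈ t.filter (fun j => ¬ |j| < (R:ℤ)), pw μ n j := by
      rw [Finset.sum_filter]
      apply Finset.sum_congr rfl
      intro j _
      by_cases h : |j| < (R:ℤ) <;> simp [h]
    rw [h8]
    exact ((le_abs_self _).trans (by simpa using h7.le))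
  calc _ ≤ _ := h5
    _ ≤ ε * (2 * C) := by
        apply mul_le_mul_of_nonneg_right h6; linarith
    _ = 2 * C * ε := by ring

end Pool.Agent.H822.SF
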