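import Mathlib
import Pool.Agent.H822.SF1

set_option autoImplicit false

/-!
# A lazy symmetric lacunary measure
-/

namespace Pool.Agent.H822.SF

/-- the measure with mass `1/2` at `0` and mass `p k / 4` at `±2^(g k)` -/
noncomputable def muF (p : ℕ → ℝ) (g : ℕ → ℕ) : ℤ → ℝ := fun x =>
  (if x = 0 then (1/2 : ℝ) else 0) +
    Function.extend (fun k : ℕ => (2:ℤ)^(g k)) (fun k => p k / 4) 0 x +
    Function.extend (fun k : ℕ => -(2:ℤ)^(g k)) (fun k => p k / 4) 0 x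

lemma ext_hasSum {F : Type*} [NormedAddCommGroup F] [NormedSpace ℝ F] {a : ℕ → ℤ}
    (ha : Function.Injective a) (c : ℕ → ℝ) (φ : ℤ → F) (s : F)
    (h : HasSum (fun k => c k • φ (a k)) s) :
    HasSum (fun x => Function.extend a c 0 x • φ x) s := by
  rw [← ha.hasSum_iff]
  · convert h using 1
    funext k
    simp only [Function.comp_apply, ha.extend_apply]
  · intro x hx
    rw [Function.extend_apply' _ _ _ (by simpa using hx)]
    simp

lemma ext_nonneg {a : ℕ → ℤ} (ha : Function.Injective a) (c : ℕ → ℝ) (hc : ∀ k, 0 ≤ c k) (x : ℤ) :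
    0 ≤ Function.extend a c 0 x := by
  by_cases h : ∃ k, a k = x
  · obtain ⟨k, rfl⟩ := h
    rw [ha.extend_apply]; exact hc k
  · rw [Function.extend_apply' _ _ _ h]
    simp

variable {p : ℕ → ℝ} {g : ℕ → ℕ}

lemma inj_pos (hg : StrictMono g) : Function.Injective (fun k : ℕ => (2:ℤ)^(g k)) := by
  intro a b hab
  have : g a = g b := by
    apply Nat.pow_right_injective (le_refl 2)
    dsimp only at hab ⊢
    exact_mod_cast hab
  exact hg.injective this

lemma inj_neg (hg : StrictMono g) : Function.Injective (fun k : ℕ => -(2:ℤ)^(g k)) := by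
  intro a b hab
  exact inj_pos hg (by simpa using hab)

lemma mu_nonneg (hp : ∀ k, 0 ≤ p k) (hg : StrictMono g) : ∀ x, 0 ≤ muF p g x := by
  intro x
  unfold muF
  have h1 := ext_nonneg (inj_pos hg) (fun k => p k / 4) (fun k => by have := hp k; positivity) x
  have h2 := ext_nonneg (inj_neg hg) (fun k => p k / 4) (fun k => by have := hp k; positivity) x
  have h3 : (0:ℝ) ≤ (if x = 0 then (1/2 : ℝ) else 0) := by split_ifs <;> norm_num
  linarith

lemma mu_hasSum {F : Type*} [NormedAddCommGroup F] [NormedSpace ℝ F] [CompleteSpace F]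
    (hp : ∀ k, 0 ≤ p k) (hp1 : HasSum p 1) (hg : StrictMono g) (φ : ℤ → F) (C : ℝ)
    (hφ : ∀ x, ‖φ x‖ ≤ C) :
    HasSum (fun x => muF p g x • φ x)
      ((1/2 : ℝ) • φ 0 + ∑' k, (p k / 4) • (φ ((2:ℤ)^(g k)) + φ (-(2:ℤ)^(g k)))) := by
  have hs : ∀ a : ℕ → ℤ, Summable (fun k => (p k / 4) • φ (a k)) := by
    intro a
    apply Summable.of_norm_bounded (g := fun k => p k * (C / 4)) (hp1.summable.mul_right _)
    intro k
    rw [norm_smul, Real.norm_eq_abs, abs_of_nonneg (by have := hp k; positivity)]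
    calc p k / 4 * ‖φ (a k)‖ ≤ p k / 4 * C := by
          apply mul_le_mul_of_nonneg_left (hφ _); have := hp k; positivity
      _ = p k * (C / 4) := by ring
  have h1 : HasSum (fun x => (if x = (0:ℤ) then (1/2 : ℝ) else 0) • φ x) ((1/2 : ℝ) • φ 0) := by
    have := hasSum_single (f := fun x => (if x = (0:ℤ) then (1/2 : ℝ) else 0) • φ x) 0 (by
      intro x hx; simp [hx])
    simpa using this
  have h2 := ext_hasSum (inj_pos hg) (fun k => p k / 4) φ _ (hs (fun k => (2:ℤ)^(g k))).hasSum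
  have h3 := ext_hasSum (inj_neg hg) (fun k => p k / 4) φ _ (hs (fun k => -(2:ℤ)^(g k))).hasSum
  have h4 := (h1.add h2).add h3
  have e1 : (fun x => muF p g x • φ x) = fun x => ((if x = (0:ℤ) then (1/2 : ℝ) else 0) • φ x +
      Function.extend (fun k : ℕ => (2:ℤ)^(g k)) (fun k => p k / 4) 0 x • φ x) +
      Function.extend (fun k : ℕ => -(2:ℤ)^(g k)) (fun k => p k / 4) 0 x • φ x := by
    funext x
    unfold muF
    rw [add_smul, add_smul]
  rw [e1]
  convert h4 using 1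
  rw [add_assoc, ← Summable.tsum_add (hs _) (hs _)]
  congr 1
  apply tsum_congr
  intro k
  rw [smul_add]

lemma mu_one (hp : ∀ k, 0 ≤ p k) (hp1 : HasSum p 1) (hg : StrictMono g) : HasSum (muF p g) 1 := by
  have h := mu_hasSum hp hp1 hg (fun _ => (1:ℝ)) 1 (by intro x; simp)
  have e : (∑' k, (p k / 4) • ((1:ℝ) + 1)) = 1/2 := by
    have : (fun k => (p k / 4) • ((1:ℝ) + 1)) = fun k => p k * (1/2) := by
      funext k; simp only [smul_eq_mul]; ring
    rw [this, tsum_mul_right, hp1.tsum_eq]; norm_num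
  rw [e] at h
  simp only [smul_eq_mul, mul_one] at h
  norm_num at h
  exact h

/-- Fourier transform -/
lemma mu_fourier (hp : ∀ k, 0 ≤ p k) (hp1 : HasSum p 1) (hg : StrictMono g) (t : ℝ) :
    ∑' k : ℤ, (muF p g k : ℂ) * Complex.exp (((t * (k : ℝ) : ℝ) : ℂ) * Complex.I) =
      ((1/2 + ∑' k, p k * ((1/2) * Real.cos (t * (2:ℝ)^(g k))) : ℝ) : ℂ) := by
  have h := mu_hasSum hp hp1 hg
    (fun x : ℤ => Complex.exp (((t * (x : ℝ) : ℝ) : ℂ) * Complex.I)) 1 (by
      intro x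
      rw [Complex.norm_exp_ofReal_mul_I])
  have e1 : (fun k : ℤ => (muF p g k : ℂ) * Complex.exp (((t * (k : ℝ) : ℝ) : ℂ) * Complex.I)) =
      (fun k : ℤ => muF p g k • Complex.exp (((t * (k : ℝ) : ℝ) : ℂ) * Complex.I)) := by
    funext k; rw [Complex.real_smul]
  rw [e1, h.tsum_eq]
  rw [Complex.ofReal_add, Complex.ofReal_tsum]
  congr 1
  · simp
  · apply tsum_congr
    intro k
    have e2 : Complex.exp (((t * ((((2:ℤ)^(g k)) : ℤ) : ℝ) : ℝ) : ℂ) * Complex.I) +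
        Complex.exp (((t * ((-(2:ℤ)^(g k) : ℤ) : ℝ) : ℝ) : ℂ) * Complex.I) =
        2 * ((Real.cos (t * (2:ℝ)^(g k)) : ℝ) : ℂ) := by
      rw [Complex.ofReal_cos, Complex.two_cos]
      congr 1
      · push_cast; ring_nf
      · push_cast; ring_nf
    rw [e2, Complex.real_smul]
    push_cast
    ring

lemma mu_fourier_bounds (hp : ∀ k, 0 < p k) (hp1 : HasSum p 1) (hg : StrictMono g) (hg0 : g 0 = 0)
    (t : ℝ) (ht : 0 < |t|) (ht2 : |t| ≤ Real.pi) :
    0 ≤ (1/2 + ∑' k, p k * ((1/2) * Real.cos (t * (2:ℝ)^(g k)))) ∧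
    (1/2 + ∑' k, p k * ((1/2) * Real.cos (t * (2:ℝ)^(g k)))) < 1 := by
  have hs : Summable (fun k => p k * ((1/2) * Real.cos (t * (2:ℝ)^(g k)))) := by
    apply Summable.of_norm_bounded (g := fun k => p k * (1/2)) (hp1.summable.mul_right _)
    intro k
    rw [Real.norm_eq_abs, abs_mul, abs_of_pos (hp k), abs_mul]
    apply mul_le_mul_of_nonneg_left _ (hp k).le
    have := Real.abs_cos_le_one (t * (2:ℝ)^(g k))
    rw [abs_of_pos (by norm_num : (0:ℝ) < 1/2)]
    linarith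
  have hs2 : HasSum (fun k => p k * (1/2)) (1 * (1/2)) := hp1.mul_right _
  constructor
  · have h1 : ∑' k, (- (p k * (1/2))) ≤ ∑' k, p k * ((1/2) * Real.cos (t * (2:ℝ)^(g k))) := by
      apply Summable.tsum_le_tsum _ hs2.summable.neg hs
      intro k
      have := Real.neg_one_le_cos (t * (2:ℝ)^(g k))
      have h2 := hp k
      nlinarith
    rw [tsum_neg, hs2.tsum_eq] at h1
    linarith
  · have h1 : ∑' k, p k * ((1/2) * Real.cos (t * (2:ℝ)^(g k))) < ∑' k, p k * (1/2) := by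
      apply Summable.tsum_lt_tsum (i := 0) _ _ hs hs2.summable
      · intro k
        have := Real.cos_le_one (t * (2:ℝ)^(g k))
        have h2 := hp k
        nlinarith
      · rw [hg0, pow_zero, mul_one]
        have h3 : Real.cos t < 1 := by
          rw [← Real.cos_abs]
          have := Real.cos_lt_cos_of_nonneg_of_le_pi (le_refl 0) ht2 ht
          simpa using this
        have h2 := hp 0
        nlinarith
    rw [hs2.tsum_eq] at h1
    linarith

lemma mu_bar1 (hp : ∀ k, 0 < p k) (hp1 : HasSum p 1) (hg : StrictMono g) (hg0 : g 0 = 0)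
    (t : ℝ) (ht : 0 < |t|) (ht2 : |t| ≤ Real.pi) :
    ‖∑' k : ℤ, (muF p g k : ℂ) * Complex.exp (((t * (k : ℝ) : ℝ) : ℂ) * Complex.I)‖ < 1 := by
  rw [mu_fourier (fun k => (hp k).le) hp1 hg]
  obtain ⟨h1, h2⟩ := mu_fourier_bounds hp hp1 hg hg0 t ht ht2
  rw [Complex.norm_real, Real.norm_eq_abs, abs_of_nonneg h1]
  exact h2

lemma mu_bar2 (hp : ∀ k, 0 < p k) (hp1 : HasSum p 1) (hg : StrictMono g) (hg0 : g 0 = 0)
    (t : ℝ) (ht : 0 < |t|) (ht2 : |t| ≤ Real.pi) :
    ‖1 - ∑' k : ℤ, (muF p g k : ℂ) * Complex.exp (((t * (k : ℝ) : ℝ) : ℂ) * Complex.I)‖ ≤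
      1 * (1 - ‖∑' k : ℤ, (muF p g k : ℂ) * Complex.exp (((t * (k : ℝ) : ℝ) : ℂ) * Complex.I)‖) := by
  rw [mu_fourier (fun k => (hp k).le) hp1 hg]
  obtain ⟨h1, h2⟩ := mu_fourier_bounds hp hp1 hg hg0 t ht ht2
  rw [Complex.norm_real, Real.norm_eq_abs, abs_of_nonneg h1, one_mul]
  rw [← Complex.ofReal_one, ← Complex.ofReal_sub, Complex.norm_real, Real.norm_eq_abs,
    abs_of_nonneg (by linarith)]

lemma Tm_mu (hp : ∀ k, 0 ≤ p k) (hp1 : HasSum p 1) (hg : StrictMono g) (φ : ℤ → ℝ) (C : ℝ)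
    (hφ : ∀ x, |φ x| ≤ C) (m : ℤ) :
    Tm (muF p g) φ m = (1/2) * φ m + ∑' k, (p k / 4) * (φ (m - (2:ℤ)^(g k)) + φ (m + (2:ℤ)^(g k))) := by
  have h := mu_hasSum hp hp1 hg (fun x => φ (m - x)) C (by intro x; exact hφ _)
  unfold Tm
  simp only [smul_eq_mul, sub_zero, sub_neg_eq_add] at h
  exact h.tsum_eq

/-- the characters -/
noncomputable def cc (g : ℕ → ℕ) (k : ℕ) (x : ℤ) : ℝ := Real.cos (Real.pi * (x:ℝ) / (2:ℝ)^(g k))

/-- products of characters -/
noncomputable def rr (g : ℕ → ℕ) (S : Finset ℕ) (x : ℤ) : ℝ := ∏ k ∈ S, cc g k x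

lemma cc_abs (k : ℕ) (x : ℤ) : |cc g k x| ≤ 1 := Real.abs_cos_le_one _

lemma rr_abs (S : Finset ℕ) (x : ℤ) : |rr g S x| ≤ 1 := by
  unfold rr
  rw [Finset.abs_prod]
  apply Finset.prod_le_one
  · intro i _; exact abs_nonneg _
  · intro i _; exact cc_abs i x

lemma prod_diff (s : Finset ℕ) (a b : ℕ → ℝ) (δ : ℝ) (ha : ∀ k ∈ s, |a k| ≤ 1)
    (hb : ∀ k ∈ s, |b k| ≤ 1) (hab : ∀ k ∈ s, |a k - b k| ≤ δ) :
    |∏ k ∈ s, a k - ∏ k ∈ s, b k| ≤ s.card * δ := by
  induction s using Finset.induction_on with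
  | empty => simp
  | insert i s hi ih =>
    rw [Finset.prod_insert hi, Finset.prod_insert hi, Finset.card_insert_of_notMem hi]
    have h1 := ih (fun k hk => ha k (Finset.mem_insert_of_mem hk))
      (fun k hk => hb k (Finset.mem_insert_of_mem hk)) (fun k hk => hab k (Finset.mem_insert_of_mem hk))
    have e : a i * ∏ k ∈ s, a k - b i * ∏ k ∈ s, b k =
        (a i - b i) * ∏ k ∈ s, a k + b i * (∏ k ∈ s, a k - ∏ k ∈ s, b k) := by ring
    rw [e]
    refine (abs_add_le _ _).trans ?_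
    rw [abs_mul, abs_mul]
    have h2 : |∏ k ∈ s, a k| ≤ 1 := by
      rw [Finset.abs_prod]
      apply Finset.prod_le_one
      · intro i _; exact abs_nonneg _
      · intro k hk; exact ha k (Finset.mem_insert_of_mem hk)
    have h3 := hab i (Finset.mem_insert_self _ _)
    have h4 := hb i (Finset.mem_insert_self _ _)
    have h5 : |a i - b i| * |∏ k ∈ s, a k| ≤ δ * 1 :=
      mul_le_mul h3 h2 (abs_nonneg _) ((abs_nonneg _).trans h3)
    have h6 : |b i| * |∏ k ∈ s, a k - ∏ k ∈ s, b k| ≤ 1 * (s.card * δ) :=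
      mul_le_mul h4 h1 (abs_nonneg _) (by norm_num)
    push_cast
    linarith

/-- effect of a shift by `±2^(g i)` on a character -/
lemma cc_shift (hg : StrictMono g) (k i : ℕ) (δ : ℝ) (hδ0 : 0 ≤ δ)
    (hδ : ∀ j, j < k → Real.pi * (2:ℝ)^(g j) / (2:ℝ)^(g k) ≤ δ) (x : ℤ) (s : ℤ) (hs : s = 1 ∨ s = -1) :
    |cc g k (x + s * (2:ℤ)^(g i)) - (if i = k then -1 else 1) * cc g k x| ≤ δ := by
  have hpow : (0:ℝ) < (2:ℝ)^(g k) := by positivity
  have e0 : Real.pi * ((x + s * (2:ℤ)^(g i) : ℤ) : ℝ) / (2:ℝ)^(g k) =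
      Real.pi * (x:ℝ) / (2:ℝ)^(g k) + (s:ℝ) * (Real.pi * (2:ℝ)^(g i) / (2:ℝ)^(g k)) := by
    push_cast; ring
  rcases lt_trichotomy i k with h | h | h
  · rw [if_neg (by omega), one_mul]
    unfold cc
    rw [e0]
    have h1 := hδ i h
    set a := Real.pi * (x:ℝ) / (2:ℝ)^(g k) with ha
    set b := Real.pi * (2:ℝ)^(g i) / (2:ℝ)^(g k) with hb
    have hb0 : 0 ≤ b := by rw [hb]; positivity
    have h2 : |Real.cos (a + s * b) - Real.cos a| ≤ |a + s * b - a| := Real.abs_cos_sub_cos_le _ _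
    refine h2.trans ?_
    have h3 : |a + s * b - a| = b := by
      have : a + s * b - a = s * b := by ring
      rw [this, abs_mul, abs_of_nonneg hb0]
      rcases hs with h | h <;> simp [h]
    rw [h3]; exact h1
  · subst h
    rw [if_pos rfl]
    unfold cc
    rw [e0]
    have e1 : (s:ℝ) * (Real.pi * (2:ℝ)^(g i) / (2:ℝ)^(g i)) = s * Real.pi := by
      field_simp
    rw [e1]
    have e2 : Real.cos (Real.pi * (x:ℝ) / (2:ℝ)^(g i) + s * Real.pi) = - Real.cos (Real.pi * (x:ℝ) / (2:ℝ)^(g i)) := by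
      rcases hs with h | h
      · rw [h]; push_cast; rw [one_mul, Real.cos_add_pi]
      · rw [h]; push_cast
        have : Real.pi * (x:ℝ) / (2:ℝ)^(g i) + -1 * Real.pi = Real.pi * (x:ℝ) / (2:ℝ)^(g i) - Real.pi := by ring
        rw [this, Real.cos_sub_pi]
    rw [e2]
    simpa using hδ0
  · rw [if_neg (by omega), one_mul]
    unfold cc
    rw [e0]
    have hlt := hg h
    obtain ⟨r, hr⟩ : ∃ r, g i = g k + 1 + r := ⟨g i - (g k + 1), by omega⟩
    have e1 : (s:ℝ) * (Real.pi * (2:ℝ)^(g i) / (2:ℝ)^(g k)) = ((s * 2^r : ℤ) : ℝ) * (2 * Real.pi) := by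
      rw [hr, pow_add, pow_add]
      push_cast
      field_simp
    rw [e1, Real.cos_add_int_mul_two_pi]
    simpa using hδ0

lemma rr_shift (hg : StrictMono g) (S : Finset ℕ) (i : ℕ) (δ : ℝ) (hδ0 : 0 ≤ δ)
    (hδ : ∀ k ∈ S, ∀ j, j < k → Real.pi * (2:ℝ)^(g j) / (2:ℝ)^(g k) ≤ δ) (x : ℤ) (s : ℤ)
    (hs : s = 1 ∨ s = -1) :
    |rr g S (x + s * (2:ℤ)^(g i)) - (if i ∈ S then -1 else 1) * rr g S x| ≤ S.card * δ := by
  have h := prod_diff S (fun k => cc g k (x + s * (2:ℤ)^(g i)))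
    (fun k => (if i = k then -1 else 1) * cc g k x) δ (fun k _ => cc_abs k _)
    (fun k _ => by
      have := cc_abs (g := g) k x
      rw [abs_mul]
      split_ifs <;> simpa using this)
    (fun k hk => cc_shift hg k i δ hδ0 (hδ k hk) x s hs)
  rw [Finset.prod_mul_distrib, Finset.prod_ite_eq] at h
  exact h

lemma hasSum_sign (hp1 : HasSum p 1) (S : Finset ℕ) :
    HasSum (fun k => p k * (if k ∈ S then (-1:ℝ) else 1)) (1 - 2 * ∑ k ∈ S, p k) := by
  have h1 : HasSum (fun k => if k ∈ S then p k else 0) (∑ k ∈ S, p k) := by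
    have h3 : HasSum (fun k => if k ∈ S then p k else 0) (∑ k ∈ S, if k ∈ S then p k else 0) :=
      hasSum_sum_of_ne_finset_zero (by intro k hk; simp [hk])
    have e : (∑ k ∈ S, if k ∈ S then p k else 0) = ∑ k ∈ S, p k := by
      apply Finset.sum_congr rfl
      intro k hk; simp [hk]
    rw [e] at h3
    exact h3
  have h2 := hp1.sub (h1.mul_left 2)
  have e : (fun k => p k * (if k ∈ S then (-1:ℝ) else 1)) = fun k => p k - 2 * (if k ∈ S then p k else 0) := by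
    funext k
    split_ifs <;> ring
  rw [e]
  exact h2

lemma T_rr (hp : ∀ k, 0 ≤ p k) (hp1 : HasSum p 1) (hg : StrictMono g) (S : Finset ℕ) (δ : ℝ)
    (hδ0 : 0 ≤ δ) (hδ : ∀ k ∈ S, ∀ j, j < k → Real.pi * (2:ℝ)^(g j) / (2:ℝ)^(g k) ≤ δ) (x : ℤ) :
    |Tm (muF p g) (rr g S) x - (1 - ∑ k ∈ S, p k) * rr g S x| ≤ S.card * δ := by
  rw [Tm_mu hp hp1 hg (rr g S) 1 (rr_abs S)]
  have hs : Summable (fun k => (p k / 4) * (rr g S (x - (2:ℤ)^(g k)) + rr g S (x + (2:ℤ)^(g k)))) := by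
    apply Summable.of_norm_bounded (g := fun k => p k * (1/2)) (hp1.summable.mul_right _)
    intro k
    rw [Real.norm_eq_abs, abs_mul, abs_of_nonneg (by have := hp k; positivity : 0 ≤ p k / 4)]
    have h1 := abs_add_le (rr g S (x - (2:ℤ)^(g k))) (rr g S (x + (2:ℤ)^(g k)))
    have h2 := rr_abs (g := g) S (x - (2:ℤ)^(g k))
    have h3 := rr_abs (g := g) S (x + (2:ℤ)^(g k))
    have h4 := hp k
    calc p k / 4 * |rr g S (x - (2:ℤ)^(g k)) + rr g S (x + (2:ℤ)^(g k))| ≤ p k / 4 * 2 := by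
          apply mul_le_mul_of_nonneg_left _ (by positivity); linarith
      _ = p k * (1/2) := by ring
  have h2 := (hasSum_sign hp1 S).mul_right ((1/2) * rr g S x)
  have h3 := hs.hasSum.sub h2
  have h4 := h3.norm_le_of_bounded (hp1.mul_right (S.card * δ)) (by
    intro k
    have e : p k / 4 * (rr g S (x - (2:ℤ)^(g k)) + rr g S (x + (2:ℤ)^(g k))) -
        p k * (if k ∈ S then (-1:ℝ) else 1) * ((1/2) * rr g S x) =
        p k / 4 * ((rr g S (x + (-1) * (2:ℤ)^(g k)) - (if k ∈ S then (-1:ℝ) else 1) * rr g S x) +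
        (rr g S (x + 1 * (2:ℤ)^(g k)) - (if k ∈ S then (-1:ℝ) else 1) * rr g S x)) := by
      rw [one_mul, neg_one_mul, ← sub_eq_add_neg]
      ring
    rw [e, Real.norm_eq_abs, abs_mul, abs_of_nonneg (by have := hp k; positivity : 0 ≤ p k / 4)]
    have h5 := rr_shift hg S k δ hδ0 hδ x (-1) (Or.inr rfl)
    have h6 := rr_shift hg S k δ hδ0 hδ x 1 (Or.inl rfl)
    have h7 := abs_add_le (rr g S (x + (-1) * (2:ℤ)^(g k)) - (if k ∈ S then (-1:ℝ) else 1) * rr g S x)
      (rr g S (x + 1 * (2:ℤ)^(g k)) - (if k ∈ S then (-1:ℝ) else 1) * rr g S x)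
    have h8 : 0 ≤ (S.card : ℝ) * δ := by positivity
    calc _ ≤ p k / 4 * (2 * (S.card * δ)) := by
          apply mul_le_mul_of_nonneg_left _ (by have := hp k; positivity)
          linarith
      _ ≤ p k * (S.card * δ) := by
          have := mul_nonneg (hp k) h8
          nlinarith)
  rw [Real.norm_eq_abs, one_mul] at h4
  refine le_trans (le_of_eq ?_) h4
  congr 1
  ring

end Pool.Agent.H822.SF
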