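import Mathlib
import Pool.Agent.H822.SF2

set_option autoImplicit false

/-!
# Moments over a period
-/

namespace Pool.Agent.H822.SF

/-- sum over a period -/
noncomputable def EE (P : ℕ) (φ : ℤ → ℝ) : ℝ := ∑ x ∈ Finset.range P, φ x

lemma EE_add (P : ℕ) (φ ψ : ℤ → ℝ) : EE P (fun x => φ x + ψ x) = EE P φ + EE P ψ := by
  unfold EE; rw [Finset.sum_add_distrib]

lemma EE_smul (P : ℕ) (r : ℝ) (φ : ℤ → ℝ) : EE P (fun x => r * φ x) = r * EE P φ := by
  unfold EE; rw [Finset.mul_sum]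

lemma EE_mono (P : ℕ) (φ ψ : ℤ → ℝ) (h : ∀ x, φ x ≤ ψ x) : EE P φ ≤ EE P ψ :=
  Finset.sum_le_sum (fun x _ => h x)

lemma EE_const (P : ℕ) (r : ℝ) : EE P (fun _ => r) = P * r := by
  unfold EE; simp

/-- `φ` has period `2^m` -/
def Per (m : ℕ) (φ : ℤ → ℝ) : Prop := ∀ x, φ (x + 2^m) = φ x

lemma Per.mul_nat {m : ℕ} {φ : ℤ → ℝ} (h : Per m φ) (r : ℕ) (x : ℤ) : φ (x + r * 2^m) = φ x := by
  induction r with
  | zero => simp
  | succ r ih =>
    have e : x + ((r+1 : ℕ) : ℤ) * 2^m = (x + r * 2^m) + 2^m := by push_cast; ring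
    rw [e, h, ih]

lemma Per.mono {m m' : ℕ} {φ : ℤ → ℝ} (h : Per m φ) (hm : m ≤ m') : Per m' φ := by
  intro x
  obtain ⟨r, rfl⟩ := Nat.exists_eq_add_of_le hm
  have := h.mul_nat (2^r) x
  rw [pow_add]
  push_cast at this
  rw [mul_comm]
  exact this

lemma Per.mul {m : ℕ} {φ ψ : ℤ → ℝ} (h : Per m φ) (h' : Per m ψ) : Per m (fun x => φ x * ψ x) := by
  intro x; dsimp only; rw [h, h']

lemma Per.add {m : ℕ} {φ ψ : ℤ → ℝ} (h : Per m φ) (h' : Per m ψ) : Per m (fun x => φ x + ψ x) := by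
  intro x; dsimp only; rw [h, h']

lemma Per.pow {m : ℕ} {φ : ℤ → ℝ} (h : Per m φ) (r : ℕ) : Per m (fun x => φ x ^ r) := by
  intro x; dsimp only; rw [h]

lemma Per.smul {m : ℕ} {φ : ℤ → ℝ} (h : Per m φ) (r : ℝ) : Per m (fun x => r * φ x) := by
  intro x; dsimp only; rw [h]

lemma Per.sum {ι : Type*} {m : ℕ} {φ : ι → ℤ → ℝ} (s : Finset ι) (h : ∀ i ∈ s, Per m (φ i)) :
    Per m (fun x => ∑ i ∈ s, φ i x) := by
  intro x; dsimp only
  exact Finset.sum_congr rfl (fun i hi => h i hi x)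

lemma Per.prod {ι : Type*} {m : ℕ} {φ : ι → ℤ → ℝ} (s : Finset ι) (h : ∀ i ∈ s, Per m (φ i)) :
    Per m (fun x => ∏ i ∈ s, φ i x) := by
  intro x; dsimp only
  exact Finset.prod_congr rfl (fun i hi => h i hi x)

lemma EE_shift {M : ℕ} {φ : ℤ → ℝ} (h : Per M φ) (t : ℕ) :
    EE (2^M) (fun x => φ (x + t)) = EE (2^M) φ := by
  induction t with
  | zero => simp
  | succ t ih =>
    rw [← ih]
    unfold EE
    have e1 := Finset.sum_range_succ' (fun n : ℕ => φ ((n:ℤ) + t)) (2^M)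
    have e2 := Finset.sum_range_succ (fun n : ℕ => φ ((n:ℤ) + t)) (2^M)
    have e3 : φ (((2^M : ℕ) : ℤ) + t) = φ (((0:ℕ):ℤ) + t) := by
      have := h t
      push_cast
      rw [zero_add, add_comm]
      exact this
    rw [e1] at e2
    rw [e3] at e2
    have e4 : ∑ x ∈ Finset.range (2^M), φ ((x:ℤ) + ((t+1 : ℕ):ℤ)) =
        ∑ x ∈ Finset.range (2^M), φ (((x+1 : ℕ):ℤ) + t) := by
      apply Finset.sum_congr rfl
      intro x _
      congr 1
      push_cast; ring
    rw [e4]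
    linarith

variable {g : ℕ → ℕ}

lemma cc_per (k : ℕ) : Per (g k + 1) (cc g k) := by
  intro x
  unfold cc
  have e : Real.pi * ((x + 2^(g k + 1) : ℤ) : ℝ) / (2:ℝ)^(g k) = Real.pi * (x:ℝ) / (2:ℝ)^(g k) + 2 * Real.pi := by
    push_cast; rw [pow_succ]; field_simp
  rw [e, Real.cos_add_two_pi]

lemma cc_half (k : ℕ) (x : ℤ) : cc g k (x + ((2^(g k) : ℕ) : ℤ)) = - cc g k x := by
  unfold cc
  have e : Real.pi * ((x + ((2^(g k) : ℕ) : ℤ) : ℤ) : ℝ) / (2:ℝ)^(g k) = Real.pi * (x:ℝ) / (2:ℝ)^(g k) + Real.pi := by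
    push_cast; field_simp
  rw [e, Real.cos_add_pi]

lemma cc_quarter (k : ℕ) (hk : 1 ≤ g k) (x : ℤ) :
    cc g k (x + ((2^(g k - 1) : ℕ) : ℤ)) ^ 2 = 1 - cc g k x ^ 2 := by
  unfold cc
  have e : Real.pi * ((x + ((2^(g k - 1) : ℕ) : ℤ) : ℤ) : ℝ) / (2:ℝ)^(g k) = Real.pi * (x:ℝ) / (2:ℝ)^(g k) + Real.pi / 2 := by
    obtain ⟨r, hr⟩ : ∃ r, g k = r + 1 := ⟨g k - 1, by omega⟩
    rw [hr, Nat.add_sub_cancel, pow_succ]
    push_cast; field_simp
  rw [e, Real.cos_add_pi_div_two, neg_sq, Real.sin_sq]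

lemma EE_c1 {M k m : ℕ} {φ : ℤ → ℝ} (h : Per m φ) (hm : m ≤ g k) (hM : g k + 1 ≤ M) :
    EE (2^M) (fun x => φ x * cc g k x) = 0 := by
  have hp : Per M (fun x => φ x * cc g k x) :=
    (h.mono (by omega)).mul ((cc_per k).mono hM)
  have h1 := EE_shift hp (2^(g k))
  have h2 : EE (2^M) (fun x => φ (x + ((2^(g k) : ℕ) : ℤ)) * cc g k (x + ((2^(g k) : ℕ) : ℤ))) =
      - EE (2^M) (fun x => φ x * cc g k x) := by
    have : (fun x : ℤ => φ (x + ((2^(g k) : ℕ) : ℤ)) * cc g k (x + ((2^(g k) : ℕ) : ℤ))) =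
        fun x => (-1) * (φ x * cc g k x) := by
      funext x
      rw [cc_half]
      have e := (h.mono hm) x
      push_cast
      rw [e]; ring
    rw [this, EE_smul]; ring
  rw [h2] at h1
  linarith

lemma EE_c3 {M k m : ℕ} {φ : ℤ → ℝ} (h : Per m φ) (hm : m ≤ g k) (hM : g k + 1 ≤ M) :
    EE (2^M) (fun x => φ x * cc g k x ^ 3) = 0 := by
  have hp : Per M (fun x => φ x * cc g k x ^ 3) :=
    (h.mono (by omega)).mul (((cc_per k).mono hM).pow 3)
  have h1 := EE_shift hp (2^(g k))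
  have h2 : EE (2^M) (fun x => φ (x + ((2^(g k) : ℕ) : ℤ)) * cc g k (x + ((2^(g k) : ℕ) : ℤ)) ^ 3) =
      - EE (2^M) (fun x => φ x * cc g k x ^ 3) := by
    have : (fun x : ℤ => φ (x + ((2^(g k) : ℕ) : ℤ)) * cc g k (x + ((2^(g k) : ℕ) : ℤ)) ^ 3) =
        fun x => (-1) * (φ x * cc g k x ^ 3) := by
      funext x
      rw [cc_half]
      have e := (h.mono hm) x
      push_cast
      rw [e]; ring
    rw [this, EE_smul]; ring
  rw [h2] at h1
  linarith

lemma EE_c2 {M k m : ℕ} {φ : ℤ → ℝ} (h : Per m φ) (hm : m + 1 ≤ g k) (hM : g k + 1 ≤ M) :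
    EE (2^M) (fun x => φ x * cc g k x ^ 2) = (1/2) * EE (2^M) φ := by
  have hp : Per M (fun x => φ x * cc g k x ^ 2) :=
    (h.mono (by omega)).mul (((cc_per k).mono hM).pow 2)
  have h1 := EE_shift hp (2^(g k - 1))
  have h2 : EE (2^M) (fun x => φ (x + ((2^(g k - 1) : ℕ) : ℤ)) * cc g k (x + ((2^(g k - 1) : ℕ) : ℤ)) ^ 2) =
      EE (2^M) φ + (-1) * EE (2^M) (fun x => φ x * cc g k x ^ 2) := by
    rw [← EE_smul, ← EE_add]
    congr 1
    funext x
    rw [cc_quarter k (by omega)]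
    have e := (h.mono (by omega : m ≤ g k - 1)) x
    push_cast
    rw [e]; ring
  rw [h2] at h1
  linarith

/-- growth condition -/
def Lac (g : ℕ → ℕ) : Prop := ∀ j k, j < k → g j + 2 ≤ g k

lemma cc_per_lt (hg : Lac g) {j k : ℕ} (h : j < k) : Per (g k - 1) (cc g j) :=
  (cc_per j).mono (by have := hg j k h; omega)

lemma rr_per_lt (hg : Lac g) {S : Finset ℕ} {k : ℕ} (h : ∀ j ∈ S, j < k) : Per (g k - 1) (rr g S) :=
  Per.prod S (fun j hj => cc_per_lt hg (h j hj))

/-- orthogonality -/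
lemma orth (hg : Lac g) (M : ℕ) (S : Finset ℕ) (hS : ∀ k ∈ S, 1 ≤ k ∧ g k + 1 ≤ M)
    (α : Finset ℕ → ℝ) :
    EE (2^M) (fun x => (∑ A ∈ S.powerset, α A * rr g A x) ^ 2) =
      (2^M) * ∑ A ∈ S.powerset, α A ^ 2 * (1/2)^A.card := by
  induction S using Finset.induction_on_max generalizing α with
  | empty =>
    simp only [Finset.powerset_empty, Finset.sum_singleton, Finset.card_empty, pow_zero, mul_one]
    have : (fun x : ℤ => (α ∅ * rr g ∅ x) ^ 2) = fun _ => α ∅ ^ 2 := by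
      funext x; simp [rr]
    rw [this, EE_const]
    push_cast; ring
  | insert a S ha ih =>
    have haS : a ∉ S := fun h => lt_irrefl _ (ha a h)
    have hS' : ∀ k ∈ S, 1 ≤ k ∧ g k + 1 ≤ M := fun k hk => hS k (Finset.mem_insert_of_mem hk)
    obtain ⟨ha1, haM⟩ := hS a (Finset.mem_insert_self _ _)
    have hga : 2 ≤ g a := by have := hg 0 a (by omega); omega
    have ih1 := ih hS' α
    have ih2 := ih hS' (fun A => α (insert a A))
    set F : ℤ → ℝ := fun x => ∑ A ∈ S.powerset, α A * rr g A x with hF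
    set G : ℤ → ℝ := fun x => ∑ A ∈ S.powerset, α (insert a A) * rr g A x with hG
    have hFp : Per (g a - 1) F := Per.sum _ (fun A hA => (rr_per_lt hg (fun j hj =>
      ha j (Finset.mem_powerset.1 hA hj))).smul _)
    have hGp : Per (g a - 1) G := Per.sum _ (fun A hA => (rr_per_lt hg (fun j hj =>
      ha j (Finset.mem_powerset.1 hA hj))).smul _)
    have e1 : (fun x => (∑ A ∈ (insert a S).powerset, α A * rr g A x) ^ 2) =
        fun x => (F x ^ 2 + (2 * (F x * G x)) * cc g a x) + (G x ^ 2) * cc g a x ^ 2 := by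
      funext x
      rw [Finset.sum_powerset_insert haS]
      have e2 : ∑ A ∈ S.powerset, α (insert a A) * rr g (insert a A) x = cc g a x * G x := by
        rw [hG]; dsimp only
        rw [Finset.mul_sum]
        apply Finset.sum_congr rfl
        intro A hA
        have haA : a ∉ A := fun h => haS (Finset.mem_powerset.1 hA h)
        unfold rr
        rw [Finset.prod_insert haA]; ring
      rw [e2]
      have e3 : ∑ A ∈ S.powerset, α A * rr g A x = F x := rfl
      rw [e3]; ring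
    rw [e1, EE_add, EE_add, EE_c1 ((hFp.mul hGp).smul 2) (by omega) haM,
      EE_c2 (hGp.pow 2) (by omega) haM, ih1, ih2, Finset.sum_powerset_insert haS]
    have e4 : ∑ A ∈ S.powerset, α (insert a A) ^ 2 * (1/2:ℝ)^(insert a A).card =
        (1/2) * ∑ A ∈ S.powerset, α (insert a A) ^ 2 * (1/2:ℝ)^A.card := by
      rw [Finset.mul_sum]
      apply Finset.sum_congr rfl
      intro A hA
      have haA : a ∉ A := fun h => haS (Finset.mem_powerset.1 hA h)
      rw [Finset.card_insert_of_notMem haA, pow_succ]; ring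
    rw [e4]; ring

/-- moments of the linear form -/
lemma mom2 (hg : Lac g) (M : ℕ) (S : Finset ℕ) (hS : ∀ k ∈ S, 1 ≤ k ∧ g k + 1 ≤ M) :
    EE (2^M) (fun x => (∑ k ∈ S, cc g k x) ^ 2) = (2^M) * ((S.card : ℝ) / 2) := by
  induction S using Finset.induction_on_max with
  | empty => simp [EE]
  | insert a S ha ih =>
    have haS : a ∉ S := fun h => lt_irrefl _ (ha a h)
    have hS' : ∀ k ∈ S, 1 ≤ k ∧ g k + 1 ≤ M := fun k hk => hS k (Finset.mem_insert_of_mem hk)
    obtain ⟨ha1, haM⟩ := hS a (Finset.mem_insert_self _ _)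
    have hga : 2 ≤ g a := by have := hg 0 a (by omega); omega
    have ih1 := ih hS'
    set F : ℤ → ℝ := fun x => ∑ k ∈ S, cc g k x with hF
    have hFp : Per (g a - 1) F := Per.sum _ (fun j hj => cc_per_lt hg (ha j hj))
    have h1p : Per (g a - 1) (fun _ => (1:ℝ)) := fun _ => rfl
    have e1 : (fun x => (∑ k ∈ insert a S, cc g k x) ^ 2) =
        fun x => (F x ^ 2 + (2 * F x) * cc g a x) + 1 * cc g a x ^ 2 := by
      funext x
      rw [Finset.sum_insert haS]
      have e3 : ∑ k ∈ S, cc g k x = F x := rfl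
      rw [e3]; ring
    rw [e1, EE_add, EE_add, EE_c1 (hFp.smul 2) (by omega) haM,
      EE_c2 h1p (by omega) haM, ih1, Finset.card_insert_of_notMem haS, EE_const]
    push_cast; ring

lemma mom4 (hg : Lac g) (M : ℕ) (S : Finset ℕ) (hS : ∀ k ∈ S, 1 ≤ k ∧ g k + 1 ≤ M) :
    EE (2^M) (fun x => (∑ k ∈ S, cc g k x) ^ 4) ≤ (2^M) * (3/4 * (S.card : ℝ)^2) := by
  induction S using Finset.induction_on_max with
  | empty => simp [EE]
  | insert a S ha ih =>
    have haS : a ∉ S := fun h => lt_irrefl _ (ha a h)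
    have hS' : ∀ k ∈ S, 1 ≤ k ∧ g k + 1 ≤ M := fun k hk => hS k (Finset.mem_insert_of_mem hk)
    obtain ⟨ha1, haM⟩ := hS a (Finset.mem_insert_self _ _)
    have hga : 2 ≤ g a := by have := hg 0 a (by omega); omega
    have ih1 := ih hS'
    have ih2 := mom2 hg M S hS'
    set F : ℤ → ℝ := fun x => ∑ k ∈ S, cc g k x with hF
    have hFp : Per (g a - 1) F := Per.sum _ (fun j hj => cc_per_lt hg (ha j hj))
    have h1p : Per (g a - 1) (fun _ => (1:ℝ)) := fun _ => rfl
    have e1 : (fun x => (∑ k ∈ insert a S, cc g k x) ^ 4) =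
        fun x => (((F x ^ 4 + (4 * F x ^ 3) * cc g a x) + (6 * F x ^ 2) * cc g a x ^ 2) +
          (4 * F x) * cc g a x ^ 3) + cc g a x ^ 4 := by
      funext x
      rw [Finset.sum_insert haS]
      have e3 : ∑ k ∈ S, cc g k x = F x := rfl
      rw [e3]; ring
    have h4 : EE (2^M) (fun x => cc g a x ^ 4) ≤ EE (2^M) (fun x => 1 * cc g a x ^ 2) := by
      apply EE_mono
      intro x
      have h := cc_abs (g := g) a x
      have h2 : cc g a x ^ 2 ≤ 1 := by
        rw [← sq_abs]; exact pow_le_one₀ (abs_nonneg _) h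
      nlinarith [sq_nonneg (cc g a x)]
    rw [EE_c2 h1p (by omega) haM, EE_const] at h4
    rw [e1, EE_add, EE_add, EE_add, EE_add, EE_c1 ((hFp.pow 3).smul 4) (by omega) haM,
      EE_c2 ((hFp.pow 2).smul 6) (by omega) haM, EE_c3 (hFp.smul 4) (by omega) haM, EE_smul, ih2,
      Finset.card_insert_of_notMem haS]
    push_cast at h4 ih1 ⊢
    have hM : (0:ℝ) < 2^M := by positivity
    nlinarith

/-- the Riesz product has mean one -/
lemma riesz_mean (hg : Lac g) (M : ℕ) (S : Finset ℕ) (hS : ∀ k ∈ S, 1 ≤ k ∧ g k + 1 ≤ M) :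
    EE (2^M) (fun x => ∏ k ∈ S, (1 + cc g k x)) = 2^M := by
  induction S using Finset.induction_on_max with
  | empty => simp [EE]
  | insert a S ha ih =>
    have haS : a ∉ S := fun h => lt_irrefl _ (ha a h)
    have hS' : ∀ k ∈ S, 1 ≤ k ∧ g k + 1 ≤ M := fun k hk => hS k (Finset.mem_insert_of_mem hk)
    obtain ⟨ha1, haM⟩ := hS a (Finset.mem_insert_self _ _)
    have hga : 2 ≤ g a := by have := hg 0 a (by omega); omega
    have ih1 := ih hS'
    set F : ℤ → ℝ := fun x => ∏ k ∈ S, (1 + cc g k x) with hF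
    have h1p : Per (g a - 1) (fun _ => (1:ℝ)) := fun _ => rfl
    have hFp : Per (g a - 1) F := Per.prod _ (fun j hj => h1p.add (cc_per_lt hg (ha j hj)))
    have e1 : (fun x => ∏ k ∈ insert a S, (1 + cc g k x)) =
        fun x => F x + F x * cc g a x := by
      funext x
      rw [Finset.prod_insert haS]
      have e3 : ∏ k ∈ S, (1 + cc g k x) = F x := rfl
      rw [e3]; ring
    rw [e1, EE_add, EE_c1 hFp (by omega) haM, ih1, add_zero]

/-- Riesz product expansion -/
lemma riesz_expand (S : Finset ℕ) (x : ℤ) :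
    ∏ k ∈ S, (1 + cc g k x) = ∑ A ∈ S.powerset, rr g A x := by
  unfold rr
  rw [Finset.prod_one_add]

lemma sum_card_one (S : Finset ℕ) (x : ℤ) :
    ∑ A ∈ S.powerset, (if A.card = 1 then rr g A x else 0) = ∑ k ∈ S, cc g k x := by
  rw [← Finset.sum_filter, ← Finset.powersetCard_eq_filter, Finset.powersetCard_one, Finset.sum_map]
  apply Finset.sum_congr rfl
  intro k _
  simp [rr]

/-- the numerical bound for the tail -/
lemma tail_num (S : Finset ℕ) (X : ℝ) (hX : 0 ≤ X) (hX1 : (S.card : ℝ) * X ≤ 1) :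
    ∑ A ∈ S.powerset, (if 2 ≤ A.card then X ^ A.card else 0) ≤ ((S.card : ℝ) * X) ^ 2 := by
  have e1 : ∀ A : Finset ℕ, (if 2 ≤ A.card then X ^ A.card else 0) =
      X ^ A.card - (if A.card = 0 then 1 else 0) - X * (if A.card = 1 then 1 else 0) := by
    intro A
    rcases Nat.lt_or_ge A.card 2 with h | h
    · have : A.card = 0 ∨ A.card = 1 := by omega
      rcases this with h | h <;> simp [h]
    · have h0 : A.card ≠ 0 := by omega
      have h1 : A.card ≠ 1 := by omega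
      simp only [h, h0, h1, if_true, if_false]; ring
  rw [Finset.sum_congr rfl (fun A _ => e1 A), Finset.sum_sub_distrib, Finset.sum_sub_distrib,
    ← Finset.mul_sum]
  have h1 : ∑ A ∈ S.powerset, X ^ A.card = (1 + X) ^ S.card := by
    have := Finset.sum_pow_mul_eq_add_pow X 1 S
    simp only [one_pow, mul_one] at this
    rw [this, add_comm]
  have h2 : ∑ A ∈ S.powerset, (if A.card = 0 then (1:ℝ) else 0) = 1 := by
    rw [← Finset.sum_filter, ← Finset.powersetCard_eq_filter]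
    simp
  have h3 : ∑ A ∈ S.powerset, (if A.card = 1 then (1:ℝ) else 0) = S.card := by
    rw [← Finset.sum_filter, ← Finset.powersetCard_eq_filter, Finset.powersetCard_one, Finset.sum_map]
    simp
  rw [h1, h2, h3]
  have h4 : (1 + X) ^ S.card ≤ Real.exp (S.card * X) := by
    rw [Real.exp_nat_mul]
    apply pow_le_pow_left₀ (by linarith)
    have := Real.add_one_le_exp X
    linarith
  have h5 := Real.abs_exp_sub_one_sub_id_le (x := S.card * X) (by
    rw [abs_of_nonneg (by positivity)]; exact hX1)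
  have h6 := (le_abs_self _).trans h5
  linarith

end Pool.Agent.H822.SF
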