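import Mathlib
import Pool.Agent.H822.SF3

set_option autoImplicit false

/-!
# One block
-/

namespace Pool.Agent.H822.SF

open Finset

/-- the time window -/
lemma window (q d : ℝ) (J : ℕ) (hq : 0 < q) (hqs : q ≤ 1/64) (hd : d = 2^J) (hJ : 1 ≤ J) :
    ∃ n₁ m : ℕ, (∀ n ∈ Ico n₁ (n₁+m), 1/2^14 ≤ (d/2)*(1-q)^(2*(n+1)) ∧
      (d/2)*(1-q)^(2*(n+1)) ≤ 1/2^12) ∧ 1/8 ≤ m*q ∧ (J:ℝ)/8 ≤ (n₁+1) * q := by
  classical
  have hd2 : 2 ≤ d := by
    rw [hd]
    calc (2:ℝ) = 2^1 := by norm_num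
      _ ≤ 2^J := pow_le_pow_right₀ (by norm_num) hJ
  have h1q : 0 ≤ 1 - q := by linarith
  have h1q' : 1 - q ≤ 1 := by linarith
  have hex : ∃ n : ℕ, (d/2)*(1-q)^(2*(n+1)) ≤ 1/2^12 := by
    obtain ⟨n, hn⟩ := exists_pow_lt_of_lt_one (show (0:ℝ) < 1/2^12/(d/2) by positivity)
      (show 1 - q < 1 by linarith)
    refine ⟨n, ?_⟩
    have h2 : (1-q)^(2*(n+1)) ≤ (1-q)^n := pow_le_pow_of_le_one h1q h1q' (by omega)
    have h3 : (1-q)^(2*(n+1)) ≤ 1/2^12/(d/2) := by linarith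
    rw [le_div_iff₀ (by positivity)] at h3
    linarith
  set n₁ := Nat.find hex with hn₁
  have hspec := Nat.find_spec hex
  rw [← hn₁] at hspec
  have hn1pos : n₁ ≠ 0 := by
    intro h
    rw [h] at hspec
    have e2 : 2*(0+1) = 2 := rfl
    rw [e2] at hspec
    have h63 : (63/64:ℝ) ≤ 1 - q := by linarith
    have h64 : (3969/4096:ℝ) ≤ (1-q)^2 := by nlinarith
    have h65 : 1 * (3969/4096:ℝ) ≤ (d/2) * (1-q)^2 :=
      mul_le_mul (by linarith) h64 (by norm_num) (by linarith)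
    norm_num at hspec
    linarith
  obtain ⟨n₀, hn₀⟩ := Nat.exists_eq_succ_of_ne_zero hn1pos
  have hmin : ¬ ((d/2)*(1-q)^(2*(n₀+1)) ≤ 1/2^12) := by
    apply Nat.find_min hex
    rw [← hn₁, hn₀]; exact Nat.lt_succ_self _
  push Not at hmin
  set m := ⌊1/(4*q)⌋₊ with hm
  have hm1 : (m:ℝ) ≤ 1/(4*q) := Nat.floor_le (by positivity)
  have hm2 : 1/(4*q) < m + 1 := Nat.lt_floor_add_one _
  rw [le_div_iff₀ (by positivity)] at hm1
  rw [div_lt_iff₀ (by positivity)] at hm2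
  refine ⟨n₁, m, ?_, ?_, ?_⟩
  · intro n hn
    rw [mem_Ico] at hn
    constructor
    · have h2 : (1-q)^(2*(n₀+1) + 2*m) ≤ (1-q)^(2*(n+1)) :=
        pow_le_pow_of_le_one h1q h1q' (by omega)
      have h3 := one_add_mul_le_pow (show (-2:ℝ) ≤ -q by linarith) (2*m)
      rw [← sub_eq_add_neg] at h3
      push_cast at h3
      have h4 : 1/2 ≤ (1-q)^(2*m) := by nlinarith
      rw [pow_add] at h2
      have h5 : (d/2)*((1-q)^(2*(n₀+1)) * (1-q)^(2*m)) ≤ (d/2)*(1-q)^(2*(n+1)) :=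
        mul_le_mul_of_nonneg_left h2 (by linarith)
      have h6 : 1/2^12 * (1/2) ≤ ((d/2)*(1-q)^(2*(n₀+1))) * (1-q)^(2*m) :=
        mul_le_mul hmin.le h4 (by norm_num) (by positivity)
      norm_num at h6 ⊢
      nlinarith
    · have h2 : (1-q)^(2*(n+1)) ≤ (1-q)^(2*(n₁+1)) := pow_le_pow_of_le_one h1q h1q' (by omega)
      have h5 : (d/2)*(1-q)^(2*(n+1)) ≤ (d/2)*(1-q)^(2*(n₁+1)) :=
        mul_le_mul_of_nonneg_left h2 (by linarith)
      linarith
  · nlinarith
  · have h1 : Real.exp (-2*q) ≤ 1 - q := by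
      have h2 := Real.add_one_le_exp (2*q)
      have h3 : Real.exp (-2*q) * Real.exp (2*q) = 1 := by
        rw [← Real.exp_add]; simp
      have h4 := Real.exp_pos (-2*q)
      have h5 : 1 ≤ (1-q) * (2*q+1) := by nlinarith
      have h6 : Real.exp (-2*q) * (2*q+1) ≤ 1 := by
        calc _ ≤ Real.exp (-2*q) * Real.exp (2*q) := mul_le_mul_of_nonneg_left h2 h4.le
          _ = 1 := h3
      have h7 : Real.exp (-2*q) * (2*q+1) ≤ (1-q) * (2*q+1) := h6.trans h5
      exact le_of_mul_le_mul_right h7 (by linarith)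
    have h2 : Real.exp (-(4*q*(n₁+1))) ≤ (1-q)^(2*(n₁+1)) := by
      have e : Real.exp (-(4*q*(n₁+1))) = Real.exp (-2*q) ^ (2*(n₁+1)) := by
        rw [← Real.exp_nat_mul]
        congr 1
        push_cast; ring
      rw [e]
      exact pow_le_pow_left₀ (Real.exp_pos _).le h1 _
    have h3 : (d/2) * Real.exp (-(4*q*(n₁+1))) ≤ 1/2^12 := by
      refine le_trans (mul_le_mul_of_nonneg_left h2 (by linarith)) hspec
    have h4 : d ≤ Real.exp (4*q*(n₁+1)) := by
      rw [Real.exp_neg] at h3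
      have h5 := Real.exp_pos (4*q*(n₁+1))
      have h6 : d/2 ≤ 1/2^12 * Real.exp (4*q*(n₁+1)) := by
        rwa [← div_eq_mul_inv, div_le_iff₀ h5] at h3
      norm_num at h6
      linarith
    have h5 : (J:ℝ) * Real.log 2 ≤ 4*q*(n₁+1) := by
      have h6 := Real.log_le_log (by linarith) h4
      rwa [Real.log_exp, hd, Real.log_pow] at h6
    have h6 := Real.log_two_gt_d9
    have h7 : (0:ℝ) ≤ J := by positivity
    nlinarith

/-- counting -/
lemma counting (P : ℕ) (G T : ℤ → ℝ) (hG : ∀ x, 0 ≤ G x) (hT : ∀ x, 0 ≤ T x) (τ : ℝ) (hτ : 0 < τ)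
    (h1 : EE P G = P) (h2 : EE P (fun x => G x ^ 2) ≤ 3 * P) (h3 : EE P T ≤ τ * P / 32) :
    (P:ℝ)/24 ≤ (((range P).filter (fun x : ℕ => 1/2 ≤ G x ∧ T x ≤ τ)).card : ℝ) := by
  classical
  unfold EE at h1 h2 h3
  rcases Nat.eq_zero_or_pos P with hP | hP
  · subst hP; simp
  have hP' : (0:ℝ) < P := by exact_mod_cast hP
  set s := (range P).filter (fun x : ℕ => 1/2 ≤ G x) with hs
  set t := (range P).filter (fun x : ℕ => τ < T x) with ht
  -- Paley Zygmund
  have hs1 : (P:ℝ)/12 ≤ s.card := by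
    have h4 : (P:ℝ) ≤ P/2 + ∑ x ∈ s, G x := by
      have h5 : ∑ x ∈ range P, G x = ∑ x ∈ s, G x + ∑ x ∈ (range P).filter (fun x : ℕ => ¬ 1/2 ≤ G x), G x :=
        (sum_filter_add_sum_filter_not (range P) (fun x : ℕ => 1/2 ≤ G x) (fun x => G (x:ℤ))).symm
      have h6 : ∑ x ∈ (range P).filter (fun x : ℕ => ¬ 1/2 ≤ G x), G x ≤ P/2 := by
        calc ∑ x ∈ (range P).filter (fun x : ℕ => ¬ 1/2 ≤ G x), G x ≤
            ∑ x ∈ (range P).filter (fun x : ℕ => ¬ 1/2 ≤ G x), (1/2:ℝ) := by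
              apply sum_le_sum
              intro x hx
              rw [mem_filter] at hx
              have := hx.2
              push Not at this
              exact this.le
          _ ≤ ∑ x ∈ range P, (1/2:ℝ) := sum_le_sum_of_subset_of_nonneg (filter_subset _ _)
              (fun _ _ _ => by norm_num)
          _ = P/2 := by simp; ring
      linarith
    have h5 : (∑ x ∈ s, G x)^2 ≤ s.card * ∑ x ∈ s, G x ^ 2 := sq_sum_le_card_mul_sum_sq
    have h6 : ∑ x ∈ s, G x ^ 2 ≤ 3 * P := by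
      refine le_trans ?_ h2
      apply sum_le_sum_of_subset_of_nonneg (filter_subset _ _)
      intro _ _ _; positivity
    have h7 : (P:ℝ)/2 ≤ ∑ x ∈ s, G x := by linarith
    have h8 : ((P:ℝ)/2)^2 ≤ s.card * (3 * P) := by
      calc ((P:ℝ)/2)^2 ≤ (∑ x ∈ s, G x)^2 := pow_le_pow_left₀ (by positivity) h7 2
        _ ≤ s.card * ∑ x ∈ s, G x ^ 2 := h5
        _ ≤ s.card * (3 * P) := mul_le_mul_of_nonneg_left h6 (by positivity)
    have h9 : (P:ℝ) * (P/12) ≤ P * s.card := by nlinarith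
    exact le_of_mul_le_mul_left h9 hP'
  have ht1 : (t.card : ℝ) ≤ P/32 := by
    have h4 : τ * t.card ≤ ∑ x ∈ range P, T x := by
      calc τ * t.card = ∑ x ∈ t, τ := by simp; ring
        _ ≤ ∑ x ∈ t, T x := by
            apply sum_le_sum
            intro x hx
            rw [mem_filter] at hx
            exact hx.2.le
        _ ≤ _ := sum_le_sum_of_subset_of_nonneg (filter_subset _ _) (fun x _ _ => hT x)
    have h5 : τ * t.card ≤ τ * (P/32) := by
      calc τ * t.card ≤ τ * P / 32 := h4.trans h3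
        _ = τ * (P/32) := by ring
    exact le_of_mul_le_mul_left h5 hτ
  have hsub : s \ t ⊆ (range P).filter (fun x : ℕ => 1/2 ≤ G x ∧ T x ≤ τ) := by
    intro x hx
    rw [mem_sdiff, hs, ht, mem_filter, mem_filter] at hx
    rw [mem_filter]
    refine ⟨hx.1.1, hx.1.2, ?_⟩
    by_contra hcon
    push Not at hcon
    exact hx.2 ⟨hx.1.1, hcon⟩
  have h10 : s.card ≤ (s \ t).card + t.card := by
    exact card_le_card_sdiff_add_card (s := s) (t := t)
  have h11 := card_le_card hsub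
  have h12 : (s.card:ℝ) ≤ (((range P).filter (fun x : ℕ => 1/2 ≤ G x ∧ T x ≤ τ)).card : ℝ) + t.card := by
    exact_mod_cast h10.trans (Nat.add_le_add_right h11 _)
  linarith

lemma U_sum {ι : Type*} {μ : ℤ → ℝ} (hμ : ∀ k, 0 ≤ μ k) (h1 : HasSum μ 1) (n : ℕ) (s : Finset ι)
    (φ : ι → ℤ → ℝ) (C : ℝ) (hφ : ∀ i x, |φ i x| ≤ C) (k : ℤ) :
    U μ n (fun x => ∑ i ∈ s, φ i x) k = ∑ i ∈ s, U μ n (φ i) k := by
  unfold U
  have hp := pw_hasSum hμ h1 n
  have hp0 := pw_nonneg hμ n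
  rw [← Summable.tsum_finsetSum (fun i _ => summable_bdd hp.summable hp0 C (fun j => hφ i _))]
  apply tsum_congr
  intro j
  rw [mul_sum]

lemma four_sq (m : ℕ) (hm : 2 ≤ m) : (4:ℝ) * (m:ℝ)^2 ≤ 4^m := by
  induction m, hm using Nat.le_induction with
  | base => norm_num
  | succ m hm ih =>
    have h : (2:ℝ) ≤ m := by exact_mod_cast hm
    have e : (4:ℝ)^(m+1) = 4^m*4 := pow_succ _ _
    rw [e]
    push_cast
    nlinarith

/-- second moment of the tail -/
lemma tail_mom {g : ℕ → ℕ} (hg : Lac g) (M : ℕ) (S : Finset ℕ) (hS : ∀ k ∈ S, 1 ≤ k ∧ g k + 1 ≤ M)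
    (q : ℝ) (hq : 0 ≤ q) (hqd : q * S.card ≤ 1) (n : ℕ)
    (hb : ((S.card:ℝ)/2) * (1-q)^(2*n) ≤ 1/2^12) :
    EE (2^M) (fun x => (∑ A ∈ S.powerset, (q * A.card * (1 - q * A.card)^n) * rr g A x -
      q * (1-q)^n * ∑ k ∈ S, cc g k x)^2) ≤
      (2^M) * (4 * q^2 * (((S.card:ℝ)/2) * (1-q)^(2*n))^2) := by
  classical
  set α : Finset ℕ → ℝ := fun A => q * A.card * (1 - q * A.card)^n -
    (if A.card = 1 then q * (1-q)^n else 0) with hα
  have e1 : (fun x => (∑ A ∈ S.powerset, (q * A.card * (1 - q * A.card)^n) * rr g A x -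
      q * (1-q)^n * ∑ k ∈ S, cc g k x)^2) = fun x => (∑ A ∈ S.powerset, α A * rr g A x)^2 := by
    funext x
    rw [← sum_card_one, mul_sum, ← sum_sub_distrib]
    congr 1
    apply sum_congr rfl
    intro A _
    rw [hα]; dsimp only
    split_ifs <;> ring
  rw [e1, orth hg M S hS α]
  apply mul_le_mul_of_nonneg_left _ (by positivity)
  have hcard : ∀ A ∈ S.powerset, q * A.card ≤ 1 := by
    intro A hA
    have h1 : (A.card:ℝ) ≤ S.card := by exact_mod_cast card_le_card (mem_powerset.1 hA)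
    calc q * A.card ≤ q * S.card := mul_le_mul_of_nonneg_left h1 hq
      _ ≤ 1 := hqd
  rcases Nat.eq_zero_or_pos S.card with h0 | h0
  · have hS0 : S = ∅ := card_eq_zero.1 h0
    subst hS0
    simp [hα]
  have hq1 : q ≤ 1 := by
    have : (1:ℝ) ≤ S.card := by exact_mod_cast h0
    nlinarith
  set X : ℝ := 2 * (1-q)^(2*n) with hX
  have hX0 : 0 ≤ X := by
    rw [hX]; have : 0 ≤ 1 - q := by linarith
    positivity
  have hb4 : (S.card:ℝ) * X = 4 * (((S.card:ℝ)/2) * (1-q)^(2*n)) := by rw [hX]; ring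
  have hterm : ∀ A ∈ S.powerset, α A ^ 2 * (1/2:ℝ)^A.card ≤
      (q^2/4) * (if 2 ≤ A.card then X ^ A.card else 0) := by
    intro A hA
    have hA1 := hcard A hA
    rcases Nat.lt_or_ge A.card 2 with h | h
    · have h' : A.card = 0 ∨ A.card = 1 := by omega
      rcases h' with h' | h'
      · simp [hα, h']
      · simp [hα, h']
    · have h1 : A.card ≠ 1 := by omega
      rw [if_pos h, hα]
      dsimp only
      rw [if_neg h1, sub_zero]
      have h2 : 1 - q * A.card ≤ (1-q)^A.card := by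
        have := one_add_mul_le_pow (show (-2:ℝ) ≤ -q by linarith) A.card
        rw [← sub_eq_add_neg] at this
        linarith
      have h3 : (0:ℝ) ≤ 1 - q * A.card := by linarith
      have h4 : (1 - q * A.card)^(2*n) ≤ ((1-q)^(2*n))^A.card := by
        calc (1 - q * A.card)^(2*n) ≤ ((1-q)^A.card)^(2*n) := pow_le_pow_left₀ h3 h2 _
          _ = ((1-q)^(2*n))^A.card := by rw [← pow_mul, ← pow_mul, mul_comm]
      have h5 := four_sq A.card h
      calc (q * A.card * (1 - q * A.card)^n)^2 * (1/2:ℝ)^A.card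
          = (q^2/4) * ((4 * (A.card:ℝ)^2) * (1 - q * A.card)^(2*n) * (1/2:ℝ)^A.card) := by
            rw [mul_pow, mul_pow, ← pow_mul, mul_comm n 2]; ring
        _ ≤ (q^2/4) * (4^A.card * ((1-q)^(2*n))^A.card * (1/2:ℝ)^A.card) := by
            apply mul_le_mul_of_nonneg_left _ (by positivity)
            apply mul_le_mul_of_nonneg_right _ (by positivity)
            exact mul_le_mul h5 h4 (by positivity) (by positivity)
        _ = (q^2/4) * X^A.card := by
            rw [hX, ← mul_pow, ← mul_pow]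
            congr 2
            ring
  calc ∑ A ∈ S.powerset, α A ^ 2 * (1/2:ℝ)^A.card
      ≤ ∑ A ∈ S.powerset, (q^2/4) * (if 2 ≤ A.card then X ^ A.card else 0) := sum_le_sum hterm
    _ = (q^2/4) * ∑ A ∈ S.powerset, (if 2 ≤ A.card then X ^ A.card else 0) := by rw [mul_sum]
    _ ≤ (q^2/4) * ((S.card:ℝ) * X)^2 := by
        apply mul_le_mul_of_nonneg_left _ (by positivity)
        apply tail_num S X hX0
        rw [hb4]
        norm_num at hb ⊢
        linarith
    _ = 4 * q^2 * (((S.card:ℝ)/2) * (1-q)^(2*n))^2 := by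
        rw [hb4]; ring

end Pool.Agent.H822.SF
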