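import Mathlib
import Pool.Agent.H822.SF4

set_option autoImplicit false

/-!
# One block, assembled
-/

namespace Pool.Agent.H822.SF

open Finset

variable {p : ℕ → ℝ} {g : ℕ → ℕ}

/-- the spectral main part of `(U n - U (n+1)) F` -/
noncomputable def DD (g : ℕ → ℕ) (B : Finset ℕ) (q : ℝ) (n : ℕ) (x : ℤ) : ℝ :=
  ∑ A ∈ B.powerset, (q * A.card * (1 - q * A.card)^n) * rr g A x

lemma step1 (hp : ∀ k, 0 ≤ p k) (hp1 : HasSum p 1) (hg : StrictMono g) (B : Finset ℕ) (q δ : ℝ)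
    (hq : 0 ≤ q) (hqd : q * B.card ≤ 1) (hpB : ∀ k ∈ B, p k = q) (hδ0 : 0 ≤ δ)
    (hδ : ∀ k ∈ B, ∀ j, j < k → Real.pi * (2:ℝ)^(g j) / (2:ℝ)^(g k) ≤ δ)
    (A : Finset ℕ) (hA : A ⊆ B) (n : ℕ) (x : ℤ) :
    |U (muF p g) n (rr g A) x - (1 - q * A.card)^n * rr g A x| ≤ n * (B.card * δ) := by
  have hAB : (A.card:ℝ) ≤ B.card := by exact_mod_cast card_le_card hA
  have h1 : q * A.card ≤ 1 := (mul_le_mul_of_nonneg_left hAB hq).trans hqd
  have h0 : 0 ≤ q * A.card := by positivity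
  refine U_eigen (mu_nonneg hp hg) (mu_one hp hp1 hg) (rr g A) 1 (rr_abs A) (1 - q * A.card)
    (B.card * δ) (by rw [abs_le]; constructor <;> linarith) ?_ n x
  intro k
  have h2 := T_rr hp hp1 hg A δ hδ0 (fun k hk => hδ k (hA hk)) k
  have h3 : ∑ k ∈ A, p k = q * A.card := by
    rw [sum_congr rfl (fun k hk => hpB k (hA hk))]
    simp; ring
  rw [h3] at h2
  exact h2.trans (mul_le_mul_of_nonneg_right hAB hδ0)

lemma step2 (hp : ∀ k, 0 ≤ p k) (hp1 : HasSum p 1) (hg : StrictMono g) (B : Finset ℕ) (q δ : ℝ)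
    (hq : 0 ≤ q) (hqd : q * B.card ≤ 1) (hpB : ∀ k ∈ B, p k = q) (hδ0 : 0 ≤ δ)
    (hδ : ∀ k ∈ B, ∀ j, j < k → Real.pi * (2:ℝ)^(g j) / (2:ℝ)^(g k) ≤ δ) (n : ℕ) (x : ℤ) :
    |(U (muF p g) n (fun x => ∏ k ∈ B, (1 + cc g k x)) x -
      U (muF p g) (n+1) (fun x => ∏ k ∈ B, (1 + cc g k x)) x) - DD g B q n x| ≤
      2^B.card * ((2*n+1) * (B.card * δ)) := by
  have e0 : (fun x => ∏ k ∈ B, (1 + cc g k x)) = fun x => ∑ A ∈ B.powerset, rr g A x := by
    funext x; exact riesz_expand B x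
  rw [e0, U_sum (mu_nonneg hp hg) (mu_one hp hp1 hg) n B.powerset (fun A => rr g A) 1
    (fun A x => rr_abs A x), U_sum (mu_nonneg hp hg) (mu_one hp hp1 hg) (n+1) B.powerset
    (fun A => rr g A) 1 (fun A x => rr_abs A x)]
  unfold DD
  rw [← sum_sub_distrib, ← sum_sub_distrib]
  refine (abs_sum_le_sum_abs _ _).trans ?_
  have h : ∀ A ∈ B.powerset, |U (muF p g) n (rr g A) x - U (muF p g) (n+1) (rr g A) x -
      q * A.card * (1 - q * A.card)^n * rr g A x| ≤ (2*n+1) * (B.card * δ) := by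
    intro A hA
    have h1 := step1 hp hp1 hg B q δ hq hqd hpB hδ0 hδ A (mem_powerset.1 hA) n x
    have h2 := step1 hp hp1 hg B q δ hq hqd hpB hδ0 hδ A (mem_powerset.1 hA) (n+1) x
    have e : U (muF p g) n (rr g A) x - U (muF p g) (n+1) (rr g A) x -
      q * A.card * (1 - q * A.card)^n * rr g A x =
      (U (muF p g) n (rr g A) x - (1 - q * A.card)^n * rr g A x) -
      (U (muF p g) (n+1) (rr g A) x - (1 - q * A.card)^(n+1) * rr g A x) := by
      rw [pow_succ]; ring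
    rw [e]
    refine (abs_sub _ _).trans ?_
    push_cast at h2
    linarith
  refine (sum_le_sum h).trans ?_
  simp [card_powerset]

lemma F_bound (B : Finset ℕ) (x : ℤ) : 0 ≤ ∏ k ∈ B, (1 + cc g k x) ∧
    ∏ k ∈ B, (1 + cc g k x) ≤ 2^B.card := by
  have h : ∀ k, 0 ≤ 1 + cc g k x ∧ 1 + cc g k x ≤ 2 := by
    intro k
    have := abs_le.1 (cc_abs (g := g) k x)
    constructor <;> linarith [this.1, this.2]
  constructor
  · exact prod_nonneg (fun k _ => (h k).1)
  · calc ∏ k ∈ B, (1 + cc g k x) ≤ ∏ k ∈ B, (2:ℝ) := prod_le_prod (fun k _ => (h k).1) (fun k _ => (h k).2)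
      _ = 2^B.card := by simp

/-- truncated Riesz product -/
noncomputable def fK (g : ℕ → ℕ) (B : Finset ℕ) (M : ℕ) (x : ℤ) : ℝ :=
  if -(2:ℤ)^M ≤ x ∧ x < 2 * 2^M then ∏ k ∈ B, (1 + cc g k x) else 0

lemma fK_abs (B : Finset ℕ) (M : ℕ) (x : ℤ) : |fK g B M x| ≤ 2^B.card := by
  unfold fK
  obtain ⟨h1, h2⟩ := F_bound (g := g) B x
  split_ifs
  · rw [abs_of_nonneg h1]; exact h2
  · simp

lemma fK_nonneg (B : Finset ℕ) (M : ℕ) (x : ℤ) : 0 ≤ fK g B M x := by
  unfold fK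
  obtain ⟨h1, h2⟩ := F_bound (g := g) B x
  split_ifs
  · exact h1
  · exact le_refl _

lemma fK_sum (hl : Lac g) (B : Finset ℕ) (M : ℕ) (hB : ∀ k ∈ B, 1 ≤ k ∧ g k + 1 ≤ M) :
    HasSum (fun x => |fK g B M x|) (3 * 2^M) := by
  classical
  set i : ℕ → ℤ := fun y => (y:ℤ) - 2^M with hi
  have hinj : Function.Injective i := by
    intro a b hab
    simp only [hi] at hab
    omega
  have hrange : ∀ x : ℤ, x ∉ (range (3 * 2^M)).image i → |fK g B M x| = 0 := by
    intro x hx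
    unfold fK
    rw [if_neg, abs_zero]
    intro hcon
    apply hx
    rw [mem_image]
    refine ⟨(x + 2^M).toNat, ?_, ?_⟩
    · rw [mem_range]
      have h1 : (0:ℤ) ≤ x + 2^M := by linarith [hcon.1]
      zify
      rw [Int.toNat_of_nonneg h1]
      linarith [hcon.2]
    · simp only [hi]
      rw [Int.toNat_of_nonneg (by linarith [hcon.1])]
      ring
  have h1 : HasSum (fun x => |fK g B M x|) (∑ x ∈ (range (3 * 2^M)).image i, |fK g B M x|) :=
    hasSum_sum_of_ne_finset_zero hrange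
  convert h1 using 1
  rw [sum_image (fun a _ b _ hab => hinj hab)]
  have e1 : ∀ y ∈ range (3 * 2^M), |fK g B M (i y)| = ∏ k ∈ B, (1 + cc g k (i y)) := by
    intro y hy
    rw [abs_of_nonneg (fK_nonneg B M _)]
    unfold fK
    rw [if_pos]
    rw [mem_range] at hy
    simp only [hi]
    zify at hy
    constructor
    · have : (0:ℤ) ≤ y := by positivity
      linarith
    · linarith
  rw [sum_congr rfl e1]
  have hper : Per M (fun x => ∏ k ∈ B, (1 + cc g k x)) := by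
    apply Per.prod
    intro k hk
    have h1p : Per M (fun _ => (1:ℝ)) := fun _ => rfl
    exact h1p.add ((cc_per k).mono (hB k hk).2)
  have hper' : ∀ (r : ℕ) (y : ℕ), ∏ k ∈ B, (1 + cc g k (i (r * 2^M + y))) = ∏ k ∈ B, (1 + cc g k (y:ℤ)) := by
    intro r y
    have h2 := hper.mul_nat r (i y)
    have h3 := hper (i y)
    simp only [hi] at h2 h3 ⊢
    have e4 : ((r * 2^M + y : ℕ) : ℤ) - 2^M = ((y:ℤ) - 2^M) + r * 2^M := by push_cast; ring
    rw [e4, h2, ← h3]
    congr 1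
    funext k
    congr 2
    ring
  have e5 : 3 * 2^M = (2^M + 2^M) + 2^M := by ring
  rw [e5, sum_range_add, sum_range_add]
  have hm := riesz_mean hl M B hB
  unfold EE at hm
  have e6 : ∑ x ∈ range (2^M), ∏ k ∈ B, (1 + cc g k (i x)) = 2^M := by
    rw [← hm]
    apply sum_congr rfl
    intro y _
    have := hper' 0 y
    simpa using this
  have e7 : ∑ x ∈ range (2^M), ∏ k ∈ B, (1 + cc g k (i (2^M + x))) = 2^M := by
    rw [← hm]
    apply sum_congr rfl
    intro y _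
    have := hper' 1 y
    simpa using this
  have e8 : ∑ x ∈ range (2^M), ∏ k ∈ B, (1 + cc g k (i (2^M + 2^M + x))) = 2^M := by
    rw [← hm]
    apply sum_congr rfl
    intro y _
    have := hper' 2 y
    rw [two_mul] at this
    exact this
  rw [e6, e7, e8]
  ring

/-- choice of the truncation -/
lemma step3 (hp : ∀ k, 0 ≤ p k) (hp1 : HasSum p 1) (hg : StrictMono g) (B : Finset ℕ) (N : ℕ)
    (ε : ℝ) (hε : 0 < ε) :
    ∃ M : ℕ, (∀ k ∈ B, g k + 1 ≤ M) ∧ ∀ n ≤ N, ∀ x : ℤ, 0 ≤ x → x < 2^M →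
      |U (muF p g) n (fK g B M) x - U (muF p g) n (fun x => ∏ k ∈ B, (1 + cc g k x)) x| ≤
        2 * 2^B.card * ε := by
  choose R hR using fun n => U_trunc (mu_nonneg hp hg) (mu_one hp hp1 hg) n ε hε
  refine ⟨B.sup (fun k => g k + 1) + ∑ n ∈ range (N+1), R n, ?_, ?_⟩
  · intro k hk
    have := le_sup (f := fun k => g k + 1) hk
    omega
  · set M := B.sup (fun k => g k + 1) + ∑ n ∈ range (N+1), R n with hM
    intro n hn x hx0 hx1
    have h1 : R n ≤ ∑ n ∈ range (N+1), R n :=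
      single_le_sum (fun _ _ => Nat.zero_le _) (mem_range.2 (by omega))
    have h2 : M < 2^M := Nat.lt_two_pow_self
    refine hR n (2^M) (by omega) _ _ (2^B.card) (fK_abs B M) ?_ x ?_
    · intro k
      obtain ⟨h3, h4⟩ := F_bound (g := g) B k
      rw [abs_of_nonneg h3]; exact h4
    · intro j hj
      rw [abs_lt] at hj
      push_cast at hj
      unfold fK
      rw [if_pos]
      constructor
      · linarith [hj.1, hj.2]
      · linarith [hj.1, hj.2]

end Pool.Agent.H822.SF
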