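import Mathlib
import Pool.Agent.H822.SF5

set_option autoImplicit false

/-!
# The block estimate
-/

namespace Pool.Agent.H822.SF

open Finset

variable {p : ℕ → ℝ} {g : ℕ → ℕ}

lemma sq_lower (a b c : ℝ) : a^2/2 - 2*b^2 - 2*c^2 ≤ (a+b+c)^2 := by
  nlinarith [sq_nonneg (a + 2*(b+c)), sq_nonneg (b - c)]

theorem block (hp : ∀ k, 0 ≤ p k) (hp1 : HasSum p 1) (hg : StrictMono g) (hl : Lac g)
    (B : Finset ℕ) (hB1 : ∀ k ∈ B, 1 ≤ k) (hB : 0 < B.card) (J : ℕ)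
    (q : ℝ) (hq : 0 < q) (hqd : q * B.card ≤ 1)
    (hpB : ∀ k ∈ B, p k = q) (n₁ m : ℕ)
    (hw : ∀ n ∈ Ico n₁ (n₁+m), 1/2^14 ≤ ((B.card:ℝ)/2)*(1-q)^(2*(n+1)) ∧
      ((B.card:ℝ)/2)*(1-q)^(2*(n+1)) ≤ 1/2^12)
    (hm : 1/8 ≤ m*q) (hn : (J:ℝ)/8 ≤ (n₁+1) * q)
    (δ : ℝ) (hδ0 : 0 ≤ δ)
    (hδ : ∀ k ∈ B, ∀ j, j < k → Real.pi * (2:ℝ)^(g j) / (2:ℝ)^(g k) ≤ δ)
    (herr : 2^B.card * ((2*(n₁+m)+3) * (B.card * δ)) ≤ q/2^11) :
    ∃ (P : ℕ) (f : ℤ → ℝ), 0 < P ∧ (∀ x, |f x| ≤ 2^B.card) ∧ HasSum (fun k => |f k|) (3*P) ∧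
      ∃ s : Finset ℤ, (P:ℝ)/24 ≤ s.card ∧ ∀ x ∈ s, (J:ℝ)/2^23 ≤
        ∑ n ∈ Ico n₁ (n₁+m), ((n:ℝ)+1) *
          (U (muF p g) (n+1) f x - U (muF p g) (n+2) f x)^2 := by
  classical
  have hd0 : (0:ℝ) < B.card := by exact_mod_cast hB
  set d : ℝ := (B.card : ℝ) with hd
  set ε : ℝ := q / (2^13 * 2^B.card) with hε
  have hε0 : 0 < ε := by rw [hε]; positivity
  obtain ⟨M, hM1, hM2⟩ := step3 hp hp1 hg B (n₁+m+1) ε hε0
  have hBM : ∀ k ∈ B, 1 ≤ k ∧ g k + 1 ≤ M := fun k hk => ⟨hB1 k hk, hM1 k hk⟩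
  have hP0 : (0:ℝ) < 2^M := by positivity
  set f := fK g B M with hf
  set e1 : ℤ → ℝ := fun x => ∑ k ∈ B, cc g k x with he1
  set b : ℕ → ℝ := fun n => (d/2) * (1-q)^(2*(n+1)) with hb
  set W : ℝ := ∑ n ∈ Ico n₁ (n₁+m), b n with hW
  set tl : ℕ → ℤ → ℝ := fun n x => DD g B q (n+1) x - q * (1-q)^(n+1) * e1 x with htl
  set T : ℤ → ℝ := fun x => ∑ n ∈ Ico n₁ (n₁+m), tl n x ^ 2 with hT
  set G : ℤ → ℝ := fun x => (2/d) * e1 x ^ 2 with hG
  have hmq : 0 < (m:ℝ) := by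
    by_contra hcon
    push Not at hcon
    have : (m:ℝ) * q ≤ 0 := mul_nonpos_of_nonpos_of_nonneg hcon hq.le
    linarith
  have hW1 : (m:ℝ)/2^14 ≤ W := by
    calc (m:ℝ)/2^14 = ∑ n ∈ Ico n₁ (n₁+m), (1/2^14:ℝ) := by simp; ring
      _ ≤ W := sum_le_sum (fun n hn => (hw n hn).1)
  have hW0 : 0 < W := by
    have : 0 < (m:ℝ)/2^14 := by positivity
    linarith
  -- moments
  have hEG : EE (2^M) G = ((2^M : ℕ) : ℝ) := by
    rw [hG, EE_smul, mom2 hl M B hBM]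
    push_cast
    rw [← hd]
    field_simp
  have hEG2 : EE (2^M) (fun x => G x ^ 2) ≤ 3 * ((2^M : ℕ) : ℝ) := by
    have h1 : (fun x => G x ^ 2) = fun x => (2/d)^2 * (e1 x) ^ 4 := by
      funext x; rw [hG]; ring
    rw [h1, EE_smul]
    have h2 := mom4 hl M B hBM
    calc (2/d)^2 * EE (2^M) (fun x => e1 x ^ 4) ≤ (2/d)^2 * ((2^M) * (3/4 * d^2)) :=
          mul_le_mul_of_nonneg_left h2 (by positivity)
      _ = 3 * ((2^M : ℕ) : ℝ) := by push_cast; field_simp; ring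
  have hET : EE (2^M) T ≤ (q^2*W/32) * ((2^M : ℕ) : ℝ) / 32 := by
    have h1 : EE (2^M) T = ∑ n ∈ Ico n₁ (n₁+m), EE (2^M) (fun x => tl n x ^ 2) := by
      unfold EE
      rw [sum_comm]
    have h2 : ∀ n ∈ Ico n₁ (n₁+m), EE (2^M) (fun x => tl n x ^ 2) ≤ (2^M) * (4 * q^2 * (1/2^12 * b n)) := by
      intro n hn
      have h3 := tail_mom hl M B hBM q hq.le hqd (n+1) (hw n hn).2
      refine h3.trans ?_
      apply mul_le_mul_of_nonneg_left _ (by positivity)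
      apply mul_le_mul_of_nonneg_left _ (by positivity)
      rw [sq]
      have h4 : 0 ≤ b n := by
        have := (hw n hn).1
        have h5 : (0:ℝ) ≤ 1/2^14 := by positivity
        exact h5.trans this
      exact mul_le_mul_of_nonneg_right (hw n hn).2 h4
    rw [h1]
    refine (sum_le_sum h2).trans ?_
    rw [← mul_sum, ← mul_sum, ← mul_sum]
    push_cast
    rw [← hW]
    apply le_of_eq
    norm_num
    ring
  have hcount := counting (2^M) G T (fun x => by rw [hG]; positivity)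
    (fun x => sum_nonneg (fun _ _ => sq_nonneg _)) (q^2*W/32) (by positivity) hEG hEG2 hET
  set s₀ := (range (2^M)).filter (fun x : ℕ => 1/2 ≤ G x ∧ T x ≤ q^2*W/32) with hs₀
  refine ⟨2^M, f, by positivity, fK_abs B M, ?_, s₀.image (fun x : ℕ => (x:ℤ)), ?_, ?_⟩
  · have := fK_sum hl B M hBM
    push_cast
    exact this
  · rw [card_image_of_injective _ Nat.cast_injective]
    exact hcount
  · intro x hx
    rw [mem_image] at hx
    obtain ⟨y, hy, rfl⟩ := hx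
    rw [hs₀, mem_filter, mem_range] at hy
    obtain ⟨hy1, hy2, hy3⟩ := hy
    have hx0 : (0:ℤ) ≤ (y:ℤ) := by positivity
    have hx1 : (y:ℤ) < 2^M := by exact_mod_cast hy1
    -- pointwise
    have herrn : ∀ n ∈ Ico n₁ (n₁+m), |(U (muF p g) (n+1) f y - U (muF p g) (n+2) f y) -
        DD g B q (n+1) y| ≤ q/2^10 := by
      intro n hn
      rw [mem_Ico] at hn
      have h1 := hM2 (n+1) (by omega) y hx0 hx1
      have h2 := hM2 (n+2) (by omega) y hx0 hx1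
      have h3 := step2 hp hp1 hg B q δ hq.le hqd hpB hδ0 hδ (n+1) y
      have h4 : 2 * 2^B.card * ε = q/2^12 := by
        rw [hε]; field_simp
      have h5 : 2^B.card * ((2*((n+1:ℕ):ℝ)+1) * (B.card * δ)) ≤ q/2^11 := by
        refine le_trans ?_ herr
        apply mul_le_mul_of_nonneg_left _ (by positivity)
        apply mul_le_mul_of_nonneg_right _ (by positivity)
        have : (n:ℝ) ≤ n₁ + m := by exact_mod_cast hn.2.le
        push_cast
        linarith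
      rw [h4] at h1 h2
      have h6 := h3.trans h5
      rw [abs_le] at h1 h2 h6 ⊢
      have e2 : n + 1 + 1 = n + 2 := rfl
      rw [e2] at h6
      constructor
      · linarith [h1.1, h1.2, h2.1, h2.2, h6.1, h6.2]
      · linarith [h1.1, h1.2, h2.1, h2.2, h6.1, h6.2]
    have hpt : ∀ n ∈ Ico n₁ (n₁+m), (q^2 * b n * G y)/2 - 2 * tl n y ^ 2 - 2 * (q/2^10)^2 ≤
        (U (muF p g) (n+1) f y - U (muF p g) (n+2) f y)^2 := by
      intro n hn
      have h1 := herrn n hn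
      set E := (U (muF p g) (n+1) f y - U (muF p g) (n+2) f y) - DD g B q (n+1) y with hE
      have h2 : U (muF p g) (n+1) f y - U (muF p g) (n+2) f y =
          q * (1-q)^(n+1) * e1 y + tl n y + E := by
        rw [hE, htl]; ring
      rw [h2]
      refine le_trans ?_ (sq_lower _ _ _)
      have h3 : (q * (1-q)^(n+1) * e1 y)^2 = q^2 * b n * G y := by
        rw [hb, hG]
        dsimp only
        have e3 : (1-q)^(2*(n+1)) = ((1-q)^(n+1))^2 := by rw [← pow_mul, mul_comm 2 (n+1)]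
        rw [e3]
        field_simp
      have h4 : E^2 ≤ (q/2^10)^2 := by
        rw [← sq_abs]
        exact pow_le_pow_left₀ (abs_nonneg _) h1 2
      rw [h3]
      linarith
    have hsum : q^2*W/8 ≤ ∑ n ∈ Ico n₁ (n₁+m),
        (U (muF p g) (n+1) f y - U (muF p g) (n+2) f y)^2 := by
      refine le_trans ?_ (sum_le_sum hpt)
      rw [sum_sub_distrib, sum_sub_distrib]
      have e4 : ∑ n ∈ Ico n₁ (n₁+m), (q^2 * b n * G y)/2 = q^2 * W * G y / 2 := by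
        rw [hW, mul_sum, sum_mul, sum_div]
      have e5 : ∑ n ∈ Ico n₁ (n₁+m), 2 * tl n y ^ 2 = 2 * T y := by
        rw [hT, mul_sum]
      have e6 : ∑ n ∈ Ico n₁ (n₁+m), 2 * (q/2^10)^2 = m * (2 * (q/2^10)^2) := by simp
      rw [e4, e5, e6]
      have h1 : q^2 * W * (1/2) ≤ q^2 * W * G y := mul_le_mul_of_nonneg_left hy2 (by positivity)
      have h2 : q^2 * ((m:ℝ)/2^14) ≤ q^2 * W := mul_le_mul_of_nonneg_left hW1 (by positivity)
      norm_num at h2 ⊢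
      nlinarith
    have hfin : (n₁+1:ℝ) * (q^2*W/8) ≤ ∑ n ∈ Ico n₁ (n₁+m), ((n:ℝ)+1) *
          (U (muF p g) (n+1) f y - U (muF p g) (n+2) f y)^2 := by
      calc (n₁+1:ℝ) * (q^2*W/8) ≤ (n₁+1:ℝ) * ∑ n ∈ Ico n₁ (n₁+m),
            (U (muF p g) (n+1) f y - U (muF p g) (n+2) f y)^2 :=
            mul_le_mul_of_nonneg_left hsum (by positivity)
        _ = ∑ n ∈ Ico n₁ (n₁+m), (n₁+1:ℝ) *
            (U (muF p g) (n+1) f y - U (muF p g) (n+2) f y)^2 := by rw [mul_sum]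
        _ ≤ _ := by
            apply sum_le_sum
            intro n hn
            rw [mem_Ico] at hn
            apply mul_le_mul_of_nonneg_right _ (sq_nonneg _)
            have : (n₁:ℝ) ≤ n := by exact_mod_cast hn.1
            linarith
    refine le_trans ?_ hfin
    have h7 : (J:ℝ)/8 * (1/8/2^14/8) ≤ ((n₁+1:ℝ) * q) * ((m*q)/2^14/8) := by
      apply mul_le_mul hn _ (by positivity) (by positivity)
      apply div_le_div_of_nonneg_right _ (by norm_num)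
      exact div_le_div_of_nonneg_right hm (by norm_num)
    have h8 : ((n₁+1:ℝ) * q) * ((m*q)/2^14/8) ≤ (n₁+1:ℝ) * (q^2*W/8) := by
      have h9 : (n₁+1:ℝ) * q^2 * ((m:ℝ)/2^14) ≤ (n₁+1:ℝ) * q^2 * W :=
        mul_le_mul_of_nonneg_left hW1 (by positivity)
      have e7 : ((n₁+1:ℝ) * q) * ((m*q)/2^14/8) = ((n₁+1:ℝ) * q^2 * ((m:ℝ)/2^14))/8 := by ring
      have e8 : (n₁+1:ℝ) * (q^2*W/8) = ((n₁+1:ℝ) * q^2 * W)/8 := by ring
      rw [e7, e8]
      linarith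
    refine le_trans ?_ (h7.trans h8)
    norm_num
    linarith

end Pool.Agent.H822.SF
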