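import Mathlib
import Pool.Agent.H822.SF6

set_option autoImplicit false

/-!
# Choice of the weights and of the frequencies
-/

namespace Pool.Agent.H822.SF

open Finset

/-- weights -/
noncomputable def ww (k : ℕ) : ℝ := (1/4 : ℝ)^(Nat.log 2 k)

lemma ww_pos (k : ℕ) : 0 < ww k := by unfold ww; positivity

lemma ww_summable : Summable ww := by
  have h1 : Summable (fun k : ℕ => 4 * (1 / (k:ℝ)^2)) :=
    (Real.summable_one_div_nat_pow.2 (by norm_num)).mul_left 4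
  apply (summable_nat_add_iff 1).1
  have h2 := (summable_nat_add_iff 1).2 h1
  refine Summable.of_nonneg_of_le (fun k => (ww_pos _).le) ?_ h2
  intro k
  unfold ww
  have h3 : k + 1 < 2^(Nat.log 2 (k+1) + 1) := Nat.lt_pow_succ_log_self (by norm_num) _
  have h4 : ((k+1 : ℕ):ℝ) ≤ 2 * 2^(Nat.log 2 (k+1)) := by
    have : ((k+1 : ℕ):ℝ) ≤ ((2^(Nat.log 2 (k+1) + 1) : ℕ) : ℝ) := by exact_mod_cast h3.le
    refine this.trans (le_of_eq ?_)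
    push_cast; rw [pow_succ]; ring
  have h5 : ((k+1 : ℕ):ℝ)^2 ≤ 4 * 4^(Nat.log 2 (k+1)) := by
    calc ((k+1 : ℕ):ℝ)^2 ≤ (2 * 2^(Nat.log 2 (k+1)))^2 := pow_le_pow_left₀ (by positivity) h4 2
      _ = 4 * 4^(Nat.log 2 (k+1)) := by
        rw [mul_pow, ← pow_mul, mul_comm (Nat.log 2 (k+1)) 2, pow_mul]; norm_num
  rw [one_div_pow, mul_one_div, div_le_div_iff₀ (by positivity) (by positivity)]
  linarith

/-- normalisation -/
noncomputable def ZZ : ℝ := ∑' k, ww k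

lemma ZZ_ge : 1 ≤ ZZ := by
  have := ww_summable.le_tsum 0 (fun k _ => (ww_pos k).le)
  simpa [ww, ZZ] using this

/-- normalised weights -/
noncomputable def pp (k : ℕ) : ℝ := ww k / ZZ

lemma pp_pos (k : ℕ) : 0 < pp k := by
  have := ZZ_ge; have := ww_pos k
  unfold pp; positivity

lemma pp_hasSum : HasSum pp 1 := by
  have h := ww_summable.hasSum.div_const ZZ
  have e : (∑' k, ww k) / ZZ = 1 := div_self (by have := ZZ_ge; unfold ZZ at this; linarith)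
  rw [e] at h
  exact h

/-- the mass on block `J` -/
noncomputable def qq (J : ℕ) : ℝ := (1/4 : ℝ)^J / ZZ

lemma qq_pos (J : ℕ) : 0 < qq J := by have := ZZ_ge; unfold qq; positivity

lemma qq_le (J : ℕ) : qq J ≤ (1/4:ℝ)^J := by
  unfold qq; exact div_le_self (by positivity) ZZ_ge

lemma pp_block (J : ℕ) (k : ℕ) (hk : k ∈ Ico (2^J) (2^(J+1))) : pp k = qq J := by
  rw [mem_Ico] at hk
  unfold pp qq ww
  rw [Nat.log_eq_of_pow_le_of_lt_pow hk.1 hk.2]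

lemma card_block (J : ℕ) : (Ico (2^J) (2^(J+1))).card = 2^J := by
  rw [Nat.card_Ico, pow_succ]; omega

lemma params (J : ℕ) : ∃ n₁ m Γ : ℕ, 3 ≤ J →
    ((∀ n ∈ Ico n₁ (n₁+m), 1/2^14 ≤ (((Ico (2^J) (2^(J+1))).card:ℝ)/2)*(1-qq J)^(2*(n+1)) ∧
      (((Ico (2^J) (2^(J+1))).card:ℝ)/2)*(1-qq J)^(2*(n+1)) ≤ 1/2^12) ∧ 1/8 ≤ m*qq J ∧
      (J:ℝ)/8 ≤ (n₁+1) * qq J ∧
      2^(Ico (2^J) (2^(J+1))).card * ((2*((n₁:ℝ)+m)+3) *
        (((Ico (2^J) (2^(J+1))).card:ℝ) * (1/2)^Γ)) ≤ qq J/2^11) := by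
  by_cases hJ : 3 ≤ J
  swap
  · exact ⟨0, 0, 0, fun h => absurd h hJ⟩
  have hq := qq_pos J
  have hqs : qq J ≤ 1/64 := by
    refine (qq_le J).trans ?_
    calc (1/4:ℝ)^J ≤ (1/4)^3 := pow_le_pow_of_le_one (by norm_num) (by norm_num) hJ
      _ = 1/64 := by norm_num
  obtain ⟨n₁, m, h1, h2, h3⟩ := window (qq J) (2^J) J hq hqs rfl (by omega)
  set K : ℝ := 2^(Ico (2^J) (2^(J+1))).card * ((2*((n₁:ℝ)+m)+3) *
        (((Ico (2^J) (2^(J+1))).card:ℝ))) with hK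
  have hK0 : 0 < K := by
    rw [hK, card_block]; positivity
  obtain ⟨Γ, hΓ⟩ := exists_pow_lt_of_lt_one (show 0 < qq J/2^11/K by positivity)
    (show (1/2:ℝ) < 1 by norm_num)
  refine ⟨n₁, m, Γ, fun _ => ⟨?_, h2, h3, ?_⟩⟩
  · rw [card_block]; push_cast; exact h1
  · rw [lt_div_iff₀ hK0] at hΓ
    refine le_trans (le_of_eq ?_) hΓ.le
    rw [hK]; ring

/-- frequencies from gaps -/
def gg (Γ : ℕ → ℕ) (k : ℕ) : ℕ := ∑ i ∈ range k, (Γ (Nat.log 2 (i+1)) + 2)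

lemma gg_zero (Γ : ℕ → ℕ) : gg Γ 0 = 0 := rfl

lemma gg_succ (Γ : ℕ → ℕ) (k : ℕ) : gg Γ (k+1) = gg Γ k + (Γ (Nat.log 2 (k+1)) + 2) := by
  unfold gg; rw [sum_range_succ]

lemma gg_mono (Γ : ℕ → ℕ) : StrictMono (gg Γ) := by
  apply strictMono_nat_of_lt_succ
  intro n; rw [gg_succ]; omega

lemma gg_gap (Γ : ℕ → ℕ) (j k : ℕ) (h : j < k) : gg Γ j + (Γ (Nat.log 2 k) + 2) ≤ gg Γ k := by
  obtain ⟨r, rfl⟩ : ∃ r, k = r + 1 := ⟨k - 1, by omega⟩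
  rw [gg_succ]
  have := (gg_mono Γ).monotone (show j ≤ r by omega)
  omega

lemma gg_lac (Γ : ℕ → ℕ) : Lac (gg Γ) := by
  intro j k h
  have := gg_gap Γ j k h
  omega

lemma gg_delta (Γ : ℕ → ℕ) (J k j : ℕ) (hk : k ∈ Ico (2^J) (2^(J+1))) (h : j < k) :
    Real.pi * (2:ℝ)^(gg Γ j) / (2:ℝ)^(gg Γ k) ≤ (1/2)^(Γ J) := by
  rw [mem_Ico] at hk
  have h1 := gg_gap Γ j k h
  rw [Nat.log_eq_of_pow_le_of_lt_pow hk.1 hk.2] at h1
  rw [div_le_iff₀ (by positivity)]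
  have h2 : (2:ℝ)^(gg Γ j + (Γ J + 2)) ≤ (2:ℝ)^(gg Γ k) := pow_le_pow_right₀ (by norm_num) h1
  have h3 := Real.pi_le_four
  calc Real.pi * (2:ℝ)^(gg Γ j) ≤ 4 * (2:ℝ)^(gg Γ j) := mul_le_mul_of_nonneg_right h3 (by positivity)
    _ = (1/2)^(Γ J) * (2:ℝ)^(gg Γ j + (Γ J + 2)) := by
        rw [pow_add, pow_add, one_div_pow]
        field_simp
        norm_num
    _ ≤ _ := mul_le_mul_of_nonneg_left h2 (by positivity)

/-- The measure, and the failure of the weak type estimate. -/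
theorem final : ∃ μ : ℤ → ℝ, (∀ k, 0 ≤ μ k) ∧ HasSum μ 1 ∧
      (∀ t : ℝ, 0 < |t| → |t| ≤ Real.pi →
        ‖∑' k : ℤ, (μ k : ℂ) * Complex.exp (((t * (k : ℝ) : ℝ) : ℂ) * Complex.I)‖ < 1) ∧
      (∃ C : ℝ, ∀ t : ℝ, 0 < |t| → |t| ≤ Real.pi →
        ‖1 - ∑' k : ℤ, (μ k : ℂ) * Complex.exp (((t * (k : ℝ) : ℝ) : ℂ) * Complex.I)‖
          ≤ C * (1 - ‖∑' k : ℤ, (μ k : ℂ) * Complex.exp (((t * (k : ℝ) : ℝ) : ℂ) * Complex.I)‖)) ∧
      ∀ J : ℕ, 3 ≤ J → ∃ (P : ℕ) (f : ℤ → ℝ) (C : ℝ), 0 < P ∧ (∀ x, |f x| ≤ C) ∧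
        HasSum (fun k => |f k|) (3*P) ∧
        ∃ (s : Finset ℤ) (I : Finset ℕ), (P:ℝ)/24 ≤ s.card ∧ ∀ x ∈ s, (J:ℝ)/2^23 ≤
        ∑ n ∈ I, ((n:ℝ)+1) * (U μ (n+1) f x - U μ (n+2) f x)^2 := by
  choose n₁ m Γ hpar using params
  have hg := gg_mono Γ
  have hp : ∀ k, 0 ≤ pp k := fun k => (pp_pos k).le
  refine ⟨muF pp (gg Γ), mu_nonneg hp hg, mu_one hp pp_hasSum hg, mu_bar1 pp_pos pp_hasSum hg rfl,
    ⟨1, mu_bar2 pp_pos pp_hasSum hg rfl⟩, ?_⟩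
  intro J hJ
  obtain ⟨h1, h2, h3, h4⟩ := hpar J hJ
  have hqd : qq J * ((Ico (2^J) (2^(J+1))).card : ℝ) ≤ 1 := by
    rw [card_block]
    calc qq J * ((2^J : ℕ) : ℝ) ≤ (1/4:ℝ)^J * ((2^J : ℕ) : ℝ) :=
          mul_le_mul_of_nonneg_right (qq_le J) (by positivity)
      _ = (1/2)^J := by push_cast; rw [← mul_pow]; norm_num
      _ ≤ 1 := pow_le_one₀ (by norm_num) (by norm_num)
  obtain ⟨P, f, hP, hf1, hf2, s, hs1, hs2⟩ := block hp pp_hasSum hg (gg_lac Γ)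
    (Ico (2^J) (2^(J+1))) (by
      intro k hk
      rw [mem_Ico] at hk
      exact (Nat.one_le_two_pow).trans hk.1)
    (by rw [card_block]; positivity) J (qq J) (qq_pos J) hqd (pp_block J) (n₁ J) (m J) h1 h2 h3
    ((1/2)^(Γ J)) (by positivity) (fun k hk j hj => gg_delta Γ J k j hk hj) h4
  exact ⟨P, f, _, hP, hf1, hf2, s, _, hs1, hs2⟩

end Pool.Agent.H822.SF
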